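import Pool.Agent.K7.H26.SM.Defs

namespace Pool.Agent.K7.H26.SM

open MeasureTheory Finset Function
open scoped ENNReal

section Update

variable {n : ℕ} {X : Type*} [MeasurableSpace X] (μ : Fin n → Measure X)
  [∀ i, IsProbabilityMeasure (μ i)]

/-- resampling one coordinate does not change the law -/
lemma lintegral_update {f : (Fin n → X) → ℝ≥0∞} (hf : Measurable f) (i : Fin n) :
    ∫⁻ x, f x ∂Measure.pi μ = ∫⁻ x, ∫⁻ z, f (update x i z) ∂μ i ∂Measure.pi μ := by
  have hg : Measurable (fun x => ∫⁻ z, f (update x i z) ∂μ i) := by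
    have := (Measurable.lmarginal μ (s := {i}) hf)
    rwa [lmarginal_singleton] at this
  apply lintegral_eq_of_lmarginal_eq {i} hf hg
  rw [lmarginal_singleton, lmarginal_singleton]
  funext x
  simp

end Update

/-- linear change of variables on the line -/
lemma lintegral_affine {h : ℝ → ℝ≥0∞} (c d : ℝ) (hc : 0 < c) :
    ∫⁻ y, h y = ENNReal.ofReal c * ∫⁻ a, h (d + c * a) := by
  have e1 : ∫⁻ y, h y = ∫⁻ y, h (d + y) := (lintegral_add_left_eq_self h d).symm
  rw [e1]
  conv_lhs => rw [← Real.smul_map_volume_mul_left hc.ne']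
  rw [lintegral_smul_measure, abs_of_pos hc]
  have : MeasurableEmbedding (fun a : ℝ => c * a) :=
    (Homeomorph.mulLeft₀ c hc.ne').measurableEmbedding
  rw [this.lintegral_map]
  rfl

end Pool.Agent.K7.H26.SM
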