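import Pool.Agent.K7.H26.SM.Basic

namespace Pool.Agent.K7.H26.SM

open MeasureTheory Finset Function
open scoped ENNReal

lemma swap2 {F : ℝ → ℝ → ℝ≥0∞} (hF : Measurable (uncurry F)) :
    ∫⁻ x, ∫⁻ y, F x y = ∫⁻ y, ∫⁻ x, F x y :=
  lintegral_lintegral_swap hF.aemeasurable

/-- reordering of four integrals -/
lemma reorder {F : ℝ → ℝ → ℝ → ℝ → ℝ≥0∞}
    (hF : Measurable (fun q : ℝ × ℝ × ℝ × ℝ => F q.1 q.2.1 q.2.2.1 q.2.2.2)) :
    ∫⁻ x₁, ∫⁻ y₁, ∫⁻ x₂, ∫⁻ a, F x₁ y₁ x₂ a = ∫⁻ a, ∫⁻ x₁, ∫⁻ x₂, ∫⁻ y₁, F x₁ y₁ x₂ a := by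
  have hF' : ∀ {α : Type} [MeasurableSpace α] {u v w t : α → ℝ}, Measurable u → Measurable v →
      Measurable w → Measurable t → Measurable (fun q => F (u q) (v q) (w q) (t q)) := by
    intro α _ u v w t hu hv hw ht
    exact hF.comp (hu.prodMk (hv.prodMk (hw.prodMk ht)))
  -- inner swap x₂, a
  have s1 : ∀ x₁ y₁, ∫⁻ x₂, ∫⁻ a, F x₁ y₁ x₂ a = ∫⁻ a, ∫⁻ x₂, F x₁ y₁ x₂ a := by
    intro x₁ y₁
    exact swap2 (hF' measurable_const measurable_const measurable_fst measurable_snd)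
  have s2 : ∀ x₁, ∫⁻ y₁, ∫⁻ a, ∫⁻ x₂, F x₁ y₁ x₂ a = ∫⁻ a, ∫⁻ y₁, ∫⁻ x₂, F x₁ y₁ x₂ a := by
    intro x₁
    apply swap2
    exact Measurable.lintegral_prod_right' (f := fun q : (ℝ × ℝ) × ℝ => F x₁ q.1.1 q.2 q.1.2)
      (hF' measurable_const (by fun_prop) (by fun_prop) (by fun_prop))
  have s3 : ∀ a x₁, ∫⁻ y₁, ∫⁻ x₂, F x₁ y₁ x₂ a = ∫⁻ x₂, ∫⁻ y₁, F x₁ y₁ x₂ a := by
    intro a x₁
    exact swap2 (hF' measurable_const measurable_fst measurable_snd measurable_const)
  simp_rw [s1, s2]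
  rw [swap2]
  · simp_rw [s3]
  · have h1 : Measurable (fun q : ((ℝ × ℝ) × ℝ) => ∫⁻ x₂, F q.1.1 q.2 x₂ q.1.2) :=
      Measurable.lintegral_prod_right'
        (f := fun q : ((ℝ × ℝ) × ℝ) × ℝ => F q.1.1.1 q.1.2 q.2 q.1.1.2)
        (hF' (by fun_prop) (by fun_prop) (by fun_prop) (by fun_prop))
    exact Measurable.lintegral_prod_right' h1

/-- reordering of four integrals, second form -/
lemma reorder' {F : ℝ → ℝ → ℝ → ℝ → ℝ≥0∞}
    (hF : Measurable (fun q : ℝ × ℝ × ℝ × ℝ => F q.1 q.2.1 q.2.2.1 q.2.2.2)) :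
    ∫⁻ a, ∫⁻ x₁, ∫⁻ x₂, ∫⁻ b, F a x₁ x₂ b = ∫⁻ a, ∫⁻ b, ∫⁻ x₁, ∫⁻ x₂, F a x₁ x₂ b := by
  have hF' : ∀ {α : Type} [MeasurableSpace α] {u v w t : α → ℝ}, Measurable u → Measurable v →
      Measurable w → Measurable t → Measurable (fun q => F (u q) (v q) (w q) (t q)) := by
    intro α _ u v w t hu hv hw ht
    exact hF.comp (hu.prodMk (hv.prodMk (hw.prodMk ht)))
  apply lintegral_congr
  intro a
  have s1 : ∀ x₁, ∫⁻ x₂, ∫⁻ b, F a x₁ x₂ b = ∫⁻ b, ∫⁻ x₂, F a x₁ x₂ b := by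
    intro x₁
    exact swap2 (hF' measurable_const measurable_const measurable_fst measurable_snd)
  simp_rw [s1]
  apply swap2
  exact Measurable.lintegral_prod_right' (f := fun q : (ℝ × ℝ) × ℝ => F a q.1.1 q.2 q.1.2)
      (hF' measurable_const (by fun_prop) (by fun_prop) (by fun_prop))

/-- the slope of the line through two points -/
noncomputable def sl (z w : ℝ × ℝ) : ℝ := (w.2 - z.2) / (w.1 - z.1)

/-- the intercept of the line through two points -/
noncomputable def ic (z w : ℝ × ℝ) : ℝ := z.2 - sl z w * z.1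

/-- `w` is to the right of `z`, with slope in `[-1,1]` -/
def Fwd (z w : ℝ × ℝ) : Prop := z.1 < w.1 ∧ |w.2 - z.2| ≤ w.1 - z.1

/-- the pair density of a line -/
noncomputable def G (g h : ℝ × ℝ → ℝ≥0∞) (a b : ℝ) : ℝ≥0∞ :=
  ∫⁻ x₁, ∫⁻ x₂, g (x₁, a * x₁ + b) * h (x₂, a * x₂ + b) * ENNReal.ofReal (x₂ - x₁)

open scoped Classical in
/-- change of variables from pairs of points to lines -/
lemma pair_to_line {g h : ℝ × ℝ → ℝ≥0∞} (hg : Measurable g) (hh : Measurable h)
    {Φ : ℝ → ℝ → ℝ≥0∞} (hΦ : Measurable (uncurry Φ)) :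
    ∫⁻ z, ∫⁻ w, g z * h w * (if Fwd z w then Φ (sl z w) (ic z w) else 0) =
      ∫⁻ a in Set.Icc (-1:ℝ) 1, ∫⁻ b, G g h a b * Φ a b := by
  have hΦ' : ∀ {α : Type} [MeasurableSpace α] {u v : α → ℝ}, Measurable u → Measurable v →
      Measurable (fun q => Φ (u q) (v q)) := fun hu hv => hΦ.comp (hu.prodMk hv)
  have hFwd : MeasurableSet {q : (ℝ × ℝ) × (ℝ × ℝ) | Fwd q.1 q.2} := by
    apply MeasurableSet.inter
    · exact measurableSet_lt (f := fun q : (ℝ × ℝ) × (ℝ × ℝ) => q.1.1)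
        (g := fun q : (ℝ × ℝ) × (ℝ × ℝ) => q.2.1) (by fun_prop) (by fun_prop)
    · exact measurableSet_le (f := fun q : (ℝ × ℝ) × (ℝ × ℝ) => |q.2.2 - q.1.2|)
        (g := fun q : (ℝ × ℝ) × (ℝ × ℝ) => q.2.1 - q.1.1) (by fun_prop) (by fun_prop)
  have hsl : Measurable (fun q : (ℝ × ℝ) × (ℝ × ℝ) => sl q.1 q.2) := by
    unfold sl; fun_prop
  have hic : Measurable (fun q : (ℝ × ℝ) × (ℝ × ℝ) => ic q.1 q.2) := by
    unfold ic; exact (by fun_prop : Measurable fun q : (ℝ × ℝ) × (ℝ × ℝ) => q.1.2).sub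
      (hsl.mul (by fun_prop))
  have hK : Measurable (fun q : (ℝ × ℝ) × (ℝ × ℝ) =>
      g q.1 * h q.2 * (if Fwd q.1 q.2 then Φ (sl q.1 q.2) (ic q.1 q.2) else 0)) := by
    apply Measurable.mul
    · exact (hg.comp measurable_fst).mul (hh.comp measurable_snd)
    · exact Measurable.ite hFwd (hΦ.comp (hsl.prodMk hic)) measurable_const
  -- pass to real coordinates
  have e1 : ∀ z : ℝ × ℝ, ∫⁻ w, g z * h w * (if Fwd z w then Φ (sl z w) (ic z w) else 0) =
      ∫⁻ x₂, ∫⁻ y₂, g z * h (x₂, y₂) *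
        (if Fwd z (x₂, y₂) then Φ (sl z (x₂, y₂)) (ic z (x₂, y₂)) else 0) := by
    intro z
    rw [Measure.volume_eq_prod, lintegral_prod]
    exact (hK.comp (measurable_const.prodMk measurable_id)).aemeasurable
  have e2 : ∀ z : ℝ × ℝ, ∀ x₂ : ℝ, ∫⁻ y₂, g z * h (x₂, y₂) *
        (if Fwd z (x₂, y₂) then Φ (sl z (x₂, y₂)) (ic z (x₂, y₂)) else 0) =
      ∫⁻ a, ENNReal.ofReal (x₂ - z.1) * (g z * h (x₂, z.2 + (x₂ - z.1) * a) *
        (if a ∈ Set.Icc (-1:ℝ) 1 then Φ a (z.2 - a * z.1) else 0)) := by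
    intro z x₂
    by_cases hlt : z.1 < x₂
    · have hc : 0 < x₂ - z.1 := by linarith
      rw [lintegral_affine (x₂ - z.1) z.2 hc, ← lintegral_const_mul']
      · apply lintegral_congr
        intro a
        have hs : sl z (x₂, z.2 + (x₂ - z.1) * a) = a := by
          unfold sl; simp only; field_simp; ring
        have hi : ic z (x₂, z.2 + (x₂ - z.1) * a) = z.2 - a * z.1 := by
          unfold ic; rw [hs]
        have hf : Fwd z (x₂, z.2 + (x₂ - z.1) * a) ↔ a ∈ Set.Icc (-1:ℝ) 1 := by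
          unfold Fwd
          simp only [Set.mem_Icc]
          rw [show z.2 + (x₂ - z.1) * a - z.2 = (x₂ - z.1) * a by ring, abs_mul, abs_of_pos hc]
          constructor
          · rintro ⟨-, h2⟩
            have : |a| ≤ 1 := by
              by_contra h3
              push Not at h3
              nlinarith
            exact abs_le.mp this
          · intro h2
            refine ⟨hlt, ?_⟩
            have : |a| ≤ 1 := abs_le.mpr h2
            nlinarith
        rw [hs, hi]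
        simp only [hf]
      · exact ENNReal.ofReal_ne_top
    · have h0 : ENNReal.ofReal (x₂ - z.1) = 0 := ENNReal.ofReal_of_nonpos (by linarith)
      have hnf : ∀ y₂, ¬ Fwd z (x₂, y₂) := by
        intro y₂ hf
        exact hlt hf.1
      simp [h0, hnf]
  have e3 : ∫⁻ z, ∫⁻ w, g z * h w * (if Fwd z w then Φ (sl z w) (ic z w) else 0) =
      ∫⁻ x₁, ∫⁻ y₁, ∫⁻ x₂, ∫⁻ a, ENNReal.ofReal (x₂ - x₁) *
        (g (x₁, y₁) * h (x₂, y₁ + (x₂ - x₁) * a) *
        (if a ∈ Set.Icc (-1:ℝ) 1 then Φ a (y₁ - a * x₁) else 0)) := by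
    simp_rw [e1, e2]
    rw [Measure.volume_eq_prod, lintegral_prod]
    apply Measurable.aemeasurable
    have h1 : Measurable (fun q : ((ℝ × ℝ) × ℝ) × ℝ => ENNReal.ofReal (q.1.2 - q.1.1.1) *
        (g q.1.1 * h (q.1.2, q.1.1.2 + (q.1.2 - q.1.1.1) * q.2) *
        (if q.2 ∈ Set.Icc (-1:ℝ) 1 then Φ q.2 (q.1.1.2 - q.2 * q.1.1.1) else 0))) := by
      refine Measurable.mul ?_ (Measurable.mul ?_ ?_)
      · fun_prop
      · exact (hg.comp (by fun_prop)).mul (hh.comp (by fun_prop))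
      · refine Measurable.ite ?_ (hΦ' (by fun_prop) (by fun_prop)) measurable_const
        exact measurableSet_Icc.preimage measurable_snd
    exact (Measurable.lintegral_prod_right' h1).lintegral_prod_right'
  rw [e3, reorder]
  · -- translate `y₁ = b + a x₁`
    have e4 : ∀ a x₁ x₂ : ℝ, ∫⁻ y₁, ENNReal.ofReal (x₂ - x₁) *
        (g (x₁, y₁) * h (x₂, y₁ + (x₂ - x₁) * a) *
        (if a ∈ Set.Icc (-1:ℝ) 1 then Φ a (y₁ - a * x₁) else 0)) =
        ∫⁻ b, ENNReal.ofReal (x₂ - x₁) * (g (x₁, a * x₁ + b) * h (x₂, a * x₂ + b) *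
        (if a ∈ Set.Icc (-1:ℝ) 1 then Φ a b else 0)) := by
      intro a x₁ x₂
      rw [← lintegral_add_left_eq_self _ (a * x₁)]
      apply lintegral_congr
      intro b
      rw [show a * x₁ + b + (x₂ - x₁) * a = a * x₂ + b by ring,
        show a * x₁ + b - a * x₁ = b by ring]
    simp_rw [e4]
    rw [reorder']
    · rw [← lintegral_indicator measurableSet_Icc]
      apply lintegral_congr
      intro a
      by_cases ha : a ∈ Set.Icc (-1:ℝ) 1
      · rw [Set.indicator_of_mem ha]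
        apply lintegral_congr
        intro b
        simp only [ha, if_true]
        unfold G
        rw [← lintegral_mul_const]
        · apply lintegral_congr
          intro x₁
          rw [← lintegral_mul_const]
          · apply lintegral_congr
            intro x₂
            ring
          · apply Measurable.mul _ (by fun_prop)
            exact (hg.comp (by fun_prop)).mul (hh.comp (by fun_prop))
        · apply Measurable.lintegral_prod_right'
            (f := fun q : ℝ × ℝ => g (q.1, a * q.1 + b) * h (q.2, a * q.2 + b) *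
              ENNReal.ofReal (q.2 - q.1))
          apply Measurable.mul _ (by fun_prop)
          exact (hg.comp (by fun_prop)).mul (hh.comp (by fun_prop))
      · rw [Set.indicator_of_notMem ha]
        simp [ha]
    · refine Measurable.mul ?_ (Measurable.mul ?_ ?_)
      · fun_prop
      · exact (hg.comp (by fun_prop)).mul (hh.comp (by fun_prop))
      · refine Measurable.ite ?_ (hΦ' (by fun_prop) (by fun_prop)) measurable_const
        exact measurableSet_Icc.preimage measurable_fst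
  · refine Measurable.mul ?_ (Measurable.mul ?_ ?_)
    · fun_prop
    · exact (hg.comp (by fun_prop)).mul (hh.comp (by fun_prop))
    · refine Measurable.ite ?_ (hΦ' (by fun_prop) (by fun_prop)) measurable_const
      exact measurableSet_Icc.preimage (by fun_prop)

end Pool.Agent.K7.H26.SM
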