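import Pool.Agent.K7.H26.SM.CV

namespace Pool.Agent.K7.H26.SM

open MeasureTheory Finset Function
open scoped ENNReal

section Card

open scoped Classical in
lemma measurable_card {α : Type*} [MeasurableSpace α] {n : ℕ} {P : α → Fin n → Prop}
    (h : ∀ l, MeasurableSet {q | P q l}) :
    Measurable (fun q => (univ.filter (P q)).card) := by
  have e : (fun q => (univ.filter (P q)).card) = fun q => ∑ l, if P q l then 1 else 0 := by
    funext q
    rw [card_filter]
  rw [e]
  apply Finset.measurable_sum
  intro l _
  exact Measurable.ite (h l) measurable_const measurable_const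

end Card

open scoped Classical in
/-- number of points above the line `y = a x + b` -/
noncomputable def above {n : ℕ} (x : Fin n → ℝ × ℝ) (a b : ℝ) : ℕ :=
  (univ.filter fun l => a * (x l).1 + b < (x l).2).card

lemma measurable_above {n : ℕ} :
    Measurable (fun q : (ℝ × ℝ) × (Fin n → ℝ × ℝ) => above q.2 q.1.1 q.1.2) := by
  classical
  unfold above
  apply measurable_card (P := fun (q : (ℝ × ℝ) × (Fin n → ℝ × ℝ)) l =>
    q.1.1 * (q.2 l).1 + q.1.2 < (q.2 l).2)
  intro l
  exact measurableSet_lt (f := fun q : (ℝ × ℝ) × (Fin n → ℝ × ℝ) => q.1.1 * (q.2 l).1 + q.1.2)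
    (g := fun q : (ℝ × ℝ) × (Fin n → ℝ × ℝ) => (q.2 l).2) (by fun_prop) (by fun_prop)

/-- the event that between `k` and `k + 2` points are above the line -/
def Ev {n : ℕ} (k : ℕ) (a b : ℝ) : Set (Fin n → ℝ × ℝ) :=
  {x | k ≤ above x a b ∧ above x a b ≤ k + 2}

lemma measurableSet_Ev {n : ℕ} (k : ℕ) :
    MeasurableSet {q : (ℝ × ℝ) × (Fin n → ℝ × ℝ) | q.2 ∈ Ev k q.1.1 q.1.2} := by
  unfold Ev
  exact (measurable_above (n := n)) (measurableSet_Icc (a := k) (b := k + 2))

section

variable {n : ℕ} (μ : Fin n → Measure (ℝ × ℝ)) [∀ i, IsProbabilityMeasure (μ i)]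

/-- the probability of `Ev` -/
noncomputable def Pk (k : ℕ) (a b : ℝ) : ℝ≥0∞ := Measure.pi μ (Ev k a b)

lemma measurable_Pk (k : ℕ) : Measurable (uncurry (Pk μ k)) := by
  have := measurable_measure_prodMk_left (ν := Measure.pi μ) (measurableSet_Ev (n := n) k)
  exact this

lemma Pk_eq (k : ℕ) (a b : ℝ) :
    Pk μ k a b = ∫⁻ x, (Ev k a b).indicator 1 x ∂Measure.pi μ := by
  rw [Pk, lintegral_indicator_one]
  exact measurable_prodMk_left (measurableSet_Ev (n := n) k) (x := (a, b))

end

lemma orient_pos_iff {z w s : ℝ × ℝ} (h : z.1 < w.1) :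
    0 < orient z w s ↔ sl z w * s.1 + ic z w < s.2 := by
  have hc : 0 < w.1 - z.1 := by linarith
  have e : orient z w s = (w.1 - z.1) * (s.2 - (sl z w * s.1 + ic z w)) := by
    unfold orient ic sl
    field_simp
    ring
  rw [e]
  constructor
  · intro h1
    have := (mul_pos_iff_of_pos_left hc).mp h1
    linarith
  · intro h1
    exact mul_pos hc (by linarith)

lemma above_of_left {n : ℕ} {x : Fin n → ℝ × ℝ} {i j : Fin n} (hij : i ≠ j) {z w : ℝ × ℝ}
    {k : ℕ} (hf : Fwd z w) (h : left (update (update x i z) j w) z w = k) :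
    x ∈ Ev (n := n) k (sl z w) (ic z w) := by
  classical
  have h1 : ∀ l, 0 < orient z w (update (update x i z) j w l) →
      sl z w * (x l).1 + ic z w < (x l).2 := by
    intro l hl
    by_cases hlj : l = j
    · subst hlj
      rw [update_self] at hl
      unfold orient at hl
      nlinarith
    · rw [update_of_ne hlj] at hl
      by_cases hli : l = i
      · subst hli
        rw [update_self] at hl
        unfold orient at hl
        nlinarith
      · rw [update_of_ne hli] at hl
        exact (orient_pos_iff hf.1).mp hl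
  have h2 : ∀ l, l ≠ i → l ≠ j → sl z w * (x l).1 + ic z w < (x l).2 →
      0 < orient z w (update (update x i z) j w l) := by
    intro l hli hlj hl
    rw [update_of_ne hlj, update_of_ne hli]
    exact (orient_pos_iff hf.1).mpr hl
  unfold left at h
  constructor
  · rw [← h]
    unfold above
    apply card_le_card
    intro l hl
    rw [mem_filter] at hl ⊢
    exact ⟨mem_univ _, h1 l hl.2⟩
  · rw [← h]
    unfold above
    have : (univ.filter fun l => sl z w * (x l).1 + ic z w < (x l).2) ⊆
        (univ.filter fun l => 0 < orient z w (update (update x i z) j w l)) ∪ {i, j} := by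
      intro l hl
      rw [mem_filter] at hl
      rw [mem_union, mem_filter]
      by_cases hli : l = i
      · right; simp [hli]
      · by_cases hlj : l = j
        · right; simp [hlj]
        · left; exact ⟨mem_univ _, h2 l hli hlj hl.2⟩
    refine (card_le_card this).trans ((card_union_le _ _).trans ?_)
    have : ({i, j} : Finset (Fin n)).card ≤ 2 := card_le_two
    omega

lemma measurable_left {n : ℕ} : Measurable
    (fun q : (ℝ × ℝ) × (ℝ × ℝ) × (Fin n → ℝ × ℝ) => left q.2.2 q.1 q.2.1) := by
  classical
  unfold left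
  apply measurable_card (P := fun (q : (ℝ × ℝ) × (ℝ × ℝ) × (Fin n → ℝ × ℝ)) l =>
    0 < orient q.1 q.2.1 (q.2.2 l))
  intro l
  unfold orient
  exact measurableSet_lt (f := fun _ : (ℝ × ℝ) × (ℝ × ℝ) × (Fin n → ℝ × ℝ) => (0:ℝ))
    (g := fun q : (ℝ × ℝ) × (ℝ × ℝ) × (Fin n → ℝ × ℝ) => (q.2.1.1 - q.1.1) *
      ((q.2.2 l).2 - q.1.2) - (q.2.1.2 - q.1.2) * ((q.2.2 l).1 - q.1.1))
    (by fun_prop) (by fun_prop)

lemma measurableSet_Fwd : MeasurableSet {q : (ℝ × ℝ) × (ℝ × ℝ) | Fwd q.1 q.2} := by
  apply MeasurableSet.inter
  · exact measurableSet_lt (f := fun q : (ℝ × ℝ) × (ℝ × ℝ) => q.1.1)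
      (g := fun q : (ℝ × ℝ) × (ℝ × ℝ) => q.2.1) (by fun_prop) (by fun_prop)
  · exact measurableSet_le (f := fun q : (ℝ × ℝ) × (ℝ × ℝ) => |q.2.2 - q.1.2|)
      (g := fun q : (ℝ × ℝ) × (ℝ × ℝ) => q.2.1 - q.1.1) (by fun_prop) (by fun_prop)

section

variable {n : ℕ} (μ : Fin n → Measure (ℝ × ℝ)) [∀ i, IsProbabilityMeasure (μ i)]

open scoped Classical in
/-- the probability that `(i, j)` is a forward `k`-edge -/
lemma pair_prob {i j : Fin n} (hij : i ≠ j) (k : ℕ) :
    Measure.pi μ {x | Fwd (x i) (x j) ∧ left x (x i) (x j) = k} ≤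
      ∫⁻ z, ∫⁻ w, (if Fwd z w then Pk μ k (sl z w) (ic z w) else 0) ∂μ j ∂μ i := by
  set E : Set (Fin n → ℝ × ℝ) := {x | Fwd (x i) (x j) ∧ left x (x i) (x j) = k} with hE
  have hEm : MeasurableSet E := by
    apply MeasurableSet.inter
    · exact measurableSet_Fwd.preimage
        (f := fun x : Fin n → ℝ × ℝ => (x i, x j)) (by fun_prop)
    · exact (measurable_left (n := n)).comp
        (g := _) (f := fun x : Fin n → ℝ × ℝ => (x i, x j, x)) (by fun_prop)
        (measurableSet_singleton k)
  have hind : Measurable (E.indicator (1 : (Fin n → ℝ × ℝ) → ℝ≥0∞)) :=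
    measurable_one.indicator hEm
  have hup : Measurable (fun q : ((Fin n → ℝ × ℝ) × (ℝ × ℝ)) × (ℝ × ℝ) =>
      update (update q.1.1 i q.1.2) j q.2) := by
    rw [measurable_pi_iff]
    intro l
    by_cases hlj : l = j
    · subst hlj
      simp only [update_self]
      fun_prop
    · simp only [update_of_ne hlj]
      by_cases hli : l = i
      · subst hli
        simp only [update_self]
        fun_prop
      · simp only [update_of_ne hli]
        fun_prop
  have hup1 : Measurable (fun q : (Fin n → ℝ × ℝ) × (ℝ × ℝ) => update q.1 j q.2) := by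
    rw [measurable_pi_iff]
    intro l
    by_cases hlj : l = j
    · subst hlj
      simp only [update_self]
      fun_prop
    · simp only [update_of_ne hlj]
      fun_prop
  have e1 : Measure.pi μ E = ∫⁻ x, ∫⁻ z, ∫⁻ w,
      E.indicator 1 (update (update x i z) j w) ∂μ j ∂μ i ∂Measure.pi μ := by
    rw [← lintegral_indicator_one hEm, lintegral_update μ hind j, lintegral_update μ _ i]
    exact (hind.comp hup1).lintegral_prod_right'
  rw [e1, lintegral_lintegral_swap]
  · apply lintegral_mono
    intro z
    dsimp only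
    rw [lintegral_lintegral_swap]
    · apply lintegral_mono
      intro w
      dsimp only
      by_cases hf : Fwd z w
      · rw [if_pos hf, Pk_eq]
        apply lintegral_mono
        intro x
        dsimp only
        by_cases hx : update (update x i z) j w ∈ E
        · have hx' : left (update (update x i z) j w) z w = k := by
            have := hx.2
            rwa [update_self, update_of_ne hij, update_self] at this
          rw [Set.indicator_of_mem hx, Set.indicator_of_mem (above_of_left hij hf hx')]
          rfl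
        · rw [Set.indicator_of_notMem hx]
          exact zero_le
      · rw [if_neg hf]
        rw [nonpos_iff_eq_zero, lintegral_eq_zero_iff]
        · filter_upwards with x
          apply Set.indicator_of_notMem
          intro hx
          have := hx.1
          rw [update_self, update_of_ne hij, update_self] at this
          exact hf this
        · exact hind.comp (hup.comp (by fun_prop : Measurable fun x : Fin n → ℝ × ℝ => ((x, z), w)))
    · exact (hind.comp (hup.comp (by fun_prop : Measurable
        fun q : (Fin n → ℝ × ℝ) × (ℝ × ℝ) => ((q.1, z), q.2)))).aemeasurable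
  · exact (hind.comp hup).lintegral_prod_right'.aemeasurable

end

end Pool.Agent.K7.H26.SM
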