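import Mathlib

/-!
# Expected number of `k`-edges of independent random points: definitions
-/

namespace Pool.Agent.K7.H26.SM

open MeasureTheory Finset
open scoped ENNReal

/-- Twice the signed area of the triangle `p q s`; it is positive if and only if `s` is strictly
to the left of the directed line from `p` to `q`. -/
def orient (p q s : ℝ × ℝ) : ℝ := (q.1 - p.1) * (s.2 - p.2) - (q.2 - p.2) * (s.1 - p.1)

open scoped Classical in
/-- The number of indices `l` such that `x l` is strictly to the left of the directed line from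
`p` to `q`. -/
noncomputable def left {n : ℕ} (x : Fin n → ℝ × ℝ) (p q : ℝ × ℝ) : ℕ :=
  (univ.filter fun l => 0 < orient p q (x l)).card

open scoped Classical in
/-- The number of ordered pairs `(i, j)` with `x i ≠ x j` such that exactly `k` of the points
are strictly to the left of the directed line from `x i` to `x j` (directed `k`-edges). -/
noncomputable def edges {n : ℕ} (x : Fin n → ℝ × ℝ) (k : ℕ) : ℕ :=
  (univ.filter fun ij : Fin n × Fin n =>
    x ij.1 ≠ x ij.2 ∧ left x (x ij.1) (x ij.2) = k).card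

/-- `f i` is a probability density on the plane, bounded by `κ / (r i) ^ 2` and vanishing outside
the square with centre `p i` and side `2 * r i`, and any two points of two such squares differ by
at most `D` in each coordinate. -/
structure Noise {n : ℕ} (f : Fin n → ℝ × ℝ → ℝ≥0∞) (p : Fin n → ℝ × ℝ) (r : Fin n → ℝ)
    (κ D : ℝ) : Prop where
  kpos : 0 < κ
  meas : ∀ i, Measurable (f i)
  one : ∀ i, ∫⁻ z, f i z = 1
  rpos : ∀ i, 0 < r i
  bound : ∀ i z, f i z ≤ ENNReal.ofReal (κ / r i ^ 2)
  supp : ∀ i z, f i z ≠ 0 → |z.1 - (p i).1| ≤ r i ∧ |z.2 - (p i).2| ≤ r i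
  diam : ∀ i j, |(p i).1 - (p j).1| + r i + r j ≤ D ∧ |(p i).2 - (p j).2| + r i + r j ≤ D

/-- The joint law of independent random points with densities `f i`. -/
noncomputable def law {n : ℕ} (f : Fin n → ℝ × ℝ → ℝ≥0∞) : Measure (Fin n → ℝ × ℝ) :=
  Measure.pi fun i => volume.withDensity (f i)

/-- The set of points `(x, y)` of the plane with `a x + b y = c`. -/
def Line (a b c : ℝ) : Set (ℝ × ℝ) := {p | a * p.1 + b * p.2 = c}

/-- General position: no three distinct points of `P` lie on a common line. -/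
def GeneralPosition (P : Finset (ℝ × ℝ)) : Prop :=
  ∀ a b c : ℝ, (a ≠ 0 ∨ b ≠ 0) → ∀ p ∈ P, ∀ q ∈ P, ∀ r ∈ P, p ≠ q → p ≠ r → q ≠ r →
    ¬ (p ∈ Line a b c ∧ q ∈ Line a b c ∧ r ∈ Line a b c)

open scoped Classical in
/-- `L` is a bisector (halving line) of `P`: a line through two points of `P` such that each of
the two open half-planes bounded by it contains exactly `|P| / 2 - 1` points of `P`. -/
def IsBisector (P : Finset (ℝ × ℝ)) (L : Set (ℝ × ℝ)) : Prop :=
  ∃ a b c : ℝ, (a ≠ 0 ∨ b ≠ 0) ∧ L = Line a b c ∧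
    (∃ p ∈ P, ∃ q ∈ P, p ≠ q ∧ p ∈ L ∧ q ∈ L) ∧
    (P.filter (fun p => a * p.1 + b * p.2 < c)).card = P.card / 2 - 1 ∧
    (P.filter (fun p => c < a * p.1 + b * p.2)).card = P.card / 2 - 1

end Pool.Agent.K7.H26.SM
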