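import Pool.Agent.K7.H26.SM.Rank

namespace Pool.Agent.K7.H26.SM

open MeasureTheory Finset Function
open scoped ENNReal

/-- the density of the mass on a line, with respect to the abscissa -/
noncomputable def LD (g : ℝ × ℝ → ℝ≥0∞) (a b : ℝ) : ℝ≥0∞ := ∫⁻ x, g (x, a * x + b)

lemma measurable_LD {g : ℝ × ℝ → ℝ≥0∞} (hg : Measurable g) : Measurable (uncurry (LD g)) := by
  unfold LD
  exact Measurable.lintegral_prod_right' (f := fun q : (ℝ × ℝ) × ℝ => g (q.2, q.1.1 * q.2 + q.1.2))
    (hg.comp (by fun_prop))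

lemma measurable_G {g h : ℝ × ℝ → ℝ≥0∞} (hg : Measurable g) (hh : Measurable h) :
    Measurable (uncurry (G g h)) := by
  unfold G
  have h1 : Measurable (fun q : ((ℝ × ℝ) × ℝ) × ℝ => g (q.1.2, q.1.1.1 * q.1.2 + q.1.1.2) *
      h (q.2, q.1.1.1 * q.2 + q.1.1.2) * ENNReal.ofReal (q.2 - q.1.2)) := by
    refine Measurable.mul ((hg.comp (by fun_prop)).mul (hh.comp (by fun_prop))) ?_
    fun_prop
  exact (Measurable.lintegral_prod_right' h1).lintegral_prod_right'

/-- integrating the line density over the intercept -/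
lemma lintegral_LD_mul {g : ℝ × ℝ → ℝ≥0∞} (hg : Measurable g) {π : ℝ → ℝ≥0∞} (hπ : Measurable π)
    (a : ℝ) : ∫⁻ b, LD g a b * π b = ∫⁻ z, π (Z a z) ∂(volume.withDensity g) := by
  have e1 : ∀ b, LD g a b * π b = ∫⁻ x, g (x, a * x + b) * π b := by
    intro b
    unfold LD
    rw [lintegral_mul_const]
    exact hg.comp (by fun_prop)
  simp_rw [e1]
  rw [swap2]
  · have e2 : ∀ x : ℝ, ∫⁻ b, g (x, a * x + b) * π b = ∫⁻ y, g (x, y) * π (Z a (x, y)) := by
      intro x
      rw [← lintegral_add_left_eq_self (fun y => g (x, y) * π (Z a (x, y))) (a * x)]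
      apply lintegral_congr
      intro b
      unfold Z
      rw [show a * x + b - a * x = b by ring]
    simp_rw [e2]
    have e3 : ∫⁻ z, π (Z a z) ∂(volume.withDensity g) = ∫⁻ z, g z * π (Z a z) :=
      lintegral_withDensity_eq_lintegral_mul volume hg (hπ.comp (measurable_Z a))
    rw [e3, Measure.volume_eq_prod, lintegral_prod]
    exact (hg.mul (hπ.comp (measurable_Z a))).aemeasurable
  · exact (hg.comp (by fun_prop)).mul (hπ.comp measurable_fst)

section

variable {n : ℕ} {f : Fin n → ℝ × ℝ → ℝ≥0∞} {p : Fin n → ℝ × ℝ} {r : Fin n → ℝ} {κ D : ℝ}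
  (h : Noise f p r κ D)

include h

lemma Noise.prob (i : Fin n) : IsProbabilityMeasure (volume.withDensity (f i)) := by
  constructor
  rw [withDensity_apply _ MeasurableSet.univ, Measure.restrict_univ]
  exact h.one i

omit h in
/-- the total line density -/
noncomputable def TD (f : Fin n → ℝ × ℝ → ℝ≥0∞) (a b : ℝ) : ℝ≥0∞ := ∑ i, LD (f i) a b

omit h in
/-- the total pair density -/
noncomputable def TG (f : Fin n → ℝ × ℝ → ℝ≥0∞) (a b : ℝ) : ℝ≥0∞ :=
  ∑ i, ∑ j, G (f i) (f j) a b

lemma Noise.measurable_TD : Measurable (uncurry (TD f)) := by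
  have e : uncurry (TD f) = fun q => ∑ i, uncurry (LD (f i)) q := rfl
  rw [e]
  exact Finset.measurable_sum _ fun i _ => measurable_LD (h.meas i)

lemma Noise.measurable_TG : Measurable (uncurry (TG f)) := by
  have e : uncurry (TG f) = fun q => ∑ i, ∑ j, uncurry (G (f i) (f j)) q := rfl
  rw [e]
  exact Finset.measurable_sum _ fun i _ => Finset.measurable_sum _ fun j _ =>
    measurable_G (h.meas i) (h.meas j)

/-- (F2) -/
lemma Noise.rank (k : ℕ) (a : ℝ) :
    ∫⁻ b, TD f a b * Pk (fun i => volume.withDensity (f i)) k a b ≤ 4 := by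
  have := h.prob
  have hπ : Measurable (Pk (fun i => volume.withDensity (f i)) k a) := by
    have h1 : Measurable (fun b : ℝ => uncurry (Pk (fun i => volume.withDensity (f i)) k) (a, b)) :=
      (measurable_Pk (fun i => volume.withDensity (f i)) k).comp measurable_prodMk_left
    exact h1
  have e : ∀ b, TD f a b * Pk (fun i => volume.withDensity (f i)) k a b =
      ∑ i, LD (f i) a b * Pk (fun i => volume.withDensity (f i)) k a b := by
    intro b
    rw [TD, sum_mul]
  simp_rw [e]
  rw [lintegral_finsetSum]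
  · simp_rw [fun i => lintegral_LD_mul (h.meas i) hπ a]
    exact rank_bound (fun i => volume.withDensity (f i))
      (fun i => withDensity_absolutelyContinuous _ _) k a
  · intro i _
    have h1 : Measurable (fun b : ℝ => uncurry (LD (f i)) (a, b)) :=
      (measurable_LD (h.meas i)).comp measurable_prodMk_left
    exact h1.mul hπ

/-- bound of the abscissa difference -/
lemma Noise.dx {i j : Fin n} {x₁ y₁ x₂ y₂ : ℝ} (h1 : f i (x₁, y₁) ≠ 0) (h2 : f j (x₂, y₂) ≠ 0) :
    x₂ - x₁ ≤ |(p i).1 - (p j).1| + (r i + r j) := by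
  have a1 := (h.supp i _ h1).1
  have a2 := (h.supp j _ h2).1
  simp only at a1 a2
  have b1 := abs_le.mp a1
  have b2 := abs_le.mp a2
  have b3 := neg_abs_le ((p i).1 - (p j).1)
  linarith [b1.1, b2.2]

/-- (F1) -/
lemma Noise.G_le (i j : Fin n) (a b : ℝ) :
    G (f i) (f j) a b ≤ ENNReal.ofReal D * (LD (f i) a b * LD (f j) a b) := by
  unfold G LD
  calc ∫⁻ x₁, ∫⁻ x₂, f i (x₁, a * x₁ + b) * f j (x₂, a * x₂ + b) * ENNReal.ofReal (x₂ - x₁)
      ≤ ∫⁻ x₁, ∫⁻ x₂, ENNReal.ofReal D * (f i (x₁, a * x₁ + b) * f j (x₂, a * x₂ + b)) := by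
        apply lintegral_mono; intro x₁
        apply lintegral_mono; intro x₂
        dsimp only
        by_cases h1 : f i (x₁, a * x₁ + b) = 0
        · simp [h1]
        by_cases h2 : f j (x₂, a * x₂ + b) = 0
        · simp [h2]
        rw [mul_comm]
        apply mul_le_mul_left
        apply ENNReal.ofReal_le_ofReal
        have := h.dx h1 h2
        have := (h.diam i j).1
        linarith
    _ = ENNReal.ofReal D * ((∫⁻ x, f i (x, a * x + b)) * ∫⁻ x, f j (x, a * x + b)) := by
        have m1 : Measurable (fun x : ℝ => f i (x, a * x + b)) := (h.meas i).comp (by fun_prop)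
        have m2 : Measurable (fun x : ℝ => f j (x, a * x + b)) := (h.meas j).comp (by fun_prop)
        have e1 : ∀ x₁ : ℝ, ∫⁻ x₂, ENNReal.ofReal D *
            (f i (x₁, a * x₁ + b) * f j (x₂, a * x₂ + b)) =
            ENNReal.ofReal D * (f i (x₁, a * x₁ + b) * ∫⁻ x, f j (x, a * x + b)) := by
          intro x₁
          rw [lintegral_const_mul _ (m2.const_mul _), lintegral_const_mul _ m2]
        simp_rw [e1]
        rw [lintegral_const_mul _ (m1.mul_const _), lintegral_mul_const _ m1]

lemma Noise.TG_le (a b : ℝ) : TG f a b ≤ ENNReal.ofReal D * (TD f a b * TD f a b) := by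
  unfold TG TD
  rw [sum_mul_sum, mul_sum]
  apply sum_le_sum; intro i _
  rw [mul_sum]
  apply sum_le_sum; intro j _
  exact h.G_le i j a b

lemma Noise.LD_lt_top (i : Fin n) (a b : ℝ) : LD (f i) a b < ∞ := by
  unfold LD
  calc ∫⁻ x, f i (x, a * x + b)
      ≤ ∫⁻ x, (Set.Icc ((p i).1 - r i) ((p i).1 + r i)).indicator
          (fun _ => ENNReal.ofReal (κ / r i ^ 2)) x := by
        apply lintegral_mono; intro x
        dsimp only
        by_cases h1 : f i (x, a * x + b) = 0
        · simp [h1]
        · have := abs_le.mp (h.supp i _ h1).1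
          rw [Set.indicator_of_mem]
          · exact h.bound i _
          · simp only at this
            constructor <;> linarith [this.1, this.2]
    _ < ∞ := by
        rw [lintegral_indicator measurableSet_Icc, lintegral_const]
        apply ENNReal.mul_lt_top ENNReal.ofReal_lt_top
        rw [Measure.restrict_apply_univ, Real.volume_Icc]
        exact ENNReal.ofReal_lt_top

lemma Noise.TD_lt_top (a b : ℝ) : TD f a b < ∞ := by
  unfold TD
  rw [ENNReal.sum_lt_top]
  intro i _
  exact h.LD_lt_top i a b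

/-- the window indicator -/
def Win (p : Fin n → ℝ × ℝ) (r : Fin n → ℝ) (i j : Fin n) : Set ℝ :=
  {a | |((p i).2 - (p j).2) - a * ((p i).1 - (p j).1)| ≤ 2 * (r i + r j)}

omit h in
lemma measurableSet_Win (i j : Fin n) : MeasurableSet (Win p r i j) := by
  unfold Win
  exact measurableSet_le (f := fun a : ℝ => |((p i).2 - (p j).2) - a * ((p i).1 - (p j).1)|)
    (g := fun _ => 2 * (r i + r j)) (by fun_prop) (by fun_prop)

/-- (F3) -/
lemma Noise.G_le' (i j : Fin n) {a : ℝ} (ha : a ∈ Set.Icc (-1:ℝ) 1) (b : ℝ) :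
    G (f i) (f j) a b ≤ (Win p r i j).indicator (fun _ => ENNReal.ofReal
      ((|(p i).1 - (p j).1| + (r i + r j)) * (2 * κ / r i) * (2 * κ / r j))) a := by
  have hri := h.rpos i
  have hrj := h.rpos j
  have hκ := h.kpos
  have habs : |a| ≤ 1 := abs_le.mpr ha
  set I := Set.Icc ((p i).1 - r i) ((p i).1 + r i) with hI
  set J := Set.Icc ((p j).1 - r j) ((p j).1 + r j) with hJ
  set d := |(p i).1 - (p j).1| + (r i + r j) with hd
  have hd0 : 0 ≤ d := by positivity
  unfold G
  -- pointwise bound
  have key : ∀ x₁ x₂ : ℝ, f i (x₁, a * x₁ + b) * f j (x₂, a * x₂ + b) *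
      ENNReal.ofReal (x₂ - x₁) ≤ (I.indicator (fun _ => (1:ℝ≥0∞)) x₁ *
        J.indicator (fun _ => (1:ℝ≥0∞)) x₂) *
        (Win p r i j).indicator (fun _ => ENNReal.ofReal (κ / r i ^ 2) *
          ENNReal.ofReal (κ / r j ^ 2) * ENNReal.ofReal d) a := by
    intro x₁ x₂
    by_cases h1 : f i (x₁, a * x₁ + b) = 0
    · simp [h1]
    by_cases h2 : f j (x₂, a * x₂ + b) = 0
    · simp [h2]
    have s1 := h.supp i _ h1
    have s2 := h.supp j _ h2
    simp only at s1 s2
    have a1 := abs_le.mp s1.1
    have a2 := abs_le.mp s2.1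
    have m1 : x₁ ∈ I := ⟨by linarith [a1.1], by linarith [a1.2]⟩
    have m2 : x₂ ∈ J := ⟨by linarith [a2.1], by linarith [a2.2]⟩
    have m3 : a ∈ Win p r i j := by
      unfold Win
      rw [Set.mem_ofPred_eq]
      have e : (p i).2 - (p j).2 - a * ((p i).1 - (p j).1) =
          (a * (x₁ - (p i).1) - (a * x₁ + b - (p i).2)) -
          (a * (x₂ - (p j).1) - (a * x₂ + b - (p j).2)) := by ring
      rw [e]
      have b1 : |a * (x₁ - (p i).1)| ≤ r i := by
        rw [abs_mul]
        calc |a| * |x₁ - (p i).1| ≤ 1 * r i := mul_le_mul habs s1.1 (abs_nonneg _) (by norm_num)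
          _ = r i := one_mul _
      have b2 : |a * (x₂ - (p j).1)| ≤ r j := by
        rw [abs_mul]
        calc |a| * |x₂ - (p j).1| ≤ 1 * r j := mul_le_mul habs s2.1 (abs_nonneg _) (by norm_num)
          _ = r j := one_mul _
      refine (abs_sub _ _).trans ?_
      have c1 := (abs_sub (a * (x₁ - (p i).1)) (a * x₁ + b - (p i).2)).trans
        (add_le_add b1 s1.2)
      have c2 := (abs_sub (a * (x₂ - (p j).1)) (a * x₂ + b - (p j).2)).trans
        (add_le_add b2 s2.2)
      linarith
    rw [Set.indicator_of_mem m1, Set.indicator_of_mem m2, Set.indicator_of_mem m3]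
    rw [one_mul, one_mul]
    apply mul_le_mul' (mul_le_mul' (h.bound i _) (h.bound j _))
    exact ENNReal.ofReal_le_ofReal (h.dx h1 h2)
  refine (lintegral_mono fun x₁ => lintegral_mono fun x₂ => key x₁ x₂).trans ?_
  have mI : Measurable (I.indicator (fun _ => (1:ℝ≥0∞))) :=
    measurable_const.indicator measurableSet_Icc
  have mJ : Measurable (J.indicator (fun _ => (1:ℝ≥0∞))) :=
    measurable_const.indicator measurableSet_Icc
  set c := (Win p r i j).indicator (fun _ => ENNReal.ofReal (κ / r i ^ 2) *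
          ENNReal.ofReal (κ / r j ^ 2) * ENNReal.ofReal d) a with hc
  have e1 : ∀ x₁ : ℝ, ∫⁻ x₂, (I.indicator (fun _ => (1:ℝ≥0∞)) x₁ *
        J.indicator (fun _ => (1:ℝ≥0∞)) x₂) * c =
        I.indicator (fun _ => (1:ℝ≥0∞)) x₁ * (ENNReal.ofReal (2 * r j) * c) := by
    intro x₁
    rw [lintegral_mul_const _ (mJ.const_mul _), lintegral_const_mul _ mJ,
      lintegral_indicator measurableSet_Icc, lintegral_const, Measure.restrict_apply_univ,
      Real.volume_Icc, one_mul, mul_assoc]
    congr 3
    ring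
  rw [lintegral_congr e1, lintegral_mul_const _ mI, lintegral_indicator measurableSet_Icc,
    lintegral_const, Measure.restrict_apply_univ, Real.volume_Icc, one_mul, hc]
  by_cases hw : a ∈ Win p r i j
  · rw [Set.indicator_of_mem hw, Set.indicator_of_mem hw]
    rw [← ENNReal.ofReal_mul (by positivity), ← ENNReal.ofReal_mul (by positivity),
      ← ENNReal.ofReal_mul (by positivity), ← ENNReal.ofReal_mul (by linarith)]
    apply ENNReal.ofReal_le_ofReal
    apply le_of_eq
    field_simp
    ring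
  · rw [Set.indicator_of_notMem hw, Set.indicator_of_notMem hw]
    simp

/-- (F4) -/
lemma Noise.win_le (i j : Fin n) :
    ∫⁻ a in Set.Icc (-1:ℝ) 1, (Win p r i j).indicator (fun _ => ENNReal.ofReal
      ((|(p i).1 - (p j).1| + (r i + r j)) * (2 * κ / r i) * (2 * κ / r j))) a ≤
      ENNReal.ofReal (32 * κ ^ 2 * (1 / r i + 1 / r j)) := by
  have hri := h.rpos i
  have hrj := h.rpos j
  have hκ := h.kpos
  set s := r i + r j with hs
  have hs0 : 0 < s := by positivity
  set ξ := (p i).1 - (p j).1 with hξ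
  set η := (p i).2 - (p j).2 with hη
  rw [lintegral_indicator (measurableSet_Win i j), lintegral_const, Measure.restrict_restrict
    (measurableSet_Win i j), Measure.restrict_apply_univ]
  by_cases hc : |ξ| ≤ s
  · have h1 : volume (Win p r i j ∩ Set.Icc (-1:ℝ) 1) ≤ ENNReal.ofReal 2 := by
      refine (measure_mono Set.inter_subset_right).trans ?_
      rw [Real.volume_Icc]
      norm_num
    refine (mul_le_mul_right h1 _).trans ?_
    rw [← ENNReal.ofReal_mul (by positivity)]
    apply ENNReal.ofReal_le_ofReal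
    have h2 : 0 ≤ 2 * κ / r i * (2 * κ / r j) := by positivity
    calc (|ξ| + s) * (2 * κ / r i) * (2 * κ / r j) * 2
        = (|ξ| + s) * 2 * (2 * κ / r i * (2 * κ / r j)) := by ring
      _ ≤ (s + s) * 2 * (2 * κ / r i * (2 * κ / r j)) := by
          apply mul_le_mul_of_nonneg_right _ h2
          linarith
      _ = 16 * κ ^ 2 * (1 / r i + 1 / r j) := by rw [hs]; field_simp; ring
      _ ≤ 32 * κ ^ 2 * (1 / r i + 1 / r j) := by
          have : 0 ≤ κ ^ 2 * (1 / r i + 1 / r j) := by positivity
          linarith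
  · push Not at hc
    have hξ0 : 0 < |ξ| := hs0.trans hc
    have hξne : ξ ≠ 0 := abs_pos.mp hξ0
    have h1 : volume (Win p r i j ∩ Set.Icc (-1:ℝ) 1) ≤ ENNReal.ofReal (4 * s / |ξ|) := by
      have hsub : Win p r i j ⊆ Set.Icc (η / ξ - 2 * s / |ξ|) (η / ξ + 2 * s / |ξ|) := by
        intro a ha
        unfold Win at ha
        rw [Set.mem_ofPred_eq] at ha
        have e : |η - a * ξ| = |η / ξ - a| * |ξ| := by
          rw [← abs_mul]
          congr 1
          field_simp
        rw [e] at ha
        have h3 : |η / ξ - a| ≤ 2 * s / |ξ| := by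
          rw [le_div_iff₀ hξ0]
          exact ha
        have h4 := abs_le.mp h3
        constructor <;> linarith [h4.1, h4.2]
      refine (measure_mono (Set.inter_subset_left.trans hsub)).trans ?_
      rw [Real.volume_Icc]
      apply ENNReal.ofReal_le_ofReal
      apply le_of_eq
      ring
    refine (mul_le_mul_right h1 _).trans ?_
    rw [← ENNReal.ofReal_mul (by positivity)]
    apply ENNReal.ofReal_le_ofReal
    have h2 : 0 ≤ 2 * κ / r i * (2 * κ / r j) := by positivity
    calc (|ξ| + s) * (2 * κ / r i) * (2 * κ / r j) * (4 * s / |ξ|)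
        = (|ξ| + s) * (4 * s / |ξ|) * (2 * κ / r i * (2 * κ / r j)) := by ring
      _ ≤ (|ξ| + |ξ|) * (4 * s / |ξ|) * (2 * κ / r i * (2 * κ / r j)) := by
          apply mul_le_mul_of_nonneg_right _ h2
          apply mul_le_mul_of_nonneg_right _ (by positivity)
          linarith
      _ = 32 * κ ^ 2 * (1 / r i + 1 / r j) := by rw [hs]; field_simp; ring

end

end Pool.Agent.K7.H26.SM
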