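import Pool.Agent.K7.H26.SM.GP

namespace Pool.Agent.K7.H26.SM

open MeasureTheory Finset Function
open scoped ENNReal

/-- uniform density on the square with centre `p` and side `2 r` -/
noncomputable def unif (p : ℝ × ℝ) (r : ℝ) : ℝ × ℝ → ℝ≥0∞ :=
  (Set.Icc (p.1 - r) (p.1 + r) ×ˢ Set.Icc (p.2 - r) (p.2 + r)).indicator
    fun _ => ENNReal.ofReal ((1 / 4) / r ^ 2)

lemma unif_supp {p z : ℝ × ℝ} {r : ℝ} (h : unif p r z ≠ 0) :
    |z.1 - p.1| ≤ r ∧ |z.2 - p.2| ≤ r := by
  unfold unif at h
  have h1 := Set.mem_of_indicator_ne_zero h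
  obtain ⟨⟨a1, a2⟩, b1, b2⟩ := h1
  constructor
  · rw [abs_le]; constructor <;> linarith
  · rw [abs_le]; constructor <;> linarith

lemma noise_unif {n : ℕ} (p : Fin n → ℝ × ℝ) (r : Fin n → ℝ) {D : ℝ} (hr : ∀ i, 0 < r i)
    (hD : ∀ i j, |(p i).1 - (p j).1| + r i + r j ≤ D ∧ |(p i).2 - (p j).2| + r i + r j ≤ D) :
    Noise (fun i => unif (p i) (r i)) p r (1 / 4) D where
  kpos := by norm_num
  meas i := measurable_const.indicator (measurableSet_Icc.prod measurableSet_Icc)
  one i := by
    have h0 := hr i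
    unfold unif
    rw [lintegral_indicator (measurableSet_Icc.prod measurableSet_Icc), lintegral_const,
      Measure.restrict_apply_univ, Measure.volume_eq_prod, Measure.prod_prod, Real.volume_Icc,
      Real.volume_Icc, ← ENNReal.ofReal_mul (by linarith), ← ENNReal.ofReal_mul (by positivity)]
    rw [show (1 / 4 : ℝ) / r i ^ 2 * (((p i).1 + r i - ((p i).1 - r i)) *
      ((p i).2 + r i - ((p i).2 - r i))) = 1 by field_simp; ring]
    exact ENNReal.ofReal_one
  rpos := hr
  bound i z := by
    unfold unif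
    exact Set.indicator_le_self _ _ z
  supp i z hz := unif_supp hz
  diam := hD

lemma orient_swap (p q s : ℝ × ℝ) : orient q p s = - orient p q s := by
  unfold orient; ring

open scoped Classical in
/-- every bisector gives a pair with both orientations -/
lemma bis_pair {n : ℕ} {x : Fin n → ℝ × ℝ} (hx : Injective x) {L : Set (ℝ × ℝ)}
    (hL : IsBisector (univ.image x) L) : ∃ i j : Fin n, i < j ∧ x i ∈ L ∧ x j ∈ L ∧
      L = {z | orient (x i) (x j) z = 0} ∧ left x (x i) (x j) = n / 2 - 1 ∧
      left x (x j) (x i) = n / 2 - 1 := by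
  obtain ⟨a, b, c, hab, rfl, ⟨p, hp, q, hq, hpq, hpL, hqL⟩, h1, h2⟩ := hL
  have hcard : (univ.image x).card = n := by
    rw [card_image_of_injective _ hx, card_univ, Fintype.card_fin]
  set k := n / 2 - 1 with hk
  rw [mem_image] at hp hq
  obtain ⟨i, -, rfl⟩ := hp
  obtain ⟨j, -, rfl⟩ := hq
  have hij : i ≠ j := fun h => hpq (by rw [h])
  -- main computation for an ordered pair
  have main : ∀ i j : Fin n, x i ≠ x j → x i ∈ Line a b c → x j ∈ Line a b c →
      Line a b c = {z | orient (x i) (x j) z = 0} ∧ left x (x i) (x j) = k := by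
    intro i j hne hi hj
    simp only [Line, Set.mem_ofPred_eq] at hi hj
    set d1 := (x j).1 - (x i).1 with hd1
    set d2 := (x j).2 - (x i).2 with hd2
    have hd : a * d1 + b * d2 = 0 := by rw [hd1, hd2]; linarith
    have hN : 0 < a ^ 2 + b ^ 2 := by
      rcases hab with h | h
      · have := sq_pos_of_ne_zero h; nlinarith [sq_nonneg b]
      · have := sq_pos_of_ne_zero h; nlinarith [sq_nonneg a]
    -- (d1, d2) = t (-b, a)
    set t := (a * d2 - b * d1) / (a ^ 2 + b ^ 2) with ht
    have ht' : t * (a ^ 2 + b ^ 2) = a * d2 - b * d1 := by rw [ht]; field_simp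
    have e1 : d1 = -(t * b) := by
      have : (a ^ 2 + b ^ 2) * (d1 + t * b) = 0 := by
        have : (a ^ 2 + b ^ 2) * (d1 + t * b) = (a ^ 2 + b ^ 2) * d1 +
          (t * (a ^ 2 + b ^ 2)) * b := by ring
        rw [this, ht']
        linear_combination a * hd
      have := (mul_eq_zero.mp this).resolve_left hN.ne'
      linarith
    have e2 : d2 = t * a := by
      have : (a ^ 2 + b ^ 2) * (d2 - t * a) = 0 := by
        have : (a ^ 2 + b ^ 2) * (d2 - t * a) = (a ^ 2 + b ^ 2) * d2 -
          (t * (a ^ 2 + b ^ 2)) * a := by ring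
        rw [this, ht']
        linear_combination b * hd
      have := (mul_eq_zero.mp this).resolve_left hN.ne'
      linarith
    have ht0 : t ≠ 0 := by
      intro h0
      apply hne
      rw [h0] at e1 e2
      exact Prod.ext (by simp only [hd1] at e1; linarith) (by simp only [hd2] at e2; linarith)
    have ho : ∀ z : ℝ × ℝ, orient (x i) (x j) z = t * (c - (a * z.1 + b * z.2)) := by
      intro z
      unfold orient
      rw [← hd1, ← hd2, e1, e2, ← hi]
      ring
    refine ⟨?_, ?_⟩
    · ext z
      simp only [Line, Set.mem_ofPred_eq]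
      rw [ho z]
      constructor
      · intro h; rw [h]; ring
      · intro h
        have := (mul_eq_zero.mp h).resolve_left ht0
        linarith
    · unfold left
      rw [hcard] at h1 h2
      rw [filter_image, card_image_of_injective _ hx] at h1 h2
      rcases lt_or_gt_of_ne ht0 with htn | htp
      · rw [hk, ← h2]
        congr 1
        apply filter_congr
        intro l _
        rw [ho]
        constructor
        · intro h
          by_contra hcon
          push Not at hcon
          nlinarith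
        · intro h
          exact mul_pos_of_neg_of_neg htn (by linarith)
      · rw [hk, ← h1]
        congr 1
        apply filter_congr
        intro l _
        rw [ho]
        constructor
        · intro h
          by_contra hcon
          push Not at hcon
          nlinarith
        · intro h
          exact mul_pos htp (by linarith)
  rcases lt_or_gt_of_ne hij with h | h
  · obtain ⟨m1, m2⟩ := main i j hpq hpL hqL
    obtain ⟨-, m3⟩ := main j i hpq.symm hqL hpL
    exact ⟨i, j, h, hpL, hqL, m1, m2, m3⟩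
  · obtain ⟨m1, m2⟩ := main j i hpq.symm hqL hpL
    obtain ⟨-, m3⟩ := main i j hpq hpL hqL
    exact ⟨j, i, h, hqL, hpL, m1, m2, m3⟩

open scoped Classical in
/-- bisectors and directed edges -/
lemma bisectors_le {n : ℕ} {x : Fin n → ℝ × ℝ} (hx : Injective x) :
    2 * {L | IsBisector (univ.image x) L}.ncard ≤ edges x (n / 2 - 1) := by
  rcases Nat.eq_zero_or_pos n with h0 | h0
  · subst h0
    have : {L | IsBisector (univ.image x) L} = ∅ := by
      ext L
      simp only [Set.mem_ofPred_eq, Set.mem_empty_iff_false, iff_false]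
      rintro ⟨a, b, c, -, -, ⟨p, hp, -⟩, -⟩
      simp at hp
    rw [this]
    simp
  have : Nonempty (Fin n) := ⟨⟨0, h0⟩⟩
  set k := n / 2 - 1 with hk
  have hcard : (univ.image x).card = n := by
    rw [card_image_of_injective _ hx, card_univ, Fintype.card_fin]
  -- the two index sets
  set Ep := (univ.filter fun ij : Fin n × Fin n => ij.1 < ij.2 ∧
    (x ij.1 ≠ x ij.2 ∧ left x (x ij.1) (x ij.2) = k)) with hEp
  set Em := (univ.filter fun ij : Fin n × Fin n => ij.2 < ij.1 ∧
    (x ij.1 ≠ x ij.2 ∧ left x (x ij.1) (x ij.2) = k)) with hEm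
  have hdisj : Disjoint Ep Em := by
    rw [disjoint_filter]
    rintro ij - ⟨h1, -⟩ ⟨h2, -⟩
    exact lt_asymm h1 h2
  have hsub : Ep ∪ Em ⊆ (univ.filter fun ij : Fin n × Fin n =>
      x ij.1 ≠ x ij.2 ∧ left x (x ij.1) (x ij.2) = k) := by
    intro ij hij
    simp only [hEp, hEm, mem_union, mem_filter, mem_univ, true_and] at hij ⊢
    rcases hij with h | h
    · exact h.2
    · exact h.2
  have hcardE : Ep.card + Em.card ≤ edges x k := by
    rw [← card_union_of_disjoint hdisj]
    exact card_le_card hsub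
  have key : ∀ L, IsBisector (univ.image x) L → ∃ i j : Fin n, i < j ∧ x i ∈ L ∧ x j ∈ L ∧
      L = {z | orient (x i) (x j) z = 0} ∧ left x (x i) (x j) = k ∧ left x (x j) (x i) = k :=
    fun L hL => bis_pair hx hL
  choose! I J hIJ using key
  have hinj : Set.InjOn (fun L => (I L, J L)) {L | IsBisector (univ.image x) L} := by
    intro L hL L' hL' h
    simp only [Prod.mk.injEq] at h
    rw [(hIJ L hL).2.2.2.1, (hIJ L' hL').2.2.2.1, h.1, h.2]
  have hinj' : Set.InjOn (fun L => (J L, I L)) {L | IsBisector (univ.image x) L} := by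
    intro L hL L' hL' h
    simp only [Prod.mk.injEq] at h
    rw [(hIJ L hL).2.2.2.1, (hIJ L' hL').2.2.2.1, h.1, h.2]
  have c1 : {L | IsBisector (univ.image x) L}.ncard ≤ Ep.card := by
    rw [← Set.ncard_coe_finset]
    apply Set.ncard_le_ncard_of_injOn _ _ hinj (finite_toSet _)
    intro L hL
    obtain ⟨a1, a2, a3, a4, a5, a6⟩ := hIJ L hL
    simp only [hEp, coe_filter, mem_univ, true_and, Set.mem_ofPred_eq]
    exact ⟨a1, fun h => a1.ne (hx h), a5⟩
  have c2 : {L | IsBisector (univ.image x) L}.ncard ≤ Em.card := by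
    rw [← Set.ncard_coe_finset]
    apply Set.ncard_le_ncard_of_injOn _ _ hinj' (finite_toSet _)
    intro L hL
    obtain ⟨a1, a2, a3, a4, a5, a6⟩ := hIJ L hL
    simp only [hEm, coe_filter, mem_univ, true_and, Set.mem_ofPred_eq]
    exact ⟨a1, fun h => a1.ne' (hx h), a6⟩
  omega

lemma gp_of {n : ℕ} {x : Fin n → ℝ × ℝ}
    (h : ∀ i j l : Fin n, l ≠ i → l ≠ j → x i ≠ x j → orient (x i) (x j) (x l) ≠ 0) :
    GeneralPosition (univ.image x) := by
  classical
  intro a b c hab p hp q hq s hs hpq hps hqs ⟨h1, h2, h3⟩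
  rw [mem_image] at hp hq hs
  obtain ⟨i, -, rfl⟩ := hp
  obtain ⟨j, -, rfl⟩ := hq
  obtain ⟨l, -, rfl⟩ := hs
  apply h i j l (fun h => hps (by rw [h])) (fun h => hqs (by rw [h])) hpq
  simp only [Line, Set.mem_ofPred_eq] at h1 h2 h3
  unfold orient
  rcases hab with h0 | h0
  · have : a * (((x j).1 - (x i).1) * ((x l).2 - (x i).2) -
      ((x j).2 - (x i).2) * ((x l).1 - (x i).1)) = 0 := by
      linear_combination ((x l).2 - (x i).2) * (h2 - h1) - ((x j).2 - (x i).2) * (h3 - h1)
    exact (mul_eq_zero.mp this).resolve_left h0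
  · have : b * (((x j).1 - (x i).1) * ((x l).2 - (x i).2) -
      ((x j).2 - (x i).2) * ((x l).1 - (x i).1)) = 0 := by
      linear_combination ((x j).1 - (x i).1) * (h3 - h1) - ((x l).1 - (x i).1) * (h2 - h1)
    exact (mul_eq_zero.mp this).resolve_left h0

end Pool.Agent.K7.H26.SM
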