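import Pool.Agent.K7.H26.SM.KCut

namespace Pool.Agent.K7.H26.SM

open MeasureTheory Finset Function
open scoped ENNReal

section

variable {n : ℕ}

lemma measurable_edgesA {A : Set (ℝ × ℝ)} (hA : MeasurableSet A) (k : ℕ) :
    Measurable (fun x : Fin n → ℝ × ℝ => edgesA A x k) := by
  classical
  have e : (fun x : Fin n → ℝ × ℝ => edgesA A x k) = fun x => ∑ ij : Fin n × Fin n,
      if Fwd (x ij.1) (x ij.2) ∧ left x (x ij.1) (x ij.2) = k ∧ x ij.1 ∈ A ∧ x ij.2 ∈ A
        then 1 else 0 := by
    funext x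
    unfold edgesA
    rw [card_filter]
  rw [e]
  apply Finset.measurable_sum
  intro ij _
  exact Measurable.ite (measurableSet_EA hA ij.1 ij.2 k) measurable_const measurable_const

open scoped Classical in
/-- the number of pairs with `n / 2 - 1` points on both sides -/
noncomputable def halv (x : Fin n → ℝ × ℝ) : ℕ :=
  (univ.filter fun ij : Fin n × Fin n => ij.1 < ij.2 ∧
    left x (x ij.1) (x ij.2) = n / 2 - 1 ∧ left x (x ij.2) (x ij.1) = n / 2 - 1).card

lemma measurable_halv : Measurable (fun x : Fin n → ℝ × ℝ => halv x) := by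
  classical
  have e : (fun x : Fin n → ℝ × ℝ => halv x) = fun x => ∑ ij : Fin n × Fin n,
      if ij.1 < ij.2 ∧ left x (x ij.1) (x ij.2) = n / 2 - 1 ∧
        left x (x ij.2) (x ij.1) = n / 2 - 1 then 1 else 0 := by
    funext x
    unfold halv
    rw [card_filter]
  rw [e]
  apply Finset.measurable_sum
  intro ij _
  refine Measurable.ite ?_ measurable_const measurable_const
  apply MeasurableSet.inter (MeasurableSet.const _)
  apply MeasurableSet.inter
  · exact (measurable_left (n := n)).comp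
      (g := _) (f := fun x : Fin n → ℝ × ℝ => (x ij.1, x ij.2, x)) (by fun_prop)
      (measurableSet_singleton (n / 2 - 1))
  · exact (measurable_left (n := n)).comp
      (g := _) (f := fun x : Fin n → ℝ × ℝ => (x ij.2, x ij.1, x)) (by fun_prop)
      (measurableSet_singleton (n / 2 - 1))

open scoped Classical in
/-- in general position the bisectors correspond to the pairs -/
lemma ncard_eq_halv {x : Fin n → ℝ × ℝ} (hx : Injective x)
    (hgp : ∀ i j l : Fin n, l ≠ i → l ≠ j → x i ≠ x j → orient (x i) (x j) (x l) ≠ 0) :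
    {L | IsBisector (univ.image x) L}.ncard = halv x := by
  have hcard : (univ.image x).card = n := by
    rw [card_image_of_injective _ hx, card_univ, Fintype.card_fin]
  set g : Fin n × Fin n → Set (ℝ × ℝ) := fun ij => {z | orient (x ij.1) (x ij.2) z = 0} with hg
  set H : Finset (Fin n × Fin n) := univ.filter fun ij : Fin n × Fin n => ij.1 < ij.2 ∧
    left x (x ij.1) (x ij.2) = n / 2 - 1 ∧ left x (x ij.2) (x ij.1) = n / 2 - 1 with hH
  have himg : {L | IsBisector (univ.image x) L} = g '' (H : Set (Fin n × Fin n)) := by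
    ext L
    constructor
    · intro hL
      obtain ⟨i, j, hij, -, -, hLe, l1, l2⟩ := bis_pair hx hL
      refine ⟨(i, j), ?_, hLe.symm⟩
      rw [mem_coe, hH, mem_filter]
      exact ⟨mem_univ _, hij, l1, l2⟩
    · rintro ⟨⟨i, j⟩, hm, rfl⟩
      rw [mem_coe, hH, mem_filter] at hm
      obtain ⟨-, hij, l1, l2⟩ := hm
      simp only at hij l1 l2
      have hne : x i ≠ x j := fun h => hij.ne (hx h)
      -- the line
      have ho : ∀ z : ℝ × ℝ, orient (x i) (x j) z =
          (-((x j).2 - (x i).2) * z.1 + ((x j).1 - (x i).1) * z.2) -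
          (-((x j).2 - (x i).2) * (x i).1 + ((x j).1 - (x i).1) * (x i).2) := by
        intro z; unfold orient; ring
      refine ⟨-((x j).2 - (x i).2), (x j).1 - (x i).1,
        -((x j).2 - (x i).2) * (x i).1 + ((x j).1 - (x i).1) * (x i).2, ?_, ?_, ?_, ?_, ?_⟩
      · by_contra hcon
        push Not at hcon
        exact hne (Prod.ext (by linarith [hcon.2]) (by linarith [hcon.1]))
      · ext z
        simp only [hg, Line, Set.mem_ofPred_eq]
        rw [ho z, sub_eq_zero]
      · refine ⟨x i, mem_image_of_mem x (mem_univ i), x j, mem_image_of_mem x (mem_univ j), hne,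
          ?_, ?_⟩
        · simp only [hg, Set.mem_ofPred_eq]
          unfold orient; ring
        · simp only [hg, Set.mem_ofPred_eq]
          unfold orient; ring
      · rw [hcard, filter_image, card_image_of_injective _ hx, ← l2]
        unfold left
        congr 1
        apply filter_congr
        intro l _
        rw [orient_swap (x i) (x j) (x l), ho]
        constructor <;> intro h <;> linarith
      · rw [hcard, filter_image, card_image_of_injective _ hx, ← l1]
        unfold left
        congr 1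
        apply filter_congr
        intro l _
        rw [ho]
        constructor <;> intro h <;> linarith
  have hinj : Set.InjOn g (H : Set (Fin n × Fin n)) := by
    rintro ⟨i, j⟩ h1 ⟨i', j'⟩ h2 he
    rw [mem_coe, hH, mem_filter] at h1 h2
    have hij := h1.2.1
    have hij' := h2.2.1
    simp only at hij hij'
    have hne : x i ≠ x j := fun h => hij.ne (hx h)
    have a1 : x i' ∈ g (i, j) := by
      rw [he]; simp only [hg, Set.mem_ofPred_eq]; unfold orient; ring
    have a2 : x j' ∈ g (i, j) := by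
      rw [he]; simp only [hg, Set.mem_ofPred_eq]; unfold orient; ring
    simp only [hg, Set.mem_ofPred_eq] at a1 a2
    have b1 : i' = i ∨ i' = j := by
      by_contra hcon
      push Not at hcon
      exact hgp i j i' hcon.1 hcon.2 hne a1
    have b2 : j' = i ∨ j' = j := by
      by_contra hcon
      push Not at hcon
      exact hgp i j j' hcon.1 hcon.2 hne a2
    rcases b1 with rfl | rfl <;> rcases b2 with rfl | rfl
    · exact absurd hij' (lt_irrefl _)
    · rfl
    · exact absurd hij' (not_lt.mpr hij.le)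
    · exact absurd hij' (lt_irrefl _)
  rw [himg, hinj.ncard_image, Set.ncard_coe_finset]
  rfl

variable {f : Fin n → ℝ × ℝ → ℝ≥0∞} {p : Fin n → ℝ × ℝ} {r : Fin n → ℝ} {κ D : ℝ}
  (h : Noise f p r κ D)

include h

lemma Noise.four_kappa (hn : 0 < n) : 1 ≤ 4 * κ := by
  have i : Fin n := ⟨0, hn⟩
  have hκ := h.kpos
  have hri := h.rpos i
  have h1 := h.one i
  have h2 : ∫⁻ z, f i z ≤ ENNReal.ofReal (4 * κ) := by
    calc ∫⁻ z, f i z ≤ ∫⁻ z, (Set.Icc ((p i).1 - r i) ((p i).1 + r i) ×ˢ
          Set.Icc ((p i).2 - r i) ((p i).2 + r i)).indicator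
          (fun _ => ENNReal.ofReal (κ / r i ^ 2)) z := by
          apply lintegral_mono; intro z
          dsimp only
          by_cases hz : f i z = 0
          · rw [hz]; exact zero_le
          · obtain ⟨s1, s2⟩ := h.supp i z hz
            have s1 := abs_le.mp s1
            have s2 := abs_le.mp s2
            rw [Set.indicator_of_mem]
            · exact h.bound i z
            · exact ⟨⟨by linarith [s1.1], by linarith [s1.2]⟩,
                ⟨by linarith [s2.1], by linarith [s2.2]⟩⟩
      _ = ENNReal.ofReal (4 * κ) := by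
          rw [lintegral_indicator (measurableSet_Icc.prod measurableSet_Icc), lintegral_const,
            Measure.restrict_apply_univ, Measure.volume_eq_prod, Measure.prod_prod,
            Real.volume_Icc, Real.volume_Icc, ← ENNReal.ofReal_mul (by linarith),
            ← ENNReal.ofReal_mul (by positivity)]
          congr 1
          field_simp
          ring
  rw [h1] at h2
  have h3 : ENNReal.ofReal 1 ≤ ENNReal.ofReal (4 * κ) := by
    rw [ENNReal.ofReal_one]; exact h2
  exact (ENNReal.ofReal_le_ofReal_iff (by positivity)).mp h3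

lemma Noise.ae_good : ∀ᵐ x ∂law f, Injective x ∧
    ∀ i j l : Fin n, l ≠ i → l ≠ j → x i ≠ x j → orient (x i) (x j) (x l) ≠ 0 := by
  have := h.prob
  have h1 := ae_injective (fun i => volume.withDensity (f i))
    (fun i => withDensity_absolutelyContinuous _ _)
  have h2 := ae_gp (fun i => volume.withDensity (f i))
    (fun i => withDensity_absolutelyContinuous _ _)
  filter_upwards [h1, h2] with x a b
  exact ⟨a, b⟩

open scoped Classical in
lemma Noise.aemeas : AEMeasurable
    (fun x : Fin n → ℝ × ℝ => ({L | IsBisector (univ.image x) L}.ncard : ℝ≥0∞)) (law f) := by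
  refine ⟨fun x => (halv x : ℝ≥0∞), measurable_from_top.comp measurable_halv, ?_⟩
  filter_upwards [h.ae_good] with x hx
  rw [ncard_eq_halv hx.1 hx.2]

lemma Noise.edges0_K {K : ℕ} (hn0 : 0 < n) (hK : 0 < K) (k : ℕ) :
    ∫⁻ x, (edges0 x k : ℝ≥0∞) ∂law f ≤
      ENNReal.ofReal (2 * K * (k + 1) + 8 * κ * √(32 * (n * ∑ i, D / r i)) / K) := by
  have hκ := h.kpos
  have hr := h.rpos
  have hKR : (0:ℝ) < K := by exact_mod_cast hK
  have hD : 0 < D := by
    have h1 := (h.diam ⟨0, hn0⟩ ⟨0, hn0⟩).1
    have h2 := hr ⟨0, hn0⟩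
    have h3 := abs_nonneg ((p ⟨0, hn0⟩).1 - (p ⟨0, hn0⟩).1)
    linarith
  have := h.prob
  have hprob : IsProbabilityMeasure (law f) := by unfold law; infer_instance
  obtain ⟨C⟩ := exists_cuts h hn0 hK
  have b1 := h.slab_bound C hn0 hD hK k
  have m1 : ∀ s, Measurable (fun x : Fin n → ℝ × ℝ =>
      (edgesA (sset p r C.A D K s) x k : ℝ≥0∞)) := fun s =>
    measurable_from_top.comp (measurable_edgesA (measurableSet_sset C.A s) _)
  have hpt : ∀ᵐ x ∂law f, (edges0 x k : ℝ≥0∞) ≤ ((2 * K * (k + 1) : ℕ) : ℝ≥0∞) +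
      ∑ s ∈ range (2 * K), (edgesA (sset p r C.A D K s) x k : ℝ≥0∞) := by
    filter_upwards [h.ae_good] with x hx
    exact_mod_cast edges0_slabs C hr hD hK hx.2 k
  refine (lintegral_mono_ae hpt).trans ?_
  rw [lintegral_add_left measurable_const, lintegral_const, measure_univ, mul_one,
    lintegral_finsetSum _ (fun s _ => m1 s)]
  refine (add_le_add le_rfl b1).trans ?_
  have hB : 0 ≤ 8 * κ * √(32 * (n * ∑ i, D / r i)) / K := by positivity
  rw [← ENNReal.ofReal_natCast, ← ENNReal.ofReal_add (by positivity) hB]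
  apply ENNReal.ofReal_le_ofReal
  push_cast
  exact le_rfl

/-- all directed `k`-edges -/
lemma Noise.edges_K {K : ℕ} (hn0 : 0 < n) (hK : 0 < K) (k : ℕ) :
    ∫⁻ x, (edges x k : ℝ≥0∞) ∂law f ≤
      ENNReal.ofReal (8 * K * (k + 1) + 32 * κ * √(32 * (n * ∑ i, D / r i)) / K) := by
  have hm : Measurable (fun x : Fin n → ℝ × ℝ => (edges0 x k : ℝ≥0∞)) :=
    measurable_from_top.comp (measurable_edges0 k)
  have hR : Measurable (fun x : Fin n → ℝ × ℝ => fun i => R (x i)) :=
    measurable_pi_iff.mpr fun i => measurable_R.comp (measurable_pi_apply i)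
  have hm1 : Measurable (fun x : Fin n → ℝ × ℝ => (edges0 (fun i => R (x i)) k : ℝ≥0∞)) :=
    hm.comp hR
  have hm2 : Measurable (fun x : Fin n → ℝ × ℝ => (edges0 (fun i => R (R (x i))) k : ℝ≥0∞)) :=
    hm1.comp hR
  have hm3 : Measurable (fun x : Fin n → ℝ × ℝ =>
      (edges0 (fun i => R (R (R (x i)))) k : ℝ≥0∞)) := hm2.comp hR
  have b0 := h.edges0_K hn0 hK k
  have b1 := h.rot.edges0_K hn0 hK k
  have b2 := h.rot.rot.edges0_K hn0 hK k
  have b3 := h.rot.rot.rot.edges0_K hn0 hK k
  rw [← law_rot h hm] at b1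
  rw [← law_rot h.rot hm, ← law_rot h hm1] at b2
  rw [← law_rot h.rot.rot hm, ← law_rot h.rot hm1, ← law_rot h hm2] at b3
  have hsum : ∀ x : Fin n → ℝ × ℝ, (edges x k : ℝ≥0∞) ≤ (edges0 x k : ℝ≥0∞) +
      (edges0 (fun i => R (x i)) k : ℝ≥0∞) + (edges0 (fun i => R (R (x i))) k : ℝ≥0∞) +
      (edges0 (fun i => R (R (R (x i)))) k : ℝ≥0∞) := by
    intro x
    exact_mod_cast edges_le x k
  have hκ := h.kpos
  have hnn : 0 ≤ 2 * (K:ℝ) * (k + 1) + 8 * κ * √(32 * (n * ∑ i, D / r i)) / K := by positivity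
  calc ∫⁻ x, (edges x k : ℝ≥0∞) ∂law f
      ≤ ∫⁻ x, ((edges0 x k : ℝ≥0∞) + (edges0 (fun i => R (x i)) k : ℝ≥0∞) +
          (edges0 (fun i => R (R (x i))) k : ℝ≥0∞) +
          (edges0 (fun i => R (R (R (x i)))) k : ℝ≥0∞)) ∂law f := lintegral_mono hsum
    _ = (∫⁻ x, (edges0 x k : ℝ≥0∞) ∂law f) + (∫⁻ x, (edges0 (fun i => R (x i)) k : ℝ≥0∞) ∂law f) +
          (∫⁻ x, (edges0 (fun i => R (R (x i))) k : ℝ≥0∞) ∂law f) +
          ∫⁻ x, (edges0 (fun i => R (R (R (x i)))) k : ℝ≥0∞) ∂law f := by
        have s1 : Measurable (fun x : Fin n → ℝ × ℝ => (edges0 x k : ℝ≥0∞) +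
          (edges0 (fun i => R (x i)) k : ℝ≥0∞)) := hm.add hm1
        have s2 : Measurable (fun x : Fin n → ℝ × ℝ => (edges0 x k : ℝ≥0∞) +
          (edges0 (fun i => R (x i)) k : ℝ≥0∞) + (edges0 (fun i => R (R (x i))) k : ℝ≥0∞)) :=
          s1.add hm2
        rw [lintegral_add_left s2, lintegral_add_left s1, lintegral_add_left hm]
    _ ≤ ENNReal.ofReal (2 * K * (k + 1) + 8 * κ * √(32 * (n * ∑ i, D / r i)) / K) +
          ENNReal.ofReal (2 * K * (k + 1) + 8 * κ * √(32 * (n * ∑ i, D / r i)) / K) +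
          ENNReal.ofReal (2 * K * (k + 1) + 8 * κ * √(32 * (n * ∑ i, D / r i)) / K) +
          ENNReal.ofReal (2 * K * (k + 1) + 8 * κ * √(32 * (n * ∑ i, D / r i)) / K) :=
        add_le_add (add_le_add (add_le_add b0 b1) b2) b3
    _ = ENNReal.ofReal (8 * K * (k + 1) + 32 * κ * √(32 * (n * ∑ i, D / r i)) / K) := by
        rw [← ENNReal.ofReal_add hnn hnn, ← ENNReal.ofReal_add (by positivity) hnn,
          ← ENNReal.ofReal_add (by positivity) hnn]
        congr 1
        ring

end

end Pool.Agent.K7.H26.SM
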