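import Pool.Agent.K7.H26.SM.Expect

namespace Pool.Agent.K7.H26.SM

open MeasureTheory Finset Function
open scoped ENNReal

/-- the choice of the number of cuts -/
lemma numeric {n m κ X : ℝ} (hn : 0 < n) (hm : 0 < m) (hmn : m ≤ n / 2) (hκ : 1 ≤ 4 * κ)
    (hX : 0 < X) (hX2 : 2 ≤ X ^ 4) :
    ∃ K : ℕ, 0 < K ∧ 8 * K * m + 32 * κ * √(32 * (n * (n * X ^ 4))) / K ≤
      86 * √κ * √(n * m) * X := by
  have hκ0 : 0 < κ := by linarith
  set s := √κ * X with hs
  have hsq : √κ ^ 2 = κ := Real.sq_sqrt hκ0.le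
  have hκs : 0 < √κ := Real.sqrt_pos.mpr hκ0
  have hs0 : 0 < s := by positivity
  have h32 : √32 ≤ 5.657 := by
    rw [show (5.657:ℝ) = √(5.657 ^ 2) by rw [Real.sqrt_sq (by norm_num)]]
    exact Real.sqrt_le_sqrt (by norm_num)
  have h320 : 0 < √(32:ℝ) := by positivity
  have hQ : √(32 * (n * (n * X ^ 4))) = √32 * (n * X ^ 2) := by
    rw [show 32 * (n * (n * X ^ 4)) = 32 * (n * X ^ 2) ^ 2 by ring,
      Real.sqrt_mul (by norm_num), Real.sqrt_sq (by positivity)]
  set y := √(n * m) with hy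
  have hy0 : 0 < y := Real.sqrt_pos.mpr (by positivity)
  have hy2 : y ^ 2 = n * m := Real.sq_sqrt (by positivity)
  set u := √(4 * √32) * s * (y / m) with hu
  have hu0 : 0 < u := by positivity
  have h4 : √(4 * √32) ^ 2 = 4 * √32 := Real.sq_sqrt (by positivity)
  have hu2 : 8 * m * u ^ 2 = 32 * κ * (√32 * (n * X ^ 2)) := by
    rw [hu, mul_pow, mul_pow, h4, hs, mul_pow, hsq, div_pow, hy2]
    field_simp
    ring
  have h5 : √(4 * √32) ≤ 4.757 := by
    rw [show (4.757:ℝ) = √(4.757 ^ 2) by rw [Real.sqrt_sq (by norm_num)]]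
    apply Real.sqrt_le_sqrt
    norm_num
    linarith
  have hmu : m * u ≤ 4.757 * (s * y) := by
    have e : m * u = √(4 * √32) * (s * y) := by rw [hu]; field_simp
    rw [e]
    exact mul_le_mul_of_nonneg_right h5 (by positivity)
  have h1s : 1 ≤ 1.69 * s := by
    by_contra hcon
    push Not at hcon
    have h1 : (1.69 * s) ^ 4 < 1 := by
      apply pow_lt_one₀ (by positivity) hcon (by norm_num)
    have h2 : s ^ 4 = κ ^ 2 * X ^ 4 := by
      rw [hs, mul_pow]
      congr 1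
      calc √κ ^ 4 = (√κ ^ 2) ^ 2 := by ring
        _ = κ ^ 2 := by rw [hsq]
    have h3 : 1 / 16 ≤ κ ^ 2 := by nlinarith
    have h4 : 1 / 8 ≤ s ^ 4 := by
      rw [h2]; nlinarith
    rw [mul_pow] at h1
    norm_num at h1
    nlinarith
  have h8m : 8 * m ≤ 5.657 * y := by
    have h7 : (8 * m) ^ 2 ≤ (5.657 * y) ^ 2 := by
      rw [mul_pow, mul_pow, hy2]
      norm_num
      nlinarith
    exact (sq_le_sq₀ (by positivity) (by positivity)).mp h7
  obtain ⟨K, hK1, hK2⟩ : ∃ K : ℕ, u ≤ K ∧ (K:ℝ) ≤ u + 1 :=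
    ⟨⌈u⌉₊, Nat.le_ceil u, (Nat.ceil_lt_add_one hu0.le).le⟩
  have hKR : (0:ℝ) < K := lt_of_lt_of_le hu0 hK1
  refine ⟨K, by exact_mod_cast hKR, ?_⟩
  rw [hQ, ← hu2]
  have h6 : 8 * m * u ^ 2 / K ≤ 8 * (m * u) := by
    rw [div_le_iff₀ hKR]
    have : 8 * (m * u) * u ≤ 8 * (m * u) * K := mul_le_mul_of_nonneg_left hK1 (by positivity)
    nlinarith
  have h7 : 8 * K * m ≤ 8 * (m * u) + 8 * m := by
    have : 8 * K * m ≤ 8 * (u + 1) * m :=
      mul_le_mul_of_nonneg_right (by linarith) hm.le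
    nlinarith
  have h9 : 8 * m ≤ 5.657 * 1.69 * (s * y) := by
    have : 5.657 * y * 1 ≤ 5.657 * y * (1.69 * s) := mul_le_mul_of_nonneg_left h1s (by positivity)
    nlinarith
  have e2 : 86 * √κ * y * X = 86 * (s * y) := by rw [hs]; ring
  have hsy : 0 < s * y := by positivity
  rw [e2]
  norm_num at h9 hmu ⊢
  linarith

section

variable {n : ℕ}

/-- the points on the two sides of a line -/
lemma left_add {x : Fin n → ℝ × ℝ}
    (hgp : ∀ i j l : Fin n, l ≠ i → l ≠ j → x i ≠ x j → orient (x i) (x j) (x l) ≠ 0)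
    {i j : Fin n} (hij : x i ≠ x j) :
    left x (x i) (x j) + left x (x j) (x i) + 2 = n := by
  classical
  have hne : i ≠ j := fun h => hij (by rw [h])
  have e1 : left x (x j) (x i) = (univ.filter fun l => orient (x i) (x j) (x l) < 0).card := by
    unfold left
    congr 1
    apply filter_congr
    intro l _
    rw [orient_swap (x i) (x j)]
    constructor <;> intro h <;> linarith
  have e2 : (univ.filter fun l => orient (x i) (x j) (x l) = 0) = {i, j} := by
    ext l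
    rw [mem_filter, mem_insert, mem_singleton]
    constructor
    · rintro ⟨-, h⟩
      by_contra hcon
      push Not at hcon
      exact hgp i j l hcon.1 hcon.2 hij h
    · rintro (rfl | rfl)
      · exact ⟨mem_univ _, by unfold orient; ring⟩
      · exact ⟨mem_univ _, by unfold orient; ring⟩
  have e3 : (univ.filter fun l => orient (x i) (x j) (x l) = 0).card = 2 := by
    rw [e2, card_pair hne]
  have hsum : ∑ l : Fin n, ((if 0 < orient (x i) (x j) (x l) then 1 else 0) +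
      (if orient (x i) (x j) (x l) < 0 then 1 else 0) +
      (if orient (x i) (x j) (x l) = 0 then 1 else 0)) = n := by
    have : ∀ l : Fin n, ((if 0 < orient (x i) (x j) (x l) then 1 else 0) +
      (if orient (x i) (x j) (x l) < 0 then 1 else 0) +
      (if orient (x i) (x j) (x l) = 0 then 1 else 0)) = 1 := by
      intro l
      rcases lt_trichotomy (orient (x i) (x j) (x l)) 0 with h | h | h
      · simp [h, h.ne, not_lt.mpr h.le]
      · simp [h]
      · simp [h, h.ne', not_lt.mpr h.le]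
    rw [sum_congr rfl fun l _ => this l]
    simp
  rw [sum_add_distrib, sum_add_distrib, ← card_filter, ← card_filter, ← card_filter, e3] at hsum
  rw [e1]
  unfold left
  convert hsum

lemma edges_symm {x : Fin n → ℝ × ℝ}
    (hgp : ∀ i j l : Fin n, l ≠ i → l ≠ j → x i ≠ x j → orient (x i) (x j) (x l) ≠ 0) (k : ℕ) :
    edges x k ≤ edges x (n - 2 - k) := by
  classical
  unfold edges
  apply card_le_card_of_injOn (fun ij => (ij.2, ij.1))
  · intro ij hij
    rw [mem_coe, mem_filter] at hij ⊢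
    obtain ⟨-, h1, h2⟩ := hij
    refine ⟨mem_univ _, h1.symm, ?_⟩
    have := left_add hgp h1
    simp only
    omega
  · rintro ⟨a, b⟩ - ⟨c, d⟩ - h
    simp only [Prod.mk.injEq] at h ⊢
    exact ⟨h.2, h.1⟩

lemma edges_zero {x : Fin n → ℝ × ℝ}
    (hgp : ∀ i j l : Fin n, l ≠ i → l ≠ j → x i ≠ x j → orient (x i) (x j) (x l) ≠ 0) {k : ℕ}
    (hk : n < k + 2) : edges x k = 0 := by
  classical
  unfold edges
  rw [card_eq_zero, filter_eq_empty_iff]
  rintro ij - ⟨h1, h2⟩
  have := left_add hgp h1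
  omega

variable {f : Fin n → ℝ × ℝ → ℝ≥0∞} {p : Fin n → ℝ × ℝ} {r : Fin n → ℝ} {κ D : ℝ}

/-- the expected number of directed `k`-edges -/
theorem Noise.edges_main (h : Noise f p r κ D) (k : ℕ) :
    ∫⁻ x, (edges x k : ℝ≥0∞) ∂law f ≤
      ENNReal.ofReal (86 * √κ * √(n * (min (k + 1) (n - 1 - k) : ℕ)) *
        ((∑ i, D / r i) / n) ^ (1 / 4 : ℝ)) := by
  by_cases hk : n < k + 2
  · have h0 : ∫⁻ x, (edges x k : ℝ≥0∞) ∂law f = 0 := by
      rw [lintegral_eq_zero_iff' ]
      · filter_upwards [h.ae_good] with x hx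
        rw [edges_zero hx.2 hk]
        simp
      · exact (measurable_from_top.comp (measurable_edges k)).aemeasurable
    rw [h0]
    exact zero_le
  push Not at hk
  have hn0 : 0 < n := by omega
  have hr := h.rpos
  have hκ := h.four_kappa hn0
  have hnR : (0:ℝ) < n := by exact_mod_cast hn0
  have hDr : ∀ i, 2 ≤ D / r i := by
    intro i
    rw [le_div_iff₀ (hr i)]
    have h1 := (h.diam i i).1
    have h3 := abs_nonneg ((p i).1 - (p i).1)
    linarith
  have hS : 2 ≤ (∑ i, D / r i) / n := by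
    rw [le_div_iff₀ hnR]
    calc 2 * (n:ℝ) = ∑ i : Fin n, (2:ℝ) := by
          rw [sum_const, card_univ, Fintype.card_fin, nsmul_eq_mul]; ring
      _ ≤ ∑ i, D / r i := sum_le_sum fun i _ => hDr i
  set Y := (∑ i, D / r i) / n with hY
  set X := Y ^ (1 / 4 : ℝ) with hX
  have hY0 : 0 < Y := by linarith
  have hX0 : 0 < X := Real.rpow_pos_of_pos hY0 _
  have hX4 : X ^ 4 = Y := by
    rw [hX, ← Real.rpow_natCast, ← Real.rpow_mul hY0.le]
    norm_num
  set m := min (k + 1) (n - 1 - k) with hm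
  have hm0 : 0 < m := by omega
  have hmR : (0:ℝ) < m := by exact_mod_cast hm0
  have hm2 : (m:ℝ) ≤ n / 2 := by
    have : 2 * m ≤ n := by omega
    have h2 : (2:ℝ) * m ≤ n := by exact_mod_cast this
    linarith
  obtain ⟨K, hK, hle⟩ := numeric hnR hmR hm2 hκ hX0 (by rw [hX4]; exact hS)
  have e : ∑ i, D / r i = n * X ^ 4 := by
    rw [hX4, hY]; field_simp
  rw [← e] at hle
  have hb : ∫⁻ x, (edges x k : ℝ≥0∞) ∂law f ≤
      ENNReal.ofReal (8 * K * m + 32 * κ * √(32 * (n * ∑ i, D / r i)) / K) := by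
    rcases le_total (k + 1) (n - 1 - k) with hc | hc
    · have : m = k + 1 := min_eq_left hc
      rw [this]
      push_cast
      exact h.edges_K hn0 hK k
    · have hmk : m = (n - 2 - k) + 1 := by omega
      rw [hmk]
      push_cast
      refine le_trans (lintegral_mono_ae ?_) (h.edges_K hn0 hK (n - 2 - k))
      filter_upwards [h.ae_good] with x hx
      exact_mod_cast edges_symm hx.2 k
  exact hb.trans (ENNReal.ofReal_le_ofReal hle)

open scoped Classical in
/-- the expected number of halving lines -/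
theorem Noise.halving (h : Noise f p r κ D) :
    ∫⁻ x, ({L | IsBisector (univ.image x) L}.ncard : ℝ≥0∞) ∂law f ≤
      ENNReal.ofReal (31 * √κ * n * ((∑ i, D / r i) / n) ^ (1 / 4 : ℝ)) := by
  have hr := h.rpos
  have hκ := h.kpos
  have h1 := h.edges_main (n / 2 - 1)
  set X := ((∑ i, D / r i) / n) ^ (1 / 4 : ℝ) with hX
  have hS0 : 0 ≤ (∑ i, D / r i) / n := by
    apply div_nonneg _ (Nat.cast_nonneg _)
    apply sum_nonneg
    intro i _
    have h2 := hr i
    have h3 := (h.diam i i).1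
    have h4 := abs_nonneg ((p i).1 - (p i).1)
    apply div_nonneg _ h2.le
    linarith
  have hX0 : 0 ≤ X := Real.rpow_nonneg hS0 _
  set m := min (n / 2 - 1 + 1) (n - 1 - (n / 2 - 1)) with hm
  have hm2 : (m:ℝ) ≤ n / 2 := by
    have : 2 * m ≤ n := by omega
    have h2 : (2:ℝ) * m ≤ n := by exact_mod_cast this
    linarith
  have hs : √((n:ℝ) * m) ≤ 62 / 86 * n := by
    apply Real.sqrt_le_iff.mpr
    refine ⟨by positivity, ?_⟩
    have h5 : (n:ℝ) * m ≤ n * (n / 2) := mul_le_mul_of_nonneg_left hm2 (Nat.cast_nonneg _)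
    nlinarith [sq_nonneg (n:ℝ)]
  have h2 : 2 * ∫⁻ x, ({L | IsBisector (univ.image x) L}.ncard : ℝ≥0∞) ∂law f ≤
      2 * ENNReal.ofReal (31 * √κ * n * X) := by
    calc 2 * ∫⁻ x, ({L | IsBisector (univ.image x) L}.ncard : ℝ≥0∞) ∂law f
        = ∫⁻ x, 2 * ({L | IsBisector (univ.image x) L}.ncard : ℝ≥0∞) ∂law f := by
          rw [lintegral_const_mul' _ _ (by norm_num)]
      _ ≤ ∫⁻ x, (edges x (n / 2 - 1) : ℝ≥0∞) ∂law f := by
          apply lintegral_mono_ae
          filter_upwards [h.ae_good] with x hx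
          exact_mod_cast bisectors_le hx.1
      _ ≤ ENNReal.ofReal (86 * √κ * √((n:ℝ) * m) * X) := h1
      _ ≤ ENNReal.ofReal (2 * (31 * √κ * n * X)) := by
          apply ENNReal.ofReal_le_ofReal
          have h6 : √κ * √((n:ℝ) * m) * X ≤ √κ * (62 / 86 * n) * X :=
            mul_le_mul_of_nonneg_right (mul_le_mul_of_nonneg_left hs (Real.sqrt_nonneg _)) hX0
          calc 86 * √κ * √((n:ℝ) * m) * X = 86 * (√κ * √((n:ℝ) * m) * X) := by ring
            _ ≤ 86 * (√κ * (62 / 86 * n) * X) := mul_le_mul_of_nonneg_left h6 (by norm_num)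
            _ = 2 * (31 * √κ * n * X) := by ring
      _ = 2 * ENNReal.ofReal (31 * √κ * n * X) := by
          rw [ENNReal.ofReal_mul (by norm_num)]
          norm_num
  exact (ENNReal.mul_le_mul_iff_right (by norm_num) (by norm_num)).mp h2

open scoped Classical in
/-- the deterministic consequence -/
theorem move (p : Fin n → ℝ × ℝ) {D r : ℝ} (hr : 0 < r) (hrD : r ≤ D)
    (hD : ∀ i j, |(p i).1 - (p j).1| ≤ D ∧ |(p i).2 - (p j).2| ≤ D) :
    ∃ x : Fin n → ℝ × ℝ, Injective x ∧ GeneralPosition (univ.image x) ∧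
      (∀ i, |(x i).1 - (p i).1| ≤ r ∧ |(x i).2 - (p i).2| ≤ r) ∧
      ({L | IsBisector (univ.image x) L}.ncard : ℝ) ≤ 21 * n * (D / r) ^ (1 / 4 : ℝ) := by
  have hD0 : 0 < D := hr.trans_le hrD
  have h : Noise (fun i => unif (p i) r) p (fun _ => r) (1 / 4) (D + 2 * r) :=
    noise_unif p (fun _ => r) (fun _ => hr) (fun i j => by
      obtain ⟨h1, h2⟩ := hD i j
      constructor <;> linarith)
  have := h.prob
  have hprob : IsProbabilityMeasure (law fun i => unif (p i) r) := by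
    unfold law; infer_instance
  have h1 := h.halving
  have hgood : ∀ᵐ x ∂law (fun i => unif (p i) r), (Injective x ∧
    ∀ i j l : Fin n, l ≠ i → l ≠ j → x i ≠ x j → orient (x i) (x j) (x l) ≠ 0) ∧
    ∀ i, unif (p i) r (x i) ≠ 0 := h.ae_good.and h.ae_supp
  obtain ⟨x, hx, hle⟩ := exists_notMem_null_le_lintegral h.aemeas (ae_iff.mp hgood)
  rw [Set.mem_ofPred_eq, not_not] at hx
  refine ⟨x, hx.1.1, gp_of hx.1.2, fun i => unif_supp (hx.2 i), ?_⟩
  have h2 := hle.trans h1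
  have hb0 : 0 ≤ 31 * √(1 / 4) * (n:ℝ) *
      ((∑ _i : Fin n, (D + 2 * r) / r) / n) ^ (1 / 4 : ℝ) := by positivity
  have h3 : ({L | IsBisector (univ.image x) L}.ncard : ℝ) ≤ 31 * √(1 / 4) * (n:ℝ) *
      ((∑ _i : Fin n, (D + 2 * r) / r) / n) ^ (1 / 4 : ℝ) := by
    rw [← ENNReal.ofReal_natCast] at h2
    exact (ENNReal.ofReal_le_ofReal_iff hb0).mp h2
  refine h3.trans ?_
  rcases Nat.eq_zero_or_pos n with hn0 | hn0
  · subst hn0; simp
  have hnR : (0:ℝ) < n := by exact_mod_cast hn0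
  have e1 : √(1 / 4 : ℝ) = 1 / 2 := by
    rw [show (1 / 4 : ℝ) = (1 / 2) ^ 2 by norm_num, Real.sqrt_sq (by norm_num)]
  have e2 : (∑ _i : Fin n, (D + 2 * r) / r) / n = (D + 2 * r) / r := by
    rw [sum_const, card_univ, Fintype.card_fin, nsmul_eq_mul]
    field_simp
  rw [e1, e2]
  have h4 : (D + 2 * r) / r ≤ (4 / 3) ^ 4 * (D / r) := by
    rw [div_le_iff₀ hr]
    have e3 : (4 / 3) ^ 4 * (D / r) * r = (4 / 3) ^ 4 * D := by field_simp
    rw [e3]
    norm_num
    linarith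
  have h5 : ((D + 2 * r) / r) ^ (1 / 4 : ℝ) ≤ 4 / 3 * (D / r) ^ (1 / 4 : ℝ) := by
    calc ((D + 2 * r) / r) ^ (1 / 4 : ℝ) ≤ ((4 / 3) ^ 4 * (D / r)) ^ (1 / 4 : ℝ) :=
          Real.rpow_le_rpow (by positivity) h4 (by norm_num)
      _ = 4 / 3 * (D / r) ^ (1 / 4 : ℝ) := by
          rw [Real.mul_rpow (by positivity) (by positivity), ← Real.rpow_natCast,
            ← Real.rpow_mul (by norm_num)]
          norm_num
  have h6 : 0 ≤ (n:ℝ) * (D / r) ^ (1 / 4 : ℝ) := by positivity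
  calc 31 * (1 / 2) * (n:ℝ) * ((D + 2 * r) / r) ^ (1 / 4 : ℝ)
      ≤ 31 * (1 / 2) * n * (4 / 3 * (D / r) ^ (1 / 4 : ℝ)) :=
        mul_le_mul_of_nonneg_left h5 (by positivity)
    _ = 62 / 3 * (n * (D / r) ^ (1 / 4 : ℝ)) := by ring
    _ ≤ 21 * (n * (D / r) ^ (1 / 4 : ℝ)) := mul_le_mul_of_nonneg_right (by norm_num) h6
    _ = 21 * n * (D / r) ^ (1 / 4 : ℝ) := by ring

end

end Pool.Agent.K7.H26.SM
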