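import Pool.Agent.K7.H26.SM.Rot

namespace Pool.Agent.K7.H26.SM

open MeasureTheory Finset Function
open scoped ENNReal

lemma orient_null {p q : ℝ × ℝ} (h : p ≠ q) :
    (volume : Measure (ℝ × ℝ)) {z | orient p q z = 0} = 0 := by
  by_cases h1 : q.1 = p.1
  · have h2 : q.2 - p.2 ≠ 0 := by
      intro h3
      exact h (Prod.ext h1.symm (by linarith))
    have hsub : {z : ℝ × ℝ | orient p q z = 0} ⊆ {p.1} ×ˢ Set.univ := by
      intro z hz
      rw [Set.mem_ofPred_eq] at hz
      unfold orient at hz
      rw [h1] at hz
      have h3 : (q.2 - p.2) * (z.1 - p.1) = 0 := by linarith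
      have h4 := (mul_eq_zero.mp h3).resolve_left h2
      refine ⟨?_, Set.mem_univ _⟩
      rw [Set.mem_singleton_iff]
      linarith
    refine measure_mono_null hsub ?_
    rw [Measure.volume_eq_prod, Measure.prod_prod]
    simp
  · have h2 : q.1 - p.1 ≠ 0 := sub_ne_zero.mpr h1
    have hsub : {z : ℝ × ℝ | orient p q z = 0} ⊆
        {z | Z (sl p q) z = ic p q} := by
      intro z hz
      rw [Set.mem_ofPred_eq] at hz ⊢
      unfold orient at hz
      unfold Z ic sl
      field_simp
      linarith
    exact measure_mono_null hsub (line_null _ _)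

section

variable {n : ℕ} (μ : Fin n → Measure (ℝ × ℝ)) [∀ i, IsProbabilityMeasure (μ i)]

/-- a null event for one coordinate given the others -/
lemma null_of_fibre {E : Set (Fin n → ℝ × ℝ)} (hE : MeasurableSet E) (i : Fin n)
    (h : ∀ x, μ i {z | update x i z ∈ E} = 0) : Measure.pi μ E = 0 := by
  rw [← lintegral_indicator_one hE, lintegral_update μ (measurable_one.indicator hE) i]
  have : ∀ x : Fin n → ℝ × ℝ, ∫⁻ z, E.indicator 1 (update x i z) ∂μ i = (0:ℝ≥0∞) := by
    intro x
    have e : (fun z => E.indicator (1 : (Fin n → ℝ × ℝ) → ℝ≥0∞) (update x i z)) =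
        {z | update x i z ∈ E}.indicator 1 := by
      funext z
      by_cases hz : update x i z ∈ E
      · rw [Set.indicator_of_mem hz, Set.indicator_of_mem (show z ∈ {z | update x i z ∈ E} from hz)]
        rfl
      · rw [Set.indicator_of_notMem hz,
          Set.indicator_of_notMem (show z ∉ {z | update x i z ∈ E} from hz)]
    have hm : MeasurableSet {z | update x i z ∈ E} := by
      have : Measurable (fun z : ℝ × ℝ => update x i z) := measurable_update x
      exact this hE
    rw [e, lintegral_indicator_one hm]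
    exact h x
  simp [this]

lemma ae_injective (hac : ∀ i, μ i ≪ volume) : ∀ᵐ x ∂Measure.pi μ, Injective x := by
  filter_upwards [ae_inj μ hac 0] with x hx i j hij
  exact hx (by simp only [hij])

lemma ae_gp (hac : ∀ i, μ i ≪ volume) : ∀ᵐ x ∂Measure.pi μ,
    ∀ i j l : Fin n, l ≠ i → l ≠ j → x i ≠ x j → orient (x i) (x j) (x l) ≠ 0 := by
  rw [ae_all_iff]; intro i
  rw [ae_all_iff]; intro j
  rw [ae_all_iff]; intro l
  by_cases hli : l = i
  · filter_upwards with x h; exact absurd hli h
  by_cases hlj : l = j
  · filter_upwards with x _ h; exact absurd hlj h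
  set E : Set (Fin n → ℝ × ℝ) := {x | x i ≠ x j ∧ orient (x i) (x j) (x l) = 0} with hE
  have hEm : MeasurableSet E := by
    apply MeasurableSet.inter
    · exact (measurableSet_eq_fun (measurable_pi_apply i) (measurable_pi_apply j)).compl
    · unfold orient
      exact measurableSet_eq_fun (f := fun x : Fin n → ℝ × ℝ => ((x j).1 - (x i).1) *
        ((x l).2 - (x i).2) - ((x j).2 - (x i).2) * ((x l).1 - (x i).1)) (g := fun _ => 0)
        (by fun_prop) measurable_const
  have h0 : Measure.pi μ E = 0 := by
    apply null_of_fibre μ hEm l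
    intro x
    by_cases hx : x i = x j
    · have : {z | update x l z ∈ E} = ∅ := by
        ext z
        simp only [hE, Set.mem_ofPred_eq, Set.mem_empty_iff_false, iff_false]
        rintro ⟨h1, -⟩
        rw [update_of_ne (Ne.symm hli), update_of_ne (Ne.symm hlj)] at h1
        exact h1 hx
      rw [this, measure_empty]
    · apply hac l
      refine measure_mono_null ?_ (orient_null hx)
      intro z hz
      rw [Set.mem_ofPred_eq, hE, Set.mem_ofPred_eq, update_of_ne (Ne.symm hli),
        update_of_ne (Ne.symm hlj), update_self] at hz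
      exact hz.2
  have := measure_eq_zero_iff_ae_notMem.mp h0
  filter_upwards [this] with x hx _ _ h3 h4
  exact hx ⟨h3, h4⟩

end

section

variable {n : ℕ} {f : Fin n → ℝ × ℝ → ℝ≥0∞} {p : Fin n → ℝ × ℝ} {r : Fin n → ℝ} {κ D : ℝ}

lemma Noise.ae_supp (h : Noise f p r κ D) : ∀ᵐ x ∂law f, ∀ i, f i (x i) ≠ 0 := by
  have := h.prob
  rw [ae_all_iff]; intro i
  set E : Set (Fin n → ℝ × ℝ) := {x | f i (x i) = 0} with hE
  have hm0 : MeasurableSet {z | f i z = 0} := h.meas i (measurableSet_singleton 0)
  have hEm : MeasurableSet E :=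
    ((h.meas i).comp (measurable_pi_apply i)) (measurableSet_singleton 0)
  have h0 : Measure.pi (fun i => volume.withDensity (f i)) E = 0 := by
    apply null_of_fibre _ hEm i
    intro x
    have : {z | update x i z ∈ E} = {z | f i z = 0} := by
      ext z
      simp only [hE, Set.mem_ofPred_eq, update_self]
    rw [this, withDensity_apply _ hm0]
    rw [lintegral_eq_zero_iff (h.meas i)]
    exact (ae_restrict_iff' hm0).mpr (Filter.Eventually.of_forall fun z hz => hz)
  have := measure_eq_zero_iff_ae_notMem.mp h0
  filter_upwards [this] with x hx h4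
  exact hx h4

end

end Pool.Agent.K7.H26.SM
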