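import Pool.Agent.K7.H26.SM.Slab3

namespace Pool.Agent.K7.H26.SM

open MeasureTheory Finset Function
open scoped ENNReal

section

variable {n : ℕ}

lemma orient_pos_iff' {z w s : ℝ × ℝ} (h : z.1 < w.1) :
    0 < orient z w s ↔ Z (sl z w) z < Z (sl z w) s := by
  rw [orient_pos_iff h]
  unfold Z ic
  constructor <;> intro h1 <;> linarith

lemma Z_end {z w : ℝ × ℝ} (h : z.1 < w.1) : Z (sl z w) w = Z (sl z w) z := by
  have hc : w.1 - z.1 ≠ 0 := by linarith
  unfold Z sl
  field_simp
  ring

lemma orient_of_Z {z w s : ℝ × ℝ} (h : z.1 < w.1) (hs : Z (sl z w) s = Z (sl z w) z) :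
    orient z w s = 0 := by
  have hc : w.1 - z.1 ≠ 0 := by linarith
  unfold Z sl at hs
  unfold orient
  field_simp at hs
  linarith

open scoped Classical in
/-- the points above the line of the pair -/
noncomputable def UU (x : Fin n → ℝ × ℝ) (e : Fin n × Fin n) : Finset (Fin n) :=
  univ.filter fun l => Z (sl (x e.1) (x e.2)) (x e.1) < Z (sl (x e.1) (x e.2)) (x l)

lemma card_UU {x : Fin n → ℝ × ℝ} {e : Fin n × Fin n} (h : (x e.1).1 < (x e.2).1) :
    (UU x e).card = left x (x e.1) (x e.2) := by
  unfold UU left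
  congr 1
  apply filter_congr
  intro l _
  rw [orient_pos_iff' h]

open scoped Classical in
/-- Lovász: the forward `k`-edges over an abscissa -/
lemma cut_edges {x : Fin n → ℝ × ℝ}
    (hgp : ∀ i j l : Fin n, l ≠ i → l ≠ j → x i ≠ x j → orient (x i) (x j) (x l) ≠ 0)
    (c : ℝ) (k : ℕ) :
    (univ.filter fun e : Fin n × Fin n => (x e.1).1 < c ∧ c ≤ (x e.2).1 ∧
      left x (x e.1) (x e.2) = k).card ≤ k + 1 := by
  set E := univ.filter fun e : Fin n × Fin n => (x e.1).1 < c ∧ c ≤ (x e.2).1 ∧
      left x (x e.1) (x e.2) = k with hE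
  set A : Fin n × Fin n → ℕ := fun e => ((UU x e).filter fun l => (x l).1 < c).card with hA
  have hmem : ∀ e ∈ E, (x e.1).1 < c ∧ c ≤ (x e.2).1 ∧ (UU x e).card = k := by
    intro e he
    rw [hE, mem_filter] at he
    obtain ⟨-, h1, h2, h3⟩ := he
    exact ⟨h1, h2, by rw [card_UU (by linarith), h3]⟩
  -- strict monotonicity
  have hmono : ∀ e ∈ E, ∀ e' ∈ E, sl (x e.1) (x e.2) < sl (x e'.1) (x e'.2) → A e < A e' := by
    intro e he e' he' hlt
    obtain ⟨h1, h2, h3⟩ := hmem e he
    obtain ⟨h1', h2', h3'⟩ := hmem e' he'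
    set σ := sl (x e.1) (x e.2) with hσ
    set σ' := sl (x e'.1) (x e'.2) with hσ'
    have hi : e.1 ∉ UU x e := by
      unfold UU; rw [mem_filter]; rintro ⟨-, h⟩; exact lt_irrefl _ h
    have hj : e'.2 ∉ UU x e' := by
      unfold UU; rw [mem_filter]; rintro ⟨-, h⟩
      rw [Z_end (by linarith : (x e'.1).1 < (x e'.2).1)] at h
      exact lt_irrefl _ h
    set S := insert e.1 (UU x e) with hS
    set S' := insert e'.2 (UU x e') with hS'
    have hSc : S.card = k + 1 := by rw [hS, card_insert_of_notMem hi, h3]
    have hSc' : S'.card = k + 1 := by rw [hS', card_insert_of_notMem hj, h3']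
    -- cards of the left parts
    have c1 : (S.filter fun l => (x l).1 < c).card = A e + 1 := by
      rw [hS, filter_insert, if_pos h1, card_insert_of_notMem]
      intro h
      exact hi (mem_filter.mp h).1
    have c2 : (S'.filter fun l => (x l).1 < c).card = A e' := by
      rw [hS', filter_insert, if_neg (not_lt.mpr h2')]
    -- the exchange property
    have hex : ∀ u ∈ S \ S', ∀ v ∈ S' \ S, (x v).1 ≤ (x u).1 := by
      intro u hu v hv
      rw [mem_sdiff] at hu hv
      have a1 : Z σ (x e.1) ≤ Z σ (x u) := by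
        have := hu.1
        rw [hS, mem_insert] at this
        rcases this with h | h
        · rw [h]
        · unfold UU at h; rw [mem_filter] at h; exact h.2.le
      have a2 : Z σ (x v) ≤ Z σ (x e.1) := by
        by_contra hcon
        push Not at hcon
        apply hv.2
        rw [hS, mem_insert]; right
        unfold UU; rw [mem_filter]; exact ⟨mem_univ _, hcon⟩
      have a3 : Z σ' (x e'.1) ≤ Z σ' (x v) := by
        have := hv.1
        rw [hS', mem_insert] at this
        rcases this with h | h
        · rw [h, Z_end (by linarith : (x e'.1).1 < (x e'.2).1)]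
        · unfold UU at h; rw [mem_filter] at h; exact h.2.le
      have a4 : Z σ' (x u) ≤ Z σ' (x e'.1) := by
        by_contra hcon
        push Not at hcon
        apply hu.2
        rw [hS', mem_insert]; right
        unfold UU; rw [mem_filter]; exact ⟨mem_univ _, hcon⟩
      have a5 : Z σ (x v) ≤ Z σ (x u) := a2.trans a1
      have a6 : Z σ' (x u) ≤ Z σ' (x v) := a4.trans a3
      unfold Z at a5 a6
      by_contra hcon
      push Not at hcon
      nlinarith
    have hcard : (S \ S').card = (S' \ S).card := by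
      have e1 := card_sdiff_add_card_inter S S'
      have e2 := card_sdiff_add_card_inter S' S
      rw [inter_comm S' S] at e2
      omega
    have hsplit : ∀ T T' : Finset (Fin n), (T.filter fun l => (x l).1 < c).card =
        ((T ∩ T').filter fun l => (x l).1 < c).card +
        ((T \ T').filter fun l => (x l).1 < c).card := by
      intro T T'
      rw [← card_union_of_disjoint]
      · congr 1
        rw [← filter_union]
        congr 1
        ext l
        simp only [mem_union, mem_inter, mem_sdiff]
        tauto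
      · apply disjoint_filter_filter
        rw [disjoint_left]
        intro l hl hl'
        exact (mem_sdiff.mp hl').2 (mem_inter.mp hl).2
    have hle : (S.filter fun l => (x l).1 < c).card ≤ (S'.filter fun l => (x l).1 < c).card := by
      rw [hsplit S S', hsplit S' S, inter_comm S' S]
      apply Nat.add_le_add_left
      by_cases hne : ((S \ S').filter fun l => (x l).1 < c) = ∅
      · rw [hne]; simp
      · obtain ⟨u, hu⟩ := nonempty_iff_ne_empty.mpr hne
        rw [mem_filter] at hu
        have : ((S' \ S).filter fun l => (x l).1 < c) = S' \ S := by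
          apply filter_true_of_mem
          intro v hv
          exact (hex u hu.1 v hv).trans_lt hu.2
        rw [this, ← hcard]
        exact card_filter_le _ _
    omega
  -- equal slopes
  have heq : ∀ e ∈ E, ∀ e' ∈ E, sl (x e.1) (x e.2) = sl (x e'.1) (x e'.2) → e = e' := by
    have key : ∀ e ∈ E, ∀ e' ∈ E, sl (x e.1) (x e.2) = sl (x e'.1) (x e'.2) →
        ¬ Z (sl (x e.1) (x e.2)) (x e.1) < Z (sl (x e.1) (x e.2)) (x e'.1) := by
      intro e he e' he' hs hlt
      obtain ⟨h1, h2, h3⟩ := hmem e he
      obtain ⟨h1', h2', h3'⟩ := hmem e' he'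
      have hsub : insert e'.1 (UU x e') ⊆ UU x e := by
        intro l hl
        rw [mem_insert] at hl
        unfold UU
        rw [mem_filter]
        refine ⟨mem_univ _, ?_⟩
        rcases hl with h | h
        · rw [h]; exact hlt
        · unfold UU at h
          rw [mem_filter, ← hs] at h
          exact hlt.trans h.2
      have hi : e'.1 ∉ UU x e' := by
        unfold UU; rw [mem_filter]; rintro ⟨-, h⟩; exact lt_irrefl _ h
      have := card_le_card hsub
      rw [card_insert_of_notMem hi, h3, h3'] at this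
      omega
    intro e he e' he' hs
    obtain ⟨h1, h2, h3⟩ := hmem e he
    obtain ⟨h1', h2', h3'⟩ := hmem e' he'
    have k1 := key e he e' he' hs
    have k2 := key e' he' e he hs.symm
    rw [← hs] at k2
    have hZ : Z (sl (x e.1) (x e.2)) (x e'.1) = Z (sl (x e.1) (x e.2)) (x e.1) :=
      le_antisymm (not_lt.mp k1) (not_lt.mp k2)
    have hZ2 : Z (sl (x e.1) (x e.2)) (x e'.2) = Z (sl (x e.1) (x e.2)) (x e.1) := by
      rw [hs, Z_end (by linarith : (x e'.1).1 < (x e'.2).1), ← hs, hZ]
    have hlt : (x e.1).1 < (x e.2).1 := by linarith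
    have hne : x e.1 ≠ x e.2 := fun h => by rw [h] at hlt; exact lt_irrefl _ hlt
    have o1 := orient_of_Z hlt hZ
    have o2 := orient_of_Z hlt hZ2
    have b1 : e'.1 = e.1 ∨ e'.1 = e.2 := by
      by_contra hcon
      push Not at hcon
      exact hgp _ _ _ hcon.1 hcon.2 hne o1
    have b2 : e'.2 = e.1 ∨ e'.2 = e.2 := by
      by_contra hcon
      push Not at hcon
      exact hgp _ _ _ hcon.1 hcon.2 hne o2
    have d1 : e'.1 = e.1 := by
      rcases b1 with h | h
      · exact h
      · rw [h] at h1'; linarith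
    have d2 : e'.2 = e.2 := by
      rcases b2 with h | h
      · rw [h] at h2'; linarith
      · exact h
    exact Prod.ext d1.symm d2.symm
  have hinj : Set.InjOn A (E : Set (Fin n × Fin n)) := by
    intro e he e' he' h
    rw [mem_coe] at he he'
    rcases lt_trichotomy (sl (x e.1) (x e.2)) (sl (x e'.1) (x e'.2)) with h1 | h1 | h1
    · exact absurd h (hmono e he e' he' h1).ne
    · exact heq e he e' he' h1
    · exact absurd h (hmono e' he' e he h1).ne'
  have hmaps : ∀ e ∈ E, A e ∈ range (k + 1) := by
    intro e he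
    obtain ⟨h1, h2, h3⟩ := hmem e he
    rw [mem_range]
    have : A e ≤ (UU x e).card := card_filter_le _ _
    omega
  have := card_le_card_of_injOn A hmaps hinj
  rwa [card_range] at this

/-- forward edges in the slabs and over the cuts -/
lemma edges0_slabs {p : Fin n → ℝ × ℝ} {r : Fin n → ℝ} {D : ℝ} {K : ℕ}
    (C : Cuts p r D K) (hr : ∀ i, 0 < r i) (hD : 0 < D) (hK : 0 < K) {x : Fin n → ℝ × ℝ}
    (hgp : ∀ i j l : Fin n, l ≠ i → l ≠ j → x i ≠ x j → orient (x i) (x j) (x l) ≠ 0) (k : ℕ) :
    edges0 x k ≤ 2 * K * (k + 1) + ∑ s ∈ range (2 * K), edgesA (sset p r C.A D K s) x k := by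
  classical
  set σ := sig p r C.A D K with hσ
  set T : ℕ → Finset (Fin n × Fin n) := fun t => univ.filter fun e : Fin n × Fin n =>
    (x e.1).1 < C.c t ∧ C.c t ≤ (x e.2).1 ∧ left x (x e.1) (x e.2) = k with hT
  set B : ℕ → Finset (Fin n × Fin n) := fun s => univ.filter fun ij : Fin n × Fin n =>
    Fwd (x ij.1) (x ij.2) ∧ left x (x ij.1) (x ij.2) = k ∧ x ij.1 ∈ sset p r C.A D K s ∧
      x ij.2 ∈ sset p r C.A D K s with hB
  have hTc : ∀ t, (T t).card ≤ k + 1 := fun t => cut_edges hgp (C.c t) k
  have hBc : ∀ s, (B s).card = edgesA (sset p r C.A D K s) x k := fun s => rfl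
  have hsub : (univ.filter fun ij : Fin n × Fin n =>
      Fwd (x ij.1) (x ij.2) ∧ left x (x ij.1) (x ij.2) = k) ⊆
      (range (2 * K)).biUnion T ∪ (range (2 * K)).biUnion B := by
    intro e he
    rw [mem_filter] at he
    obtain ⟨-, hf, hl⟩ := he
    rw [mem_union, mem_biUnion, mem_biUnion]
    rcases lt_trichotomy (σ (x e.1).1) (σ (x e.2).1) with h | h | h
    · left
      obtain ⟨t, ht, h1, h2⟩ := C.sep hr hD hK h
      exact ⟨t, mem_range.mpr ht, mem_filter.mpr ⟨mem_univ _, h1, h2, hl⟩⟩
    · right
      refine ⟨σ (x e.1).1, ?_, mem_filter.mpr ⟨mem_univ _, hf, hl, rfl, h.symm⟩⟩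
      rw [mem_range, hσ]
      unfold sig
      omega
    · exfalso
      obtain ⟨t, ht, h1, h2⟩ := C.sep hr hD hK h
      have := hf.1
      linarith
  have h1 : edges0 x k ≤ ((range (2 * K)).biUnion T ∪ (range (2 * K)).biUnion B).card := by
    unfold edges0
    exact card_le_card hsub
  refine h1.trans ((card_union_le _ _).trans (Nat.add_le_add ?_ ?_))
  · refine card_biUnion_le.trans ((sum_le_sum fun t _ => hTc t).trans ?_)
    rw [sum_const, card_range, smul_eq_mul]
  · refine card_biUnion_le.trans (le_of_eq ?_)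
    exact sum_congr rfl fun s _ => hBc s

end

end Pool.Agent.K7.H26.SM
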