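import Pool.Agent.K7.H26.SM.Dens

namespace Pool.Agent.K7.H26.SM

open MeasureTheory Finset Function
open scoped ENNReal

open scoped Classical in
/-- the number of forward directed `k`-edges -/
noncomputable def edges0 {n : ℕ} (x : Fin n → ℝ × ℝ) (k : ℕ) : ℕ :=
  (univ.filter fun ij : Fin n × Fin n =>
    Fwd (x ij.1) (x ij.2) ∧ left x (x ij.1) (x ij.2) = k).card

lemma real_step {t φ lam D : ℝ} (ht : 0 ≤ t) (hφ : 0 ≤ φ) (hl : 0 < lam) (hD : 0 < D)
    (h : t ≤ D * (φ * φ)) : 2 * t ≤ (lam * D) * φ + (1 / lam) * (φ * t) := by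
  set q := lam * D + t / lam with hq
  have hq0 : 0 ≤ q := by positivity
  have h1 : 4 * (D * t) ≤ q ^ 2 := by
    have : q ^ 2 - 4 * (D * t) = (lam * D - t / lam) ^ 2 := by
      rw [hq]; field_simp; ring
    nlinarith [sq_nonneg (lam * D - t / lam)]
  have h2 : (2 * t) ^ 2 ≤ (φ * q) ^ 2 := by
    have h3 : φ ^ 2 * (4 * (D * t)) ≤ φ ^ 2 * q ^ 2 :=
      mul_le_mul_of_nonneg_left h1 (sq_nonneg _)
    have h4 : t * t ≤ (D * (φ * φ)) * t := mul_le_mul_of_nonneg_right h ht
    nlinarith
  have h3 : 2 * t ≤ φ * q := by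
    exact (sq_le_sq₀ (by positivity) (by positivity)).mp h2
  have e : φ * q = (lam * D) * φ + (1 / lam) * (φ * t) := by
    rw [hq]; field_simp
  linarith

lemma measurableSet_E {n : ℕ} (i j : Fin n) (k : ℕ) :
    MeasurableSet {x : Fin n → ℝ × ℝ | Fwd (x i) (x j) ∧ left x (x i) (x j) = k} := by
  apply MeasurableSet.inter
  · exact measurableSet_Fwd.preimage
      (f := fun x : Fin n → ℝ × ℝ => (x i, x j)) (by fun_prop)
  · exact (measurable_left (n := n)).comp
      (g := _) (f := fun x : Fin n → ℝ × ℝ => (x i, x j, x)) (by fun_prop)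
      (measurableSet_singleton k)

lemma measurable_edges0 {n : ℕ} (k : ℕ) : Measurable (fun x : Fin n → ℝ × ℝ => edges0 x k) := by
  classical
  have e : (fun x : Fin n → ℝ × ℝ => edges0 x k) = fun x => ∑ ij : Fin n × Fin n,
      if Fwd (x ij.1) (x ij.2) ∧ left x (x ij.1) (x ij.2) = k then 1 else 0 := by
    funext x
    unfold edges0
    rw [card_filter]
  rw [e]
  apply Finset.measurable_sum
  intro ij _
  exact Measurable.ite (measurableSet_E ij.1 ij.2 k) measurable_const measurable_const

section

variable {n : ℕ} {f : Fin n → ℝ × ℝ → ℝ≥0∞} {p : Fin n → ℝ × ℝ} {r : Fin n → ℝ} {κ D : ℝ}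
  (h : Noise f p r κ D)

include h

lemma Noise.edges0_le (k : ℕ) : ∫⁻ x, (edges0 x k : ℝ≥0∞) ∂law f ≤
    ∫⁻ a in Set.Icc (-1:ℝ) 1, ∫⁻ b, TG f a b * Pk (fun i => volume.withDensity (f i)) k a b := by
  classical
  have := h.prob
  set μ : Fin n → Measure (ℝ × ℝ) := fun i => volume.withDensity (f i) with hμ
  have hπ : Measurable (uncurry (Pk μ k)) := measurable_Pk μ k
  have e1 : ∀ x : Fin n → ℝ × ℝ, (edges0 x k : ℝ≥0∞) = ∑ i, ∑ j,
      {x : Fin n → ℝ × ℝ | Fwd (x i) (x j) ∧ left x (x i) (x j) = k}.indicator 1 x := by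
    intro x
    unfold edges0
    rw [card_filter]
    push_cast
    rw [← univ_product_univ, sum_product]
    apply sum_congr rfl; intro i _
    apply sum_congr rfl; intro j _
    rw [Set.indicator_apply]
    rfl
  have e2 : ∫⁻ x, (edges0 x k : ℝ≥0∞) ∂law f = ∑ i, ∑ j, Measure.pi μ
      {x : Fin n → ℝ × ℝ | Fwd (x i) (x j) ∧ left x (x i) (x j) = k} := by
    simp_rw [e1]
    rw [lintegral_finsetSum]
    · apply sum_congr rfl; intro i _
      rw [lintegral_finsetSum]
      · apply sum_congr rfl; intro j _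
        rw [lintegral_indicator_one (measurableSet_E i j k)]
        rfl
      · intro j _
        exact measurable_one.indicator (measurableSet_E i j k)
    · intro i _
      exact Finset.measurable_sum _ fun j _ => measurable_one.indicator (measurableSet_E i j k)
  have e3 : ∀ i j, Measure.pi μ
      {x : Fin n → ℝ × ℝ | Fwd (x i) (x j) ∧ left x (x i) (x j) = k} ≤
      ∫⁻ a in Set.Icc (-1:ℝ) 1, ∫⁻ b, G (f i) (f j) a b * Pk μ k a b := by
    intro i j
    by_cases hij : i = j
    · subst hij
      have : {x : Fin n → ℝ × ℝ | Fwd (x i) (x i) ∧ left x (x i) (x i) = k} = ∅ := by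
        ext x
        simp only [Set.mem_ofPred_eq, Set.mem_empty_iff_false, iff_false]
        rintro ⟨h1, -⟩
        exact lt_irrefl _ h1.1
      rw [this, measure_empty]
      exact zero_le
    · refine (pair_prob μ hij k).trans ?_
      rw [← pair_to_line (h.meas i) (h.meas j) hπ]
      have hm : Measurable (fun q : (ℝ × ℝ) × (ℝ × ℝ) =>
          if Fwd q.1 q.2 then Pk μ k (sl q.1 q.2) (ic q.1 q.2) else 0) := by
        have hsl : Measurable (fun q : (ℝ × ℝ) × (ℝ × ℝ) => sl q.1 q.2) := by
          unfold sl; fun_prop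
        have hic : Measurable (fun q : (ℝ × ℝ) × (ℝ × ℝ) => ic q.1 q.2) := by
          unfold ic; exact (by fun_prop : Measurable fun q : (ℝ × ℝ) × (ℝ × ℝ) => q.1.2).sub
            (hsl.mul (by fun_prop))
        exact Measurable.ite measurableSet_Fwd (hπ.comp (hsl.prodMk hic)) measurable_const
      have e4 : ∀ z : ℝ × ℝ, ∫⁻ w, (if Fwd z w then Pk μ k (sl z w) (ic z w) else 0) ∂μ j =
          ∫⁻ w, f j w * (if Fwd z w then Pk μ k (sl z w) (ic z w) else 0) := by
        intro z
        have hz : Measurable (fun w : ℝ × ℝ =>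
            if Fwd z w then Pk μ k (sl z w) (ic z w) else 0) := hm.comp measurable_prodMk_left
        exact lintegral_withDensity_eq_lintegral_mul volume (h.meas j) hz
      simp_rw [e4]
      have m2 : Measurable (fun z : ℝ × ℝ => ∫⁻ w, f j w *
          (if Fwd z w then Pk μ k (sl z w) (ic z w) else 0)) := by
        apply Measurable.lintegral_prod_right'
          (f := fun q : (ℝ × ℝ) × (ℝ × ℝ) => f j q.2 *
            (if Fwd q.1 q.2 then Pk μ k (sl q.1 q.2) (ic q.1 q.2) else 0))
        exact ((h.meas j).comp measurable_snd).mul hm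
      have e5 : ∫⁻ z, (∫⁻ w, f j w * (if Fwd z w then Pk μ k (sl z w) (ic z w) else 0)) ∂μ i =
          ∫⁻ z, f i z * ∫⁻ w, f j w * (if Fwd z w then Pk μ k (sl z w) (ic z w) else 0) :=
        lintegral_withDensity_eq_lintegral_mul volume (h.meas i) m2
      rw [e5]
      apply le_of_eq
      apply lintegral_congr
      intro z
      rw [← lintegral_const_mul]
      · apply lintegral_congr
        intro w
        rw [mul_assoc]
      · exact (h.meas j).mul (hm.comp measurable_prodMk_left)
  rw [e2]
  refine (sum_le_sum fun i _ => sum_le_sum fun j _ => e3 i j).trans ?_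
  -- collect the sums
  have hGm : ∀ i j, Measurable (uncurry fun a b => G (f i) (f j) a b * Pk μ k a b) := by
    intro i j
    exact (measurable_G (h.meas i) (h.meas j)).mul hπ
  apply le_of_eq
  have e6 : ∀ a, ∫⁻ b, TG f a b * Pk μ k a b = ∑ i, ∑ j, ∫⁻ b, G (f i) (f j) a b * Pk μ k a b := by
    intro a
    unfold TG
    simp_rw [sum_mul]
    rw [lintegral_finsetSum]
    · apply sum_congr rfl; intro i _
      rw [lintegral_finsetSum]
      intro j _
      exact (hGm i j).comp measurable_prodMk_left
    · intro i _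
      exact Finset.measurable_sum _ fun j _ => (hGm i j).comp measurable_prodMk_left
  simp_rw [e6]
  rw [lintegral_finsetSum]
  · apply sum_congr rfl; intro i _
    rw [lintegral_finsetSum]
    intro j _
    exact (hGm i j).lintegral_prod_right'
  · intro i _
    exact Finset.measurable_sum _ fun j _ => (hGm i j).lintegral_prod_right'

/-- the bound for one slope -/
lemma Noise.slope_bound {lam : ℝ} (hl : 0 < lam) (hD : 0 < D) (k : ℕ) {a : ℝ}
    (ha : a ∈ Set.Icc (-1:ℝ) 1) :
    2 * ∫⁻ b, TG f a b * Pk (fun i => volume.withDensity (f i)) k a b ≤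
      ENNReal.ofReal (lam * D) * 4 + ENNReal.ofReal (1 / lam) * (4 * ∑ i, ∑ j,
        (Win p r i j).indicator (fun _ => ENNReal.ofReal
          ((|(p i).1 - (p j).1| + (r i + r j)) * (2 * κ / r i) * (2 * κ / r j))) a) := by
  have := h.prob
  set μ : Fin n → Measure (ℝ × ℝ) := fun i => volume.withDensity (f i) with hμ
  set τ := ∑ i, ∑ j, (Win p r i j).indicator (fun _ => ENNReal.ofReal
          ((|(p i).1 - (p j).1| + (r i + r j)) * (2 * κ / r i) * (2 * κ / r j))) a with hτ
  have hπ : Measurable (fun b => Pk μ k a b) := (measurable_Pk μ k).comp measurable_prodMk_left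
  have hTG : Measurable (fun b => TG f a b) := h.measurable_TG.comp measurable_prodMk_left
  have hTD : Measurable (fun b => TD f a b) := h.measurable_TD.comp measurable_prodMk_left
  have hT : ∀ b, TG f a b ≤ τ := by
    intro b
    unfold TG
    exact sum_le_sum fun i _ => sum_le_sum fun j _ => h.G_le' i j ha b
  have hrank := h.rank k a
  -- pointwise inequality
  have key : ∀ b, 2 * TG f a b ≤ ENNReal.ofReal (lam * D) * TD f a b +
      ENNReal.ofReal (1 / lam) * (TD f a b * TG f a b) := by
    intro b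
    have hφ := (h.TD_lt_top a b).ne
    have hle := h.TG_le a b
    have ht : TG f a b ≠ ∞ := by
      refine (hle.trans_lt ?_).ne
      exact ENNReal.mul_lt_top ENNReal.ofReal_lt_top (ENNReal.mul_lt_top hφ.lt_top hφ.lt_top)
    set t := TG f a b with htt
    set φ := TD f a b with hφφ
    have hreal : t.toReal ≤ D * (φ.toReal * φ.toReal) := by
      have h1 := (ENNReal.toReal_le_toReal ht (by finiteness)).mpr hle
      rwa [ENNReal.toReal_mul, ENNReal.toReal_mul, ENNReal.toReal_ofReal hD.le] at h1
    have h2 := real_step ENNReal.toReal_nonneg ENNReal.toReal_nonneg hl hD hreal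
    have h3 := ENNReal.ofReal_le_ofReal h2
    have e1 : ENNReal.ofReal (2 * t.toReal) = 2 * t := by
      rw [ENNReal.ofReal_mul (by norm_num), ENNReal.ofReal_toReal ht]
      norm_num
    have e2 : ENNReal.ofReal (lam * D * φ.toReal + 1 / lam * (φ.toReal * t.toReal)) =
        ENNReal.ofReal (lam * D) * φ + ENNReal.ofReal (1 / lam) * (φ * t) := by
      rw [ENNReal.ofReal_add (by positivity) (by positivity),
        ENNReal.ofReal_mul (p := lam * D) (by positivity),
        ENNReal.ofReal_mul (p := 1 / lam) (by positivity),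
        ENNReal.ofReal_mul (p := φ.toReal) (by positivity),
        ENNReal.ofReal_toReal ht, ENNReal.ofReal_toReal hφ]
    rwa [e1, e2] at h3
  have hm1 : Measurable (fun b => TG f a b * Pk μ k a b) := hTG.mul hπ
  have hm : Measurable (fun b => TD f a b * Pk μ k a b) := hTD.mul hπ
  calc 2 * ∫⁻ b, TG f a b * Pk μ k a b
      = ∫⁻ b, (2 * TG f a b) * Pk μ k a b := by
        rw [← lintegral_const_mul _ hm1]
        apply lintegral_congr; intro b; ring
    _ ≤ ∫⁻ b, (ENNReal.ofReal (lam * D) * (TD f a b * Pk μ k a b) +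
          ENNReal.ofReal (1 / lam) * (τ * (TD f a b * Pk μ k a b))) := by
        apply lintegral_mono; intro b
        dsimp only
        calc (2 * TG f a b) * Pk μ k a b
            ≤ (ENNReal.ofReal (lam * D) * TD f a b +
              ENNReal.ofReal (1 / lam) * (TD f a b * TG f a b)) * Pk μ k a b :=
              mul_le_mul_left (key b) _
          _ ≤ (ENNReal.ofReal (lam * D) * TD f a b +
              ENNReal.ofReal (1 / lam) * (TD f a b * τ)) * Pk μ k a b := by
              gcongr
              exact hT b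
          _ = _ := by ring
    _ = ENNReal.ofReal (lam * D) * (∫⁻ b, TD f a b * Pk μ k a b) +
          ENNReal.ofReal (1 / lam) * (τ * ∫⁻ b, TD f a b * Pk μ k a b) := by
        rw [lintegral_add_left (hm.const_mul _), lintegral_const_mul _ hm,
          lintegral_const_mul _ (hm.const_mul _), lintegral_const_mul _ hm]
    _ ≤ ENNReal.ofReal (lam * D) * 4 + ENNReal.ofReal (1 / lam) * (τ * 4) :=
        add_le_add (mul_le_mul_right hrank _) (mul_le_mul_right (mul_le_mul_right hrank _) _)
    _ = _ := by rw [mul_comm τ 4]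

/-- the bound for forward edges, with a parameter -/
lemma Noise.edges0_bound' {lam : ℝ} (hl : 0 < lam) (hD : 0 < D) (k : ℕ) :
    2 * ∫⁻ x, (edges0 x k : ℝ≥0∞) ∂law f ≤
      ENNReal.ofReal (8 * (lam * D) + 256 * κ ^ 2 * (n * ∑ i, 1 / r i) / lam) := by
  have hκ := h.kpos
  have hr := h.rpos
  refine (mul_le_mul_right (h.edges0_le k) 2).trans ?_
  have hW : ∀ i j, Measurable ((Win p r i j).indicator (fun _ : ℝ => ENNReal.ofReal
          ((|(p i).1 - (p j).1| + (r i + r j)) * (2 * κ / r i) * (2 * κ / r j)))) := fun i j =>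
    measurable_const.indicator (measurableSet_Win i j)
  have hWs : Measurable (fun a : ℝ => ∑ i, ∑ j, (Win p r i j).indicator (fun _ : ℝ =>
      ENNReal.ofReal ((|(p i).1 - (p j).1| + (r i + r j)) * (2 * κ / r i) * (2 * κ / r j))) a) :=
    Finset.measurable_sum _ fun i _ => Finset.measurable_sum _ fun j _ => hW i j
  have := h.prob
  have hm0 : Measurable (fun a : ℝ => ∫⁻ b, TG f a b *
      Pk (fun i => volume.withDensity (f i)) k a b) :=
    (h.measurable_TG.mul (measurable_Pk (fun i => volume.withDensity (f i)) k)).lintegral_prod_right'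
  calc 2 * ∫⁻ a in Set.Icc (-1:ℝ) 1, ∫⁻ b, TG f a b *
          Pk (fun i => volume.withDensity (f i)) k a b
      = ∫⁻ a in Set.Icc (-1:ℝ) 1, 2 * ∫⁻ b, TG f a b *
          Pk (fun i => volume.withDensity (f i)) k a b := by
        rw [lintegral_const_mul _ hm0]
    _ ≤ ∫⁻ a in Set.Icc (-1:ℝ) 1, (ENNReal.ofReal (lam * D) * 4 +
          ENNReal.ofReal (1 / lam) * (4 * ∑ i, ∑ j,
        (Win p r i j).indicator (fun _ => ENNReal.ofReal
          ((|(p i).1 - (p j).1| + (r i + r j)) * (2 * κ / r i) * (2 * κ / r j))) a)) :=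
        setLIntegral_mono' measurableSet_Icc fun a ha => h.slope_bound hl hD k ha
    _ = ENNReal.ofReal (lam * D) * 4 * ENNReal.ofReal 2 + ENNReal.ofReal (1 / lam) * (4 *
          ∑ i, ∑ j, ∫⁻ a in Set.Icc (-1:ℝ) 1, (Win p r i j).indicator (fun _ => ENNReal.ofReal
          ((|(p i).1 - (p j).1| + (r i + r j)) * (2 * κ / r i) * (2 * κ / r j))) a) := by
        have e0 : ∫⁻ a in Set.Icc (-1:ℝ) 1, ∑ i, ∑ j, (Win p r i j).indicator (fun _ : ℝ =>
            ENNReal.ofReal ((|(p i).1 - (p j).1| + (r i + r j)) * (2 * κ / r i) *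
            (2 * κ / r j))) a = ∑ i, ∑ j, ∫⁻ a in Set.Icc (-1:ℝ) 1,
            (Win p r i j).indicator (fun _ : ℝ => ENNReal.ofReal
            ((|(p i).1 - (p j).1| + (r i + r j)) * (2 * κ / r i) * (2 * κ / r j))) a := by
          rw [lintegral_finsetSum]
          · apply sum_congr rfl; intro i _
            rw [lintegral_finsetSum]
            intro j _
            exact hW i j
          · intro i _
            exact Finset.measurable_sum _ fun j _ => hW i j
        rw [lintegral_add_left measurable_const, lintegral_const, Measure.restrict_apply_univ,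
          Real.volume_Icc, lintegral_const_mul _ (hWs.const_mul _), lintegral_const_mul _ hWs, e0]
        norm_num
    _ ≤ ENNReal.ofReal (lam * D) * 4 * ENNReal.ofReal 2 + ENNReal.ofReal (1 / lam) * (4 *
          ∑ i, ∑ j, ENNReal.ofReal (32 * κ ^ 2 * (1 / r i + 1 / r j))) := by
        gcongr with i _ j _
        exact h.win_le i j
    _ = ENNReal.ofReal (8 * (lam * D) + 256 * κ ^ 2 * (n * ∑ i, 1 / r i) / lam) := by
        have hpos : ∀ i j, 0 ≤ 32 * κ ^ 2 * (1 / r i + 1 / r j) := by
          intro i j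
          have := hr i
          have := hr j
          positivity
        have e1 : ∑ i, ∑ j, ENNReal.ofReal (32 * κ ^ 2 * (1 / r i + 1 / r j)) =
            ENNReal.ofReal (∑ i, ∑ j, 32 * κ ^ 2 * (1 / r i + 1 / r j)) := by
          rw [ENNReal.ofReal_sum_of_nonneg fun i _ => sum_nonneg fun j _ => hpos i j]
          apply sum_congr rfl; intro i _
          rw [ENNReal.ofReal_sum_of_nonneg fun j _ => hpos i j]
        have e2 : ∑ i, ∑ j, 32 * κ ^ 2 * (1 / r i + 1 / r j) =
            64 * κ ^ 2 * (n * ∑ i, 1 / r i) := by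
          have e3 : ∀ i, ∑ j, 32 * κ ^ 2 * (1 / r i + 1 / r j) =
              32 * κ ^ 2 * (n * (1 / r i) + ∑ j, 1 / r j) := by
            intro i
            rw [← mul_sum, sum_add_distrib, sum_const, card_univ, Fintype.card_fin, nsmul_eq_mul]
          simp_rw [e3]
          rw [← mul_sum, sum_add_distrib, ← mul_sum, sum_const, card_univ, Fintype.card_fin,
            nsmul_eq_mul]
          ring
        have hs : 0 ≤ ∑ i, ∑ j, 32 * κ ^ 2 * (1 / r i + 1 / r j) :=
          sum_nonneg fun i _ => sum_nonneg fun j _ => hpos i j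
        rw [e1, show (4:ℝ≥0∞) = ENNReal.ofReal 4 by norm_num, ← ENNReal.ofReal_mul (by positivity),
          ← ENNReal.ofReal_mul (by positivity), ← ENNReal.ofReal_mul (by norm_num),
          ← ENNReal.ofReal_mul (by positivity), ← ENNReal.ofReal_add (by positivity)
            (by positivity), e2]
        congr 1
        field_simp
        ring

/-- the bound for forward edges -/
lemma Noise.edges0_bound (k : ℕ) : ∫⁻ x, (edges0 x k : ℝ≥0∞) ∂law f ≤
    ENNReal.ofReal (8 * κ * √(32 * (n * ∑ i, D / r i))) := by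
  have hκ := h.kpos
  have hr := h.rpos
  rcases Nat.eq_zero_or_pos n with hn | hn
  · subst hn
    have : ∀ x : Fin 0 → ℝ × ℝ, (edges0 x k : ℝ≥0∞) = 0 := by
      intro x
      unfold edges0
      simp
    simp [this]
  · have : NeZero n := ⟨hn.ne'⟩
    have hD : 0 < D := by
      have h1 := (h.diam 0 0).1
      have h2 := hr 0
      have h3 := abs_nonneg ((p 0).1 - (p 0).1)
      linarith
    have hS : 0 < ∑ i, 1 / r i := sum_pos (fun i _ => by have := hr i; positivity) univ_nonempty
    have hnR : (0:ℝ) < n := by exact_mod_cast hn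
    set M := (n:ℝ) * ∑ i, 1 / r i with hM
    have hM0 : 0 < M := by positivity
    set lam := κ * √(32 * M / D) with hlam
    have hsq : 0 < √(32 * M / D) := Real.sqrt_pos.mpr (by positivity)
    have hl : 0 < lam := by positivity
    have h1 := h.edges0_bound' hl hD k
    have e1 : lam ^ 2 * D = 32 * κ ^ 2 * M := by
      rw [hlam, mul_pow, Real.sq_sqrt (by positivity)]
      field_simp
    have e2 : 256 * κ ^ 2 * M / lam = 8 * (lam * D) := by
      rw [div_eq_iff hl.ne']
      nlinarith
    have e3 : lam * D = κ * √(32 * (n * ∑ i, D / r i)) := by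
      have e4 : (n:ℝ) * ∑ i, D / r i = D * M := by
        have : ∀ i, D / r i = D * (1 / r i) := fun i => by ring
        simp_rw [this]
        rw [← mul_sum, hM]
        ring
      rw [hlam, e4, mul_assoc]
      congr 1
      have e5 : 32 * (D * M) = D ^ 2 * (32 * M / D) := by field_simp
      rw [e5, Real.sqrt_mul (by positivity), Real.sqrt_sq hD.le]
      ring
    rw [e2, e3] at h1
    have h2 : (8 * (κ * √(32 * (n * ∑ i, D / r i))) + 8 * (κ * √(32 * (n * ∑ i, D / r i)))) =
        2 * (8 * κ * √(32 * (n * ∑ i, D / r i))) := by ring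
    rw [h2, ENNReal.ofReal_mul (by norm_num), show ENNReal.ofReal 2 = 2 by norm_num] at h1
    exact (ENNReal.mul_le_mul_iff_right (by norm_num) (by norm_num)).mp h1

end

end Pool.Agent.K7.H26.SM
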