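import Pool.Agent.K7.H26.SM.Count

namespace Pool.Agent.K7.H26.SM

open MeasureTheory Finset Function
open scoped ENNReal

/-- the intercept of the line of slope `a` through `p` -/
def Z (a : ℝ) (p : ℝ × ℝ) : ℝ := p.2 - a * p.1

lemma measurable_Z (a : ℝ) : Measurable (Z a) := by unfold Z; fun_prop

open scoped Classical in
/-- the number of points strictly above the `i`-th one in the direction of slope `a` -/
noncomputable def rk {n : ℕ} (a : ℝ) (x : Fin n → ℝ × ℝ) (i : Fin n) : ℕ :=
  (univ.filter fun l => Z a (x i) < Z a (x l)).card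

lemma measurable_rk {n : ℕ} (a : ℝ) (i : Fin n) :
    Measurable (fun x : Fin n → ℝ × ℝ => rk a x i) := by
  classical
  unfold rk
  apply measurable_card (P := fun (x : Fin n → ℝ × ℝ) l => Z a (x i) < Z a (x l))
  intro l
  exact measurableSet_lt (f := fun x : Fin n → ℝ × ℝ => Z a (x i))
    (g := fun x : Fin n → ℝ × ℝ => Z a (x l))
    ((measurable_Z a).comp (measurable_pi_apply i)) ((measurable_Z a).comp (measurable_pi_apply l))

/-- the event that the rank of `i` is in the window -/
def W {n : ℕ} (k : ℕ) (a : ℝ) (i : Fin n) : Set (Fin n → ℝ × ℝ) :=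
  {x | k ≤ rk a x i + 1 ∧ rk a x i ≤ k + 2}

lemma measurableSet_W {n : ℕ} (k : ℕ) (a : ℝ) (i : Fin n) :
    MeasurableSet (W (n := n) k a i) := by
  have h := measurable_rk (n := n) a i
  have h2 : MeasurableSet {x : Fin n → ℝ × ℝ | k ≤ rk a x i + 1} :=
    measurableSet_le measurable_const (h.add_const 1)
  have h3 : MeasurableSet {x : Fin n → ℝ × ℝ | rk a x i ≤ k + 2} :=
    measurableSet_le h measurable_const
  exact h2.inter h3

lemma mem_W_of_Ev {n : ℕ} {k : ℕ} {a : ℝ} {i : Fin n} {x : Fin n → ℝ × ℝ} {z : ℝ × ℝ}
    (h : x ∈ Ev (n := n) k a (Z a z)) : update x i z ∈ W (n := n) k a i := by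
  classical
  have hset : (univ.filter fun l => a * (x l).1 + Z a z < (x l).2) =
      univ.filter fun l => Z a z < Z a (x l) := by
    apply filter_congr
    intro l _
    constructor
    · intro h1
      have : Z a (x l) = (x l).2 - a * (x l).1 := rfl
      linarith
    · intro h1
      have : Z a (x l) = (x l).2 - a * (x l).1 := rfl
      linarith
  obtain ⟨h1, h2⟩ := h
  unfold above at h1 h2
  rw [hset] at h1 h2
  have hrk : rk a (update x i z) i =
      (univ.filter fun l => Z a z < Z a (update x i z l)).card := by
    unfold rk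
    rw [update_self]
  have hsub : (univ.filter fun l => Z a z < Z a (update x i z l)) ⊆
      univ.filter fun l => Z a z < Z a (x l) := by
    intro l hl
    rw [mem_filter] at hl ⊢
    refine ⟨mem_univ _, ?_⟩
    by_cases hli : l = i
    · subst hli
      rw [update_self] at hl
      exact absurd hl.2 (lt_irrefl _)
    · rw [update_of_ne hli] at hl
      exact hl.2
  have hsub2 : (univ.filter fun l => Z a z < Z a (x l)) ⊆
      (univ.filter fun l => Z a z < Z a (update x i z l)) ∪ {i} := by
    intro l hl
    rw [mem_filter] at hl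
    rw [mem_union, mem_filter]
    by_cases hli : l = i
    · right; simp [hli]
    · left
      rw [update_of_ne hli]
      exact hl
  have c1 := card_le_card hsub
  have c2 := (card_le_card hsub2).trans (card_union_le _ _)
  rw [card_singleton] at c2
  constructor
  · rw [hrk]; omega
  · rw [hrk]; omega

lemma rk_inj {n : ℕ} {a : ℝ} {x : Fin n → ℝ × ℝ} (h : Injective (fun i => Z a (x i))) :
    Injective (rk a x) := by
  classical
  have key : ∀ i j, Z a (x i) < Z a (x j) → rk a x j < rk a x i := by
    intro i j hij
    unfold rk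
    apply card_lt_card
    rw [ssubset_iff_of_subset]
    · exact ⟨j, by simp [hij], by simp⟩
    · intro l hl
      rw [mem_filter] at hl ⊢
      exact ⟨mem_univ _, hij.trans hl.2⟩
  intro i j hij
  by_contra hne
  have hZ : Z a (x i) ≠ Z a (x j) := fun h1 => hne (h h1)
  rcases lt_or_gt_of_ne hZ with h1 | h1
  · have := key i j h1; omega
  · have := key j i h1; omega

open scoped Classical in
lemma card_W_le {n : ℕ} {k : ℕ} {a : ℝ} {x : Fin n → ℝ × ℝ}
    (h : Injective (fun i => Z a (x i))) :
    (univ.filter fun i => x ∈ W (n := n) k a i).card ≤ 4 := by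
  have h1 : (univ.filter fun i => x ∈ W (n := n) k a i).card ≤ (Icc (k - 1) (k + 2)).card := by
    apply card_le_card_of_injOn (rk a x)
    · intro i hi
      rw [mem_coe, mem_filter] at hi
      have := hi.2
      simp only [coe_Icc, Set.mem_Icc]
      obtain ⟨h1, h2⟩ := this
      constructor
      · omega
      · exact h2
    · intro i _ j _ hij
      exact rk_inj h hij
  refine h1.trans ?_
  rw [Nat.card_Icc]
  omega

section

variable {n : ℕ} (μ : Fin n → Measure (ℝ × ℝ)) [∀ i, IsProbabilityMeasure (μ i)]

lemma line_null (a c : ℝ) : (volume : Measure (ℝ × ℝ)) {z | Z a z = c} = 0 := by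
  have hm : MeasurableSet {z : ℝ × ℝ | Z a z = c} :=
    (measurable_Z a) (measurableSet_singleton c)
  rw [Measure.volume_eq_prod, Measure.measure_prod_null hm]
  filter_upwards with x
  have : (Prod.mk x ⁻¹' {z : ℝ × ℝ | Z a z = c}) = {c + a * x} := by
    ext y
    simp only [Set.mem_preimage, Set.mem_ofPred_eq, Set.mem_singleton_iff, Z]
    constructor <;> intro h <;> linarith
  rw [this]
  simp

lemma ae_inj (hac : ∀ i, μ i ≪ volume) (a : ℝ) :
    ∀ᵐ x ∂Measure.pi μ, Injective (fun i => Z a (x i)) := by
  have key : ∀ i j : Fin n, i ≠ j → ∀ᵐ x ∂Measure.pi μ, Z a (x i) ≠ Z a (x j) := by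
    intro i j hij
    rw [ae_iff]
    simp only [ne_eq, not_not]
    set E : Set (Fin n → ℝ × ℝ) := {x | Z a (x i) = Z a (x j)} with hE
    have hEm : MeasurableSet E :=
      measurableSet_eq_fun ((measurable_Z a).comp (measurable_pi_apply i))
        ((measurable_Z a).comp (measurable_pi_apply j))
    rw [← lintegral_indicator_one hEm, lintegral_update μ (measurable_one.indicator hEm) i]
    have : ∀ x : Fin n → ℝ × ℝ, ∫⁻ z, E.indicator 1 (update x i z) ∂μ i = (0:ℝ≥0∞) := by
      intro x
      have e : (fun z => E.indicator (1 : (Fin n → ℝ × ℝ) → ℝ≥0∞) (update x i z)) =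
          {z | Z a z = Z a (x j)}.indicator 1 := by
        funext z
        by_cases hz : Z a z = Z a (x j)
        · rw [Set.indicator_of_mem, Set.indicator_of_mem]
          · rfl
          · exact hz
          · rw [hE]
            simp only [Set.mem_ofPred_eq]
            rw [update_self, update_of_ne hij.symm]
            exact hz
        · rw [Set.indicator_of_notMem, Set.indicator_of_notMem]
          · exact hz
          · rw [hE]
            simp only [Set.mem_ofPred_eq]
            rw [update_self, update_of_ne hij.symm]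
            exact hz
      have hm : MeasurableSet {z : ℝ × ℝ | Z a z = Z a (x j)} :=
        (measurable_Z a) (measurableSet_singleton _)
      rw [e, lintegral_indicator_one hm]
      exact hac i (line_null a _)
    simp [this]
  have h2 : ∀ᵐ x ∂Measure.pi μ, ∀ i j : Fin n, i ≠ j → Z a (x i) ≠ Z a (x j) := by
    rw [ae_all_iff]; intro i
    rw [ae_all_iff]; intro j
    by_cases hij : i = j
    · filter_upwards with x h; exact absurd hij h
    · filter_upwards [key i j hij] with x hx _; exact hx
  filter_upwards [h2] with x hx i j hij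
  by_contra hne
  exact hx i j hne hij

/-- the rank bound -/
lemma rank_bound (hac : ∀ i, μ i ≪ volume) (k : ℕ) (a : ℝ) :
    ∑ i, ∫⁻ z, Pk μ k a (Z a z) ∂μ i ≤ 4 := by
  classical
  have step : ∀ i, ∫⁻ z, Pk μ k a (Z a z) ∂μ i ≤
      ∫⁻ x, (W (n := n) k a i).indicator 1 x ∂Measure.pi μ := by
    intro i
    have hWm : Measurable ((W (n := n) k a i).indicator (1 : (Fin n → ℝ × ℝ) → ℝ≥0∞)) :=
      measurable_one.indicator (measurableSet_W k a i)
    have hup1 : Measurable (fun q : (Fin n → ℝ × ℝ) × (ℝ × ℝ) => update q.1 i q.2) := by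
      rw [measurable_pi_iff]
      intro l
      by_cases hlj : l = i
      · subst hlj
        simp only [update_self]
        fun_prop
      · simp only [update_of_ne hlj]
        fun_prop
    rw [lintegral_update μ hWm i, lintegral_lintegral_swap]
    · apply lintegral_mono
      intro z
      dsimp only
      rw [Pk_eq]
      apply lintegral_mono
      intro x
      dsimp only
      by_cases hx : x ∈ Ev (n := n) k a (Z a z)
      · rw [Set.indicator_of_mem hx, Set.indicator_of_mem (mem_W_of_Ev hx)]
        rfl
      · rw [Set.indicator_of_notMem hx]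
        exact zero_le
    · exact (hWm.comp hup1).aemeasurable
  calc ∑ i, ∫⁻ z, Pk μ k a (Z a z) ∂μ i
      ≤ ∑ i, ∫⁻ x, (W (n := n) k a i).indicator 1 x ∂Measure.pi μ := sum_le_sum fun i _ => step i
    _ = ∫⁻ x, ∑ i, (W (n := n) k a i).indicator 1 x ∂Measure.pi μ := by
        rw [lintegral_finsetSum]
        intro i _
        exact measurable_one.indicator (measurableSet_W k a i)
    _ ≤ ∫⁻ _, 4 ∂Measure.pi μ := by
        apply lintegral_mono_ae
        filter_upwards [ae_inj μ hac a] with x hx
        have h1 : ∑ i, (W (n := n) k a i).indicator (1 : (Fin n → ℝ × ℝ) → ℝ≥0∞) x =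
            ((univ.filter fun i => x ∈ W (n := n) k a i).card : ℝ≥0∞) := by
          rw [card_filter]
          push_cast
          apply sum_congr rfl
          intro i _
          rw [Set.indicator_apply]
          rfl
        rw [h1]
        exact_mod_cast card_W_le hx
    _ = 4 := by simp

end

end Pool.Agent.K7.H26.SM
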