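import Pool.Agent.K7.H26.SM.Final

namespace Pool.Agent.K7.H26.SM

open MeasureTheory Finset Function
open scoped ENNReal

lemma orient_diff {p q s p' q' s' : ℝ × ℝ} {D r : ℝ} (hr : 0 ≤ r)
    (h1 : |q.1 - p.1| ≤ D) (h2 : |q.2 - p.2| ≤ D) (h3 : |s.1 - p.1| ≤ D) (h4 : |s.2 - p.2| ≤ D)
    (hp : |p'.1 - p.1| ≤ r ∧ |p'.2 - p.2| ≤ r) (hq : |q'.1 - q.1| ≤ r ∧ |q'.2 - q.2| ≤ r)
    (hs : |s'.1 - s.1| ≤ r ∧ |s'.2 - s.2| ≤ r) :
    |orient p' q' s' - orient p q s| ≤ 8 * D * r + 8 * r ^ 2 := by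
  have hD : 0 ≤ D := (abs_nonneg _).trans h1
  set d1 := (q'.1 - q.1) - (p'.1 - p.1) with hd1
  set d2 := (q'.2 - q.2) - (p'.2 - p.2) with hd2
  set e1 := (s'.1 - s.1) - (p'.1 - p.1) with he1
  set e2 := (s'.2 - s.2) - (p'.2 - p.2) with he2
  have b1 : |d1| ≤ 2 * r := (abs_sub _ _).trans (by linarith [hq.1, hp.1])
  have b2 : |d2| ≤ 2 * r := (abs_sub _ _).trans (by linarith [hq.2, hp.2])
  have b3 : |e1| ≤ 2 * r := (abs_sub _ _).trans (by linarith [hs.1, hp.1])
  have b4 : |e2| ≤ 2 * r := (abs_sub _ _).trans (by linarith [hs.2, hp.2])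
  have e : orient p' q' s' - orient p q s =
      ((q.1 - p.1) * e2 + d1 * (s.2 - p.2) + d1 * e2) -
      ((q.2 - p.2) * e1 + d2 * (s.1 - p.1) + d2 * e1) := by
    unfold orient
    rw [hd1, hd2, he1, he2]
    ring
  have m : ∀ {x y X Y : ℝ}, 0 ≤ X → |x| ≤ X → |y| ≤ Y → |x * y| ≤ X * Y := by
    intro x y X Y hX hx hy
    rw [abs_mul]
    exact mul_le_mul hx hy (abs_nonneg _) hX
  have c1 := m hD h1 b4
  have c2 := m (by linarith) b1 h4
  have c3 := m (by linarith) b1 b4
  have c4 := m hD h2 b3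
  have c5 := m (by linarith) b2 h3
  have c6 := m (by linarith) b2 b3
  rw [e]
  refine (abs_sub _ _).trans ?_
  have f1 := abs_add_three ((q.1 - p.1) * e2) (d1 * (s.2 - p.2)) (d1 * e2)
  have f2 := abs_add_three ((q.2 - p.2) * e1) (d2 * (s.1 - p.1)) (d2 * e1)
  nlinarith

section

variable {n : ℕ}

open scoped Classical in
/-- the `k`-edges all of whose triangles are large -/
noncomputable def fat (p : Fin n → ℝ × ℝ) (k : ℕ) (A : ℝ) : Finset (Fin n × Fin n) :=
  univ.filter fun ij => p ij.1 ≠ p ij.2 ∧ left p (p ij.1) (p ij.2) = k ∧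
    ∀ l, l ≠ ij.1 → l ≠ ij.2 → A ≤ |orient (p ij.1) (p ij.2) (p l)|

lemma robust_box (p : Fin n → ℝ × ℝ) (k : ℕ) {D r A : ℝ} (hr : 0 < r)
    (hD : ∀ i j, |(p i).1 - (p j).1| ≤ D ∧ |(p i).2 - (p j).2| ≤ D)
    (hA : 8 * D * r + 8 * r ^ 2 < A) :
    ((fat p k A).card : ℝ) ≤ 43 * √(n * (min (k + 1) (n - 1 - k) : ℕ)) *
      ((D + 2 * r) / r) ^ (1 / 4 : ℝ) := by
  classical
  rcases Nat.eq_zero_or_pos n with hn0 | hn0
  · subst hn0
    have : fat p k A = ∅ := by
      unfold fat
      rw [filter_eq_empty_iff]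
      rintro ⟨i, -⟩
      exact i.elim0
    rw [this]
    simp
  have hD0 : 0 ≤ D := (abs_nonneg _).trans (hD ⟨0, hn0⟩ ⟨0, hn0⟩).1
  have h : Noise (fun i => unif (p i) r) p (fun _ => r) (1 / 4) (D + 2 * r) :=
    noise_unif p (fun _ => r) (fun _ => hr) (fun i j => by
      obtain ⟨h1, h2⟩ := hD i j
      constructor <;> linarith)
  have := h.prob
  have hprob : IsProbabilityMeasure (law fun i => unif (p i) r) := by
    unfold law; infer_instance
  have h1 := h.edges_main k
  have hgood : ∀ᵐ x ∂law (fun i => unif (p i) r), (Injective x ∧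
    ∀ i j l : Fin n, l ≠ i → l ≠ j → x i ≠ x j → orient (x i) (x j) (x l) ≠ 0) ∧
    ∀ i, unif (p i) r (x i) ≠ 0 := h.ae_good.and h.ae_supp
  have hmeas : AEMeasurable (fun x : Fin n → ℝ × ℝ => (edges x k : ℝ≥0∞))
      (law fun i => unif (p i) r) :=
    (measurable_from_top.comp (measurable_edges k)).aemeasurable
  obtain ⟨x, hx, hle⟩ := exists_notMem_null_le_lintegral hmeas (ae_iff.mp hgood)
  rw [Set.mem_ofPred_eq, not_not] at hx
  have hsupp : ∀ i, |(x i).1 - (p i).1| ≤ r ∧ |(x i).2 - (p i).2| ≤ r :=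
    fun i => unif_supp (hx.2 i)
  have h2 := hle.trans h1
  have hnR : (0:ℝ) < n := by exact_mod_cast hn0
  have e1 : √(1 / 4 : ℝ) = 1 / 2 := by
    rw [show (1 / 4 : ℝ) = (1 / 2) ^ 2 by norm_num, Real.sqrt_sq (by norm_num)]
  have e2 : (∑ _i : Fin n, (D + 2 * r) / r) / n = (D + 2 * r) / r := by
    rw [sum_const, card_univ, Fintype.card_fin, nsmul_eq_mul]
    field_simp
  have hb0 : 0 ≤ 86 * √(1 / 4) * √((n:ℝ) * (min (k + 1) (n - 1 - k) : ℕ)) *
      ((∑ _i : Fin n, (D + 2 * r) / r) / n) ^ (1 / 4 : ℝ) := by positivity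
  have h3 : (edges x k : ℝ) ≤ 86 * √(1 / 4) * √((n:ℝ) * (min (k + 1) (n - 1 - k) : ℕ)) *
      ((∑ _i : Fin n, (D + 2 * r) / r) / n) ^ (1 / 4 : ℝ) := by
    rw [← ENNReal.ofReal_natCast] at h2
    exact (ENNReal.ofReal_le_ofReal_iff hb0).mp h2
  rw [e1, e2] at h3
  have h4 : (fat p k A).card ≤ edges x k := by
    unfold edges
    apply card_le_card
    intro ij hij
    unfold fat at hij
    rw [mem_filter] at hij ⊢
    obtain ⟨-, hne, hl, hfat⟩ := hij
    have hij' : ij.1 ≠ ij.2 := fun h => hne (by rw [h])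
    refine ⟨mem_univ _, fun h => hij' (hx.1.1 h), ?_⟩
    rw [← hl]
    unfold left
    congr 1
    apply filter_congr
    intro l _
    by_cases hl1 : l = ij.1
    · rw [hl1]
      have : ∀ a b : ℝ × ℝ, orient a b a = 0 := by intro a b; unfold orient; ring
      rw [this, this]
    by_cases hl2 : l = ij.2
    · rw [hl2]
      have : ∀ a b : ℝ × ℝ, orient a b b = 0 := by intro a b; unfold orient; ring
      rw [this, this]
    have hf := hfat l hl1 hl2
    have hd := orient_diff (p := p ij.1) (q := p ij.2) (s := p l) (p' := x ij.1) (q' := x ij.2)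
      (s' := x l) hr.le (hD ij.2 ij.1).1 (hD ij.2 ij.1).2 (hD l ij.1).1 (hD l ij.1).2
      (hsupp ij.1) (hsupp ij.2) (hsupp l)
    have hd' := abs_le.mp (hd.trans hA.le)
    have hlt : |orient (x ij.1) (x ij.2) (x l) - orient (p ij.1) (p ij.2) (p l)| < A :=
      hd.trans_lt hA
    rw [abs_lt] at hlt
    rcases le_abs.mp hf with h | h
    · constructor
      · intro _; linarith [hlt.1, hlt.2]
      · intro _; linarith [hlt.1, hlt.2]
    · constructor
      · intro _; linarith [hlt.1, hlt.2]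
      · intro _; linarith [hlt.1, hlt.2]
  calc ((fat p k A).card : ℝ) ≤ edges x k := by exact_mod_cast h4
    _ ≤ _ := h3
    _ = 43 * √((n:ℝ) * (min (k + 1) (n - 1 - k) : ℕ)) * ((D + 2 * r) / r) ^ (1 / 4 : ℝ) := by ring

/-- the affine invariant form -/
theorem robust (p : Fin n → ℝ × ℝ) (k : ℕ) {V A : ℝ} (hA : 0 < A) (hAV : A ≤ V)
    (hV : ∀ i j l, orient (p i) (p j) (p l) ≤ V) :
    ((fat p k A).card : ℝ) ≤ 108 * √(n * (min (k + 1) (n - 1 - k) : ℕ)) *
      (V / A) ^ (1 / 4 : ℝ) := by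
  classical
  have hV0 : 0 < V := hA.trans_le hAV
  have hVA : 1 ≤ (V / A) ^ (1 / 4 : ℝ) :=
    Real.one_le_rpow (by rw [le_div_iff₀ hA]; linarith) (by norm_num)
  by_cases hfat : fat p k A = ∅
  · rw [hfat, card_empty, Nat.cast_zero]
    positivity
  obtain ⟨e₀, he₀⟩ := nonempty_iff_ne_empty.mpr hfat
  by_cases hn3 : n < 3
  · -- at most two points
    have hk : ∀ e ∈ fat p k A, e.1 ≠ e.2 ∧ left p (p e.1) (p e.2) = k := by
      intro e he
      unfold fat at he
      rw [mem_filter] at he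
      exact ⟨fun h => he.2.1 (by rw [h]), he.2.2.1⟩
    obtain ⟨h1, h2⟩ := hk e₀ he₀
    have hn2 : n = 2 := by
      have a1 := e₀.1.2
      have a2 := e₀.2.2
      have a3 : e₀.1.1 ≠ e₀.2.1 := fun h => h1 (Fin.ext h)
      omega
    subst hn2
    have hk0 : k = 0 := by
      rw [← h2]
      unfold left
      rw [card_eq_zero, filter_eq_empty_iff]
      intro l _
      have : l = e₀.1 ∨ l = e₀.2 := by
        have a1 := e₀.1.2
        have a2 := e₀.2.2
        have a3 : e₀.1.1 ≠ e₀.2.1 := fun h => h1 (Fin.ext h)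
        have a4 := l.2
        by_contra hcon
        push Not at hcon
        have a5 : l.1 ≠ e₀.1.1 := fun h => hcon.1 (Fin.ext h)
        have a6 : l.1 ≠ e₀.2.1 := fun h => hcon.2 (Fin.ext h)
        omega
      rcases this with h | h
      · rw [h]; unfold orient; simp
      · rw [h]; unfold orient; apply not_lt.mpr; apply le_of_eq; ring
    subst hk0
    have hc : (fat p 0 A).card ≤ 4 := by
      refine (card_le_univ _).trans ?_
      simp
    have hc' : ((fat p 0 A).card : ℝ) ≤ 4 := by exact_mod_cast hc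
    refine hc'.trans ?_
    have hs : (1:ℝ) ≤ √(((2 : ℕ) : ℝ) * (min (0 + 1) (2 - 1 - 0) : ℕ)) := by
      rw [Real.one_le_sqrt]
      norm_num
    have hp := mul_le_mul hs hVA zero_le_one (by positivity)
    rw [mul_assoc 108]
    linarith
  push Not at hn3
  have : NeZero n := ⟨by omega⟩
  -- the largest triangle
  obtain ⟨T, -, hT⟩ := exists_max_image (univ : Finset (Fin n × Fin n × Fin n))
    (fun T => orient (p T.1) (p T.2.1) (p T.2.2)) ⟨(0, 0, 0), mem_univ _⟩
  set a := p T.1 with ha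
  set b := p T.2.1 with hb
  set c := p T.2.2 with hc
  set V₀ := orient a b c with hV₀
  have hle : ∀ i j l, orient (p i) (p j) (p l) ≤ V₀ := fun i j l => hT (i, j, l) (mem_univ _)
  have habs : ∀ i j l, |orient (p i) (p j) (p l)| ≤ V₀ := by
    intro i j l
    rw [abs_le]
    refine ⟨?_, hle i j l⟩
    have := hle j i l
    rw [orient_swap (p i) (p j) (p l)] at this
    linarith
  have hV₀V : V₀ ≤ V := hV _ _ _
  -- a third point
  have hAV₀ : A ≤ V₀ := by
    unfold fat at he₀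
    rw [mem_filter] at he₀
    obtain ⟨-, -, -, h3⟩ := he₀
    obtain ⟨l, hl⟩ : ∃ l : Fin n, l ≠ e₀.1 ∧ l ≠ e₀.2 := by
      by_contra hcon
      push Not at hcon
      have : (univ : Finset (Fin n)) ⊆ {e₀.1, e₀.2} := by
        intro l _
        rw [mem_insert, mem_singleton]
        by_cases hl : l = e₀.1
        · exact Or.inl hl
        · exact Or.inr (hcon l hl)
      have := card_le_card this
      rw [card_univ, Fintype.card_fin] at this
      have := this.trans card_le_two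
      omega
    exact (h3 l hl.1 hl.2).trans (habs _ _ _)
  have hV₀0 : 0 < V₀ := hA.trans_le hAV₀
  -- the affine map
  set φ : ℝ × ℝ → ℝ × ℝ := fun z => (orient a z c / V₀, orient a b z / V₀) with hφ
  have hφo : ∀ x y z, orient (φ x) (φ y) (φ z) = orient x y z / V₀ := by
    intro x y z
    have : orient (φ x) (φ y) (φ z) = orient x y z * orient a b c / V₀ ^ 2 := by
      rw [hφ]
      unfold orient
      field_simp
      ring
    rw [this, ← hV₀]
    field_simp
  set y : Fin n → ℝ × ℝ := fun i => φ (p i) with hy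
  have hinj : ∀ i j, p i ≠ p j → y i ≠ y j := by
    intro i j hij he
    apply hij
    -- the coordinates determine the point
    have e1 : orient a (p i) c = orient a (p j) c := by
      have := congrArg Prod.fst he
      simp only [hy, hφ] at this
      field_simp at this
      linarith
    have e2 : orient a b (p i) = orient a b (p j) := by
      have := congrArg Prod.snd he
      simp only [hy, hφ] at this
      field_simp at this
      linarith
    have f1 : ((p i).1 - (p j).1) * V₀ = 0 := by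
      have : ((p i).1 - (p j).1) * V₀ = (b.1 - a.1) * (orient a (p i) c - orient a (p j) c) +
          (c.1 - a.1) * (orient a b (p i) - orient a b (p j)) := by
        rw [hV₀]; unfold orient; ring
      rw [this, e1, e2]; ring
    have f2 : ((p i).2 - (p j).2) * V₀ = 0 := by
      have : ((p i).2 - (p j).2) * V₀ = (b.2 - a.2) * (orient a (p i) c - orient a (p j) c) +
          (c.2 - a.2) * (orient a b (p i) - orient a b (p j)) := by
        rw [hV₀]; unfold orient; ring
      rw [this, e1, e2]; ring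
    have g1 := (mul_eq_zero.mp f1).resolve_right hV₀0.ne'
    have g2 := (mul_eq_zero.mp f2).resolve_right hV₀0.ne'
    exact Prod.ext (by linarith) (by linarith)
  have hsub : fat p k A ⊆ fat y k (A / V₀) := by
    intro ij hij
    unfold fat at hij ⊢
    rw [mem_filter] at hij ⊢
    obtain ⟨-, h1, h2, h3⟩ := hij
    refine ⟨mem_univ _, hinj _ _ h1, ?_, ?_⟩
    · rw [← h2]
      unfold left
      congr 1
      apply filter_congr
      intro l _
      rw [hy]
      simp only
      rw [hφo]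
      exact div_pos_iff_of_pos_right hV₀0
    · intro l hl1 hl2
      rw [hy]
      simp only
      rw [hφo, abs_div, abs_of_pos hV₀0]
      exact div_le_div_of_nonneg_right (h3 l hl1 hl2) hV₀0.le
  have hcoord : ∀ i, |(y i).1| ≤ 1 ∧ |(y i).2| ≤ 1 := by
    intro i
    simp only [hy, hφ]
    constructor
    · rw [abs_div, abs_of_pos hV₀0, div_le_one hV₀0]
      exact habs T.1 i T.2.2
    · rw [abs_div, abs_of_pos hV₀0, div_le_one hV₀0]
      exact habs T.1 T.2.1 i
  have hD : ∀ i j, |(y i).1 - (y j).1| ≤ 2 ∧ |(y i).2 - (y j).2| ≤ 2 := by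
    intro i j
    have h1 := hcoord i
    have h2 := hcoord j
    constructor
    · exact (abs_sub _ _).trans (by linarith [h1.1, h2.1])
    · exact (abs_sub _ _).trans (by linarith [h1.2, h2.2])
  set A' := A / V₀ with hA'
  have hA'0 : 0 < A' := by positivity
  have hA'1 : A' ≤ 1 := by rw [hA', div_le_one hV₀0]; exact hAV₀
  have hbox := robust_box y k (D := 2) (r := A' / 18) (A := A') (by positivity) hD (by
    nlinarith)
  have hX : ((2 + 2 * (A' / 18)) / (A' / 18)) ^ (1 / 4 : ℝ) ≤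
      5 / 2 * (V / A) ^ (1 / 4 : ℝ) := by
    have h1 : (2 + 2 * (A' / 18)) / (A' / 18) ≤ (5 / 2) ^ 4 * (V / A) := by
      have h2 : 1 / A' ≤ V / A := by
        rw [hA', one_div_div]
        exact div_le_div_of_nonneg_right hV₀V hA.le
      have h3 : (2 + 2 * (A' / 18)) / (A' / 18) = 36 * (1 / A') + 2 := by
        field_simp
        ring
      have h4 : 1 ≤ 1 / A' := by rw [le_div_iff₀ hA'0]; linarith
      rw [h3]
      norm_num
      norm_num at h2 h4
      linarith
    calc ((2 + 2 * (A' / 18)) / (A' / 18)) ^ (1 / 4 : ℝ)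
        ≤ ((5 / 2) ^ 4 * (V / A)) ^ (1 / 4 : ℝ) :=
          Real.rpow_le_rpow (by positivity) h1 (by norm_num)
      _ = 5 / 2 * (V / A) ^ (1 / 4 : ℝ) := by
          rw [Real.mul_rpow (by positivity) (by positivity), ← Real.rpow_natCast,
            ← Real.rpow_mul (by norm_num)]
          norm_num
  have hcard : ((fat p k A).card : ℝ) ≤ (fat y k A').card := by
    exact_mod_cast card_le_card hsub
  have hs0 : 0 ≤ √((n:ℝ) * (min (k + 1) (n - 1 - k) : ℕ)) := Real.sqrt_nonneg _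
  calc ((fat p k A).card : ℝ) ≤ (fat y k A').card := hcard
    _ ≤ 43 * √((n:ℝ) * (min (k + 1) (n - 1 - k) : ℕ)) *
        ((2 + 2 * (A' / 18)) / (A' / 18)) ^ (1 / 4 : ℝ) := hbox
    _ ≤ 43 * √((n:ℝ) * (min (k + 1) (n - 1 - k) : ℕ)) * (5 / 2 * (V / A) ^ (1 / 4 : ℝ)) :=
        mul_le_mul_of_nonneg_left hX (by positivity)
    _ ≤ 108 * √((n:ℝ) * (min (k + 1) (n - 1 - k) : ℕ)) * (V / A) ^ (1 / 4 : ℝ) := by
        have : 0 ≤ √((n:ℝ) * (min (k + 1) (n - 1 - k) : ℕ)) * (V / A) ^ (1 / 4 : ℝ) := by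
          positivity
        nlinarith

open scoped Classical in
lemma robust_bisectors' {x : Fin n → ℝ × ℝ} (hx : Injective x)
    (hP : GeneralPosition (univ.image x)) {V A : ℝ} (hA : 0 < A) (hAV : A ≤ V)
    (hV : ∀ p ∈ univ.image x, ∀ q ∈ univ.image x, ∀ s ∈ univ.image x, |orient p q s| ≤ V) :
    ({L | IsBisector (univ.image x) L ∧ ∀ p ∈ univ.image x, ∀ q ∈ univ.image x,
      ∀ s ∈ univ.image x, p ∈ L → q ∈ L → p ≠ q → s ∉ L → A ≤ |orient p q s|}.ncard : ℝ) ≤
      39 * n * (V / A) ^ (1 / 4 : ℝ) := by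
  have hmem : ∀ i, x i ∈ univ.image x := fun i => mem_image_of_mem x (mem_univ i)
  have hVA : 0 < V / A := div_pos (hA.trans_le hAV) hA
  have hVA' : 0 < (V / A) ^ (1 / 4 : ℝ) := Real.rpow_pos_of_pos hVA _
  set k := n / 2 - 1 with hk
  set B := {L | IsBisector (univ.image x) L ∧ ∀ p ∈ univ.image x, ∀ q ∈ univ.image x,
      ∀ s ∈ univ.image x, p ∈ L → q ∈ L → p ≠ q → s ∉ L → A ≤ |orient p q s|} with hB
  have key : ∀ L ∈ B, ∃ i j : Fin n, i < j ∧ L = {z | orient (x i) (x j) z = 0} ∧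
      (i, j) ∈ fat x k A ∧ (j, i) ∈ fat x k A := by
    rintro L ⟨hL, hfat⟩
    obtain ⟨i, j, hij, hi, hj, hLe, l1, l2⟩ := bis_pair hx hL
    have hne : x i ≠ x j := fun h => hij.ne (hx h)
    have hout : ∀ l, l ≠ i → l ≠ j → x l ∉ L := by
      intro l hl1 hl2 hlL
      rw [hLe] at hlL
      obtain ⟨a, b, c, hab, hLe2, -, -⟩ := hL
      refine hP a b c hab (x i) (hmem i) (x j) (hmem j) (x l) (hmem l) hne
        (fun h => hl1 (hx h).symm) (fun h => hl2 (hx h).symm) ⟨?_, ?_, ?_⟩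
      · rw [← hLe2]; exact hi
      · rw [← hLe2]; exact hj
      · rw [← hLe2, hLe]; exact hlL
    refine ⟨i, j, hij, hLe, ?_, ?_⟩
    · unfold fat
      rw [mem_filter]
      exact ⟨mem_univ _, hne, l1, fun l h1 h2 => hfat _ (hmem i) _ (hmem j) _ (hmem l) hi hj hne
        (hout l h1 h2)⟩
    · unfold fat
      rw [mem_filter]
      exact ⟨mem_univ _, hne.symm, l2, fun l h1 h2 => hfat _ (hmem j) _ (hmem i) _ (hmem l) hj hi
        hne.symm (hout l h2 h1)⟩
  rcases Nat.eq_zero_or_pos n with hn0 | hn0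
  · have hBe : B = ∅ := by
      ext L
      simp only [Set.mem_empty_iff_false, iff_false]
      intro hL
      obtain ⟨i, -⟩ := key L hL
      exact absurd i.2 (by omega)
    rw [hBe, Set.ncard_empty, Nat.cast_zero]
    exact mul_nonneg (by positivity) hVA'.le
  have : Nonempty (Fin n) := ⟨⟨0, hn0⟩⟩
  choose! I J hIJ using key
  set Ep := (fat x k A).filter fun ij => ij.1 < ij.2 with hEp
  set Em := (fat x k A).filter fun ij => ij.2 < ij.1 with hEm
  have hinj : Set.InjOn (fun L => (I L, J L)) B := by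
    intro L hL L' hL' h
    simp only [Prod.mk.injEq] at h
    rw [(hIJ L hL).2.1, (hIJ L' hL').2.1, h.1, h.2]
  have hinj' : Set.InjOn (fun L => (J L, I L)) B := by
    intro L hL L' hL' h
    simp only [Prod.mk.injEq] at h
    rw [(hIJ L hL).2.1, (hIJ L' hL').2.1, h.1, h.2]
  have c1 : B.ncard ≤ Ep.card := by
    rw [← Set.ncard_coe_finset]
    apply Set.ncard_le_ncard_of_injOn _ _ hinj (finite_toSet _)
    intro L hL
    obtain ⟨a1, a2, a3, a4⟩ := hIJ L hL
    rw [mem_coe, hEp, mem_filter]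
    exact ⟨a3, a1⟩
  have c2 : B.ncard ≤ Em.card := by
    rw [← Set.ncard_coe_finset]
    apply Set.ncard_le_ncard_of_injOn _ _ hinj' (finite_toSet _)
    intro L hL
    obtain ⟨a1, a2, a3, a4⟩ := hIJ L hL
    rw [mem_coe, hEm, mem_filter]
    exact ⟨a4, a1⟩
  have c3 : Ep.card + Em.card ≤ (fat x k A).card := by
    rw [← card_union_of_disjoint]
    · exact card_le_card (union_subset (filter_subset _ _) (filter_subset _ _))
    · rw [disjoint_left]
      intro ij h1 h2
      rw [hEp, mem_filter] at h1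
      rw [hEm, mem_filter] at h2
      exact lt_asymm h1.2 h2.2
  have h1 := robust x k hA hAV (fun i j l => (le_abs_self _).trans
    (hV _ (hmem i) _ (hmem j) _ (hmem l)))
  set X := (V / A) ^ (1 / 4 : ℝ) with hX
  have hX0 : 0 ≤ X := hVA'.le
  have h2 : (2:ℝ) * B.ncard ≤ (fat x k A).card := by
    have : 2 * B.ncard ≤ (fat x k A).card := by omega
    exact_mod_cast this
  set m := min (k + 1) (n - 1 - k) with hm
  have hm2 : (m:ℝ) ≤ n / 2 := by
    have : 2 * m ≤ n := by omega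
    have h2 : (2:ℝ) * m ≤ n := by exact_mod_cast this
    linarith
  have hs : √((n:ℝ) * m) ≤ 78 / 108 * n := by
    apply Real.sqrt_le_iff.mpr
    refine ⟨by positivity, ?_⟩
    have h5 : (n:ℝ) * m ≤ n * (n / 2) := mul_le_mul_of_nonneg_left hm2 (Nat.cast_nonneg _)
    nlinarith [sq_nonneg (n:ℝ)]
  have h6 : √((n:ℝ) * m) * X ≤ 78 / 108 * n * X := mul_le_mul_of_nonneg_right hs hX0
  have e : 108 * √((n:ℝ) * m) * X = 108 * (√((n:ℝ) * m) * X) := by ring
  rw [e] at h1
  linarith

open scoped Classical in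
/-- the bisectors all of whose triangles are large -/
theorem robust_bisectors {P : Finset (ℝ × ℝ)} (hP : GeneralPosition P) {V A : ℝ} (hA : 0 < A)
    (hAV : A ≤ V) (hV : ∀ p ∈ P, ∀ q ∈ P, ∀ s ∈ P, |orient p q s| ≤ V) :
    ({L | IsBisector P L ∧ ∀ p ∈ P, ∀ q ∈ P, ∀ s ∈ P, p ∈ L → q ∈ L → p ≠ q → s ∉ L →
      A ≤ |orient p q s|}.ncard : ℝ) ≤ 39 * P.card * (V / A) ^ (1 / 4 : ℝ) := by
  obtain ⟨x, hx, hxP⟩ : ∃ x : Fin P.card → ℝ × ℝ, Injective x ∧ univ.image x = P := by
    refine ⟨fun i => (P.equivFin.symm i : ℝ × ℝ), ?_, ?_⟩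
    · exact Subtype.val_injective.comp P.equivFin.symm.injective
    · ext z
      rw [mem_image]
      constructor
      · rintro ⟨i, -, rfl⟩
        exact (P.equivFin.symm i).2
      · intro hz
        exact ⟨P.equivFin ⟨z, hz⟩, mem_univ _, by simp⟩
  have h := robust_bisectors' hx (by rw [hxP]; exact hP) hA hAV (by rw [hxP]; exact hV)
  rw [hxP] at h
  exact h

end

end Pool.Agent.K7.H26.SM
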