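import Pool.Agent.K7.H26.SM.Main

namespace Pool.Agent.K7.H26.SM

open MeasureTheory Finset Function
open scoped ENNReal

/-- rotation by a right angle -/
def R (z : ℝ × ℝ) : ℝ × ℝ := (-z.2, z.1)

/-- the inverse rotation -/
def S (z : ℝ × ℝ) : ℝ × ℝ := (z.2, -z.1)

lemma S_R (z : ℝ × ℝ) : S (R z) = z := by simp [S, R]

lemma R_S (z : ℝ × ℝ) : R (S z) = z := by simp [S, R]

lemma measurable_R : Measurable R := by unfold R; fun_prop

lemma measurable_S : Measurable S := by unfold S; fun_prop

lemma orient_R (p q s : ℝ × ℝ) : orient (R p) (R q) (R s) = orient p q s := by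
  unfold orient R; ring

lemma left_R {n : ℕ} (x : Fin n → ℝ × ℝ) (p q : ℝ × ℝ) :
    left (fun i => R (x i)) (R p) (R q) = left x p q := by
  unfold left
  simp only [orient_R]

lemma mp_S : MeasurePreserving S (volume : Measure (ℝ × ℝ)) volume := by
  have h1 : MeasurePreserving (Prod.swap : ℝ × ℝ → ℝ × ℝ) volume volume := by
    rw [Measure.volume_eq_prod]
    exact Measure.measurePreserving_swap
  have h2 : MeasurePreserving (Prod.map (id : ℝ → ℝ) (fun x : ℝ => -x)) volume
      (volume : Measure (ℝ × ℝ)) := by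
    rw [Measure.volume_eq_prod]
    exact (MeasurePreserving.id volume).prod (Measure.measurePreserving_neg volume)
  exact h2.comp h1

lemma mp_R : MeasurePreserving R (volume : Measure (ℝ × ℝ)) volume := by
  have h1 : MeasurePreserving (Prod.swap : ℝ × ℝ → ℝ × ℝ) volume volume := by
    rw [Measure.volume_eq_prod]
    exact Measure.measurePreserving_swap
  have h2 : MeasurePreserving (Prod.map (fun x : ℝ => -x) (id : ℝ → ℝ)) volume
      (volume : Measure (ℝ × ℝ)) := by
    rw [Measure.volume_eq_prod]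
    exact (Measure.measurePreserving_neg volume).prod (MeasurePreserving.id volume)
  exact h2.comp h1

section

variable {n : ℕ} {f : Fin n → ℝ × ℝ → ℝ≥0∞} {p : Fin n → ℝ × ℝ} {r : Fin n → ℝ} {κ D : ℝ}

lemma Noise.rot (h : Noise f p r κ D) :
    Noise (fun i z => f i (S z)) (fun i => R (p i)) r κ D where
  kpos := h.kpos
  meas i := (h.meas i).comp measurable_S
  one i := by
    rw [← h.one i]
    exact mp_S.lintegral_comp (h.meas i)
  rpos := h.rpos
  bound i z := h.bound i _
  supp i z hz := by
    obtain ⟨h1, h2⟩ := h.supp i _ hz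
    simp only [S] at h1 h2
    simp only [R]
    refine ⟨?_, h1⟩
    rw [← abs_neg]
    convert h2 using 2
    ring
  diam i j := by
    obtain ⟨h1, h2⟩ := h.diam i j
    simp only [R]
    refine ⟨?_, h1⟩
    have : |-(p i).2 - -(p j).2| = |(p i).2 - (p j).2| := by
      rw [← abs_neg]; congr 1; ring
    rw [this]
    exact h2

lemma law_rot (h : Noise f p r κ D) {F : (Fin n → ℝ × ℝ) → ℝ≥0∞} (hF : Measurable F) :
    ∫⁻ x, F (fun i => R (x i)) ∂law f = ∫⁻ x, F x ∂law (fun i z => f i (S z)) := by
  have h1 := h.prob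
  have h2 := h.rot.prob
  have hmp : ∀ i, MeasurePreserving R (volume.withDensity (f i))
      (volume.withDensity (fun z => f i (S z))) := by
    intro i
    refine ⟨measurable_R, ?_⟩
    ext s hs
    rw [Measure.map_apply measurable_R hs, withDensity_apply _ (measurable_R hs),
      withDensity_apply _ hs, ← lintegral_indicator (measurable_R hs), ← lintegral_indicator hs]
    have hm : Measurable (s.indicator fun z => f i (S z)) :=
      ((h.meas i).comp measurable_S).indicator hs
    rw [← mp_R.lintegral_comp hm]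
    apply lintegral_congr
    intro z
    by_cases hz : R z ∈ s
    · rw [Set.indicator_of_mem (show z ∈ R ⁻¹' s from hz), Set.indicator_of_mem hz, S_R]
    · rw [Set.indicator_of_notMem (show z ∉ R ⁻¹' s from hz), Set.indicator_of_notMem hz]
  exact (measurePreserving_pi _ _ hmp).lintegral_comp hF

/-- every direction is forward after one of the four rotations -/
lemma fwd_cases {z w : ℝ × ℝ} (h : z ≠ w) : Fwd z w ∨ Fwd (R z) (R w) ∨
    Fwd (R (R z)) (R (R w)) ∨ Fwd (R (R (R z))) (R (R (R w))) := by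
  unfold Fwd R
  simp only
  by_cases h1 : |w.2 - z.2| ≤ |w.1 - z.1|
  · rcases lt_trichotomy z.1 w.1 with h2 | h2 | h2
    · left
      refine ⟨h2, ?_⟩
      rwa [abs_of_pos (by linarith : 0 < w.1 - z.1)] at h1
    · exfalso
      rw [h2] at h1
      simp only [sub_self, abs_zero, abs_nonpos_iff] at h1
      exact h (Prod.ext h2 (by linarith))
    · right; right; left
      refine ⟨by linarith, ?_⟩
      rw [abs_of_neg (by linarith : w.1 - z.1 < 0)] at h1
      have : |-w.2 - -z.2| = |w.2 - z.2| := by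
        rw [← abs_neg]; congr 1; ring
      rw [this]
      linarith
  · push Not at h1
    rcases lt_trichotomy z.2 w.2 with h2 | h2 | h2
    · right; right; right
      refine ⟨by linarith, ?_⟩
      rw [abs_of_pos (by linarith : 0 < w.2 - z.2)] at h1
      have : |-w.1 - -z.1| = |w.1 - z.1| := by
        rw [← abs_neg]; congr 1; ring
      rw [this]
      linarith
    · exfalso
      rw [h2] at h1
      simp only [sub_self, abs_zero] at h1
      exact absurd h1 (not_lt.mpr (abs_nonneg _))
    · right; left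
      refine ⟨by linarith, ?_⟩
      rw [abs_of_neg (by linarith : w.2 - z.2 < 0)] at h1
      linarith

lemma edges_le (x : Fin n → ℝ × ℝ) (k : ℕ) : edges x k ≤ edges0 x k +
    edges0 (fun i => R (x i)) k + edges0 (fun i => R (R (x i))) k +
    edges0 (fun i => R (R (R (x i)))) k := by
  classical
  unfold edges edges0
  refine le_trans (card_le_card ?_) ((card_union_le _ _).trans (add_le_add
    ((card_union_le _ _).trans (add_le_add (card_union_le _ _) le_rfl)) le_rfl))
  intro ij hij
  rw [mem_filter] at hij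
  obtain ⟨-, hne, hk⟩ := hij
  simp only [mem_union, mem_filter, mem_univ, true_and]
  have e1 : left (fun i => R (x i)) (R (x ij.1)) (R (x ij.2)) = k := by rw [left_R, hk]
  have e2 : left (fun i => R (R (x i))) (R (R (x ij.1))) (R (R (x ij.2))) = k := by
    rw [left_R (fun i => R (x i)), e1]
  have e3 : left (fun i => R (R (R (x i)))) (R (R (R (x ij.1)))) (R (R (R (x ij.2)))) = k := by
    rw [left_R (fun i => R (R (x i))), e2]
  rcases fwd_cases hne with h | h | h | h
  · exact Or.inl (Or.inl (Or.inl ⟨h, hk⟩))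
  · exact Or.inl (Or.inl (Or.inr ⟨h, e1⟩))
  · exact Or.inl (Or.inr ⟨h, e2⟩)
  · exact Or.inr ⟨h, e3⟩

lemma measurable_edges (k : ℕ) : Measurable (fun x : Fin n → ℝ × ℝ => edges x k) := by
  classical
  have e : (fun x : Fin n → ℝ × ℝ => edges x k) = fun x => ∑ ij : Fin n × Fin n,
      if x ij.1 ≠ x ij.2 ∧ left x (x ij.1) (x ij.2) = k then 1 else 0 := by
    funext x
    unfold edges
    rw [card_filter]
  rw [e]
  apply Finset.measurable_sum
  intro ij _
  apply Measurable.ite _ measurable_const measurable_const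
  apply MeasurableSet.inter
  · exact (measurableSet_eq_fun (measurable_pi_apply ij.1) (measurable_pi_apply ij.2)).compl
  · exact (measurable_left (n := n)).comp
      (g := _) (f := fun x : Fin n → ℝ × ℝ => (x ij.1, x ij.2, x)) (by fun_prop)
      (measurableSet_singleton k)

/-- the expected number of directed `k`-edges -/
theorem Noise.edges_bound (h : Noise f p r κ D) (k : ℕ) :
    ∫⁻ x, (edges x k : ℝ≥0∞) ∂law f ≤ ENNReal.ofReal (32 * κ * √(32 * (n * ∑ i, D / r i))) := by
  have hm : Measurable (fun x : Fin n → ℝ × ℝ => (edges0 x k : ℝ≥0∞)) :=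
    measurable_from_top.comp (measurable_edges0 k)
  have hR : Measurable (fun x : Fin n → ℝ × ℝ => fun i => R (x i)) :=
    measurable_pi_iff.mpr fun i => measurable_R.comp (measurable_pi_apply i)
  have hm1 : Measurable (fun x : Fin n → ℝ × ℝ => (edges0 (fun i => R (x i)) k : ℝ≥0∞)) :=
    hm.comp hR
  have hm2 : Measurable (fun x : Fin n → ℝ × ℝ => (edges0 (fun i => R (R (x i))) k : ℝ≥0∞)) :=
    hm1.comp hR
  have hm3 : Measurable (fun x : Fin n → ℝ × ℝ =>
      (edges0 (fun i => R (R (R (x i)))) k : ℝ≥0∞)) := hm2.comp hR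
  have b0 := h.edges0_bound k
  have b1 := h.rot.edges0_bound k
  have b2 := h.rot.rot.edges0_bound k
  have b3 := h.rot.rot.rot.edges0_bound k
  rw [← law_rot h hm] at b1
  rw [← law_rot h.rot hm, ← law_rot h hm1] at b2
  rw [← law_rot h.rot.rot hm, ← law_rot h.rot hm1, ← law_rot h hm2] at b3
  have hsum : ∀ x : Fin n → ℝ × ℝ, (edges x k : ℝ≥0∞) ≤ (edges0 x k : ℝ≥0∞) +
      (edges0 (fun i => R (x i)) k : ℝ≥0∞) + (edges0 (fun i => R (R (x i))) k : ℝ≥0∞) +
      (edges0 (fun i => R (R (R (x i)))) k : ℝ≥0∞) := by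
    intro x
    exact_mod_cast edges_le x k
  have hκ := h.kpos
  have hnn : 0 ≤ 8 * κ * √(32 * (n * ∑ i, D / r i)) := by positivity
  calc ∫⁻ x, (edges x k : ℝ≥0∞) ∂law f
      ≤ ∫⁻ x, ((edges0 x k : ℝ≥0∞) + (edges0 (fun i => R (x i)) k : ℝ≥0∞) +
          (edges0 (fun i => R (R (x i))) k : ℝ≥0∞) +
          (edges0 (fun i => R (R (R (x i)))) k : ℝ≥0∞)) ∂law f := lintegral_mono hsum
    _ = (∫⁻ x, (edges0 x k : ℝ≥0∞) ∂law f) + (∫⁻ x, (edges0 (fun i => R (x i)) k : ℝ≥0∞) ∂law f) +
          (∫⁻ x, (edges0 (fun i => R (R (x i))) k : ℝ≥0∞) ∂law f) +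
          ∫⁻ x, (edges0 (fun i => R (R (R (x i)))) k : ℝ≥0∞) ∂law f := by
        have s1 : Measurable (fun x : Fin n → ℝ × ℝ => (edges0 x k : ℝ≥0∞) +
          (edges0 (fun i => R (x i)) k : ℝ≥0∞)) := hm.add hm1
        have s2 : Measurable (fun x : Fin n → ℝ × ℝ => (edges0 x k : ℝ≥0∞) +
          (edges0 (fun i => R (x i)) k : ℝ≥0∞) + (edges0 (fun i => R (R (x i))) k : ℝ≥0∞)) :=
          s1.add hm2
        rw [lintegral_add_left s2, lintegral_add_left s1, lintegral_add_left hm]
    _ ≤ ENNReal.ofReal (8 * κ * √(32 * (n * ∑ i, D / r i))) +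
          ENNReal.ofReal (8 * κ * √(32 * (n * ∑ i, D / r i))) +
          ENNReal.ofReal (8 * κ * √(32 * (n * ∑ i, D / r i))) +
          ENNReal.ofReal (8 * κ * √(32 * (n * ∑ i, D / r i))) :=
        add_le_add (add_le_add (add_le_add b0 b1) b2) b3
    _ = ENNReal.ofReal (32 * κ * √(32 * (n * ∑ i, D / r i))) := by
        rw [← ENNReal.ofReal_add hnn hnn, ← ENNReal.ofReal_add (by positivity) hnn,
          ← ENNReal.ofReal_add (by positivity) hnn]
        congr 1
        ring

end

end Pool.Agent.K7.H26.SM
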