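import Pool.Agent.K7.H26.SM.Theta

namespace Pool.Agent.K7.H26.SM

open MeasureTheory Finset Function
open scoped ENNReal

open scoped Classical in
/-- the number of forward directed `k`-edges with both ends in `A` -/
noncomputable def edgesA {n : ℕ} (A : Set (ℝ × ℝ)) (x : Fin n → ℝ × ℝ) (k : ℕ) : ℕ :=
  (univ.filter fun ij : Fin n × Fin n =>
    Fwd (x ij.1) (x ij.2) ∧ left x (x ij.1) (x ij.2) = k ∧ x ij.1 ∈ A ∧ x ij.2 ∈ A).card

lemma measurableSet_EA {n : ℕ} {A : Set (ℝ × ℝ)} (hA : MeasurableSet A) (i j : Fin n) (k : ℕ) :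
    MeasurableSet {x : Fin n → ℝ × ℝ | Fwd (x i) (x j) ∧ left x (x i) (x j) = k ∧
      x i ∈ A ∧ x j ∈ A} := by
  have e : {x : Fin n → ℝ × ℝ | Fwd (x i) (x j) ∧ left x (x i) (x j) = k ∧
      x i ∈ A ∧ x j ∈ A} = {x : Fin n → ℝ × ℝ | Fwd (x i) (x j) ∧ left x (x i) (x j) = k} ∩
      ({x | x i ∈ A} ∩ {x | x j ∈ A}) := by
    ext x
    simp only [Set.mem_ofPred_eq, Set.mem_inter_iff]
    tauto
  rw [e]
  exact (measurableSet_E i j k).inter (((measurable_pi_apply i) hA).inter
    ((measurable_pi_apply j) hA))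

section

variable {n : ℕ} (μ : Fin n → Measure (ℝ × ℝ)) [∀ i, IsProbabilityMeasure (μ i)]

open scoped Classical in
/-- the probability that `(i, j)` is a forward `k`-edge with both ends in `A` -/
lemma pair_probA {A : Set (ℝ × ℝ)} (hA : MeasurableSet A) {i j : Fin n} (hij : i ≠ j) (k : ℕ) :
    Measure.pi μ {x | Fwd (x i) (x j) ∧ left x (x i) (x j) = k ∧ x i ∈ A ∧ x j ∈ A} ≤
      ∫⁻ z, ∫⁻ w, A.indicator 1 z * (A.indicator 1 w *
        (if Fwd z w then Pk μ k (sl z w) (ic z w) else 0)) ∂μ j ∂μ i := by
  set E : Set (Fin n → ℝ × ℝ) := {x | Fwd (x i) (x j) ∧ left x (x i) (x j) = k ∧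
    x i ∈ A ∧ x j ∈ A} with hE
  have hEm : MeasurableSet E := measurableSet_EA hA i j k
  have hind : Measurable (E.indicator (1 : (Fin n → ℝ × ℝ) → ℝ≥0∞)) :=
    measurable_one.indicator hEm
  have hup : Measurable (fun q : ((Fin n → ℝ × ℝ) × (ℝ × ℝ)) × (ℝ × ℝ) =>
      update (update q.1.1 i q.1.2) j q.2) := by
    rw [measurable_pi_iff]
    intro l
    by_cases hlj : l = j
    · subst hlj
      simp only [update_self]
      fun_prop
    · simp only [update_of_ne hlj]
      by_cases hli : l = i
      · subst hli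
        simp only [update_self]
        fun_prop
      · simp only [update_of_ne hli]
        fun_prop
  have hup1 : Measurable (fun q : (Fin n → ℝ × ℝ) × (ℝ × ℝ) => update q.1 j q.2) := by
    rw [measurable_pi_iff]
    intro l
    by_cases hlj : l = j
    · subst hlj
      simp only [update_self]
      fun_prop
    · simp only [update_of_ne hlj]
      fun_prop
  have e1 : Measure.pi μ E = ∫⁻ x, ∫⁻ z, ∫⁻ w,
      E.indicator 1 (update (update x i z) j w) ∂μ j ∂μ i ∂Measure.pi μ := by
    rw [← lintegral_indicator_one hEm, lintegral_update μ hind j, lintegral_update μ _ i]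
    exact (hind.comp hup1).lintegral_prod_right'
  rw [e1, lintegral_lintegral_swap]
  · apply lintegral_mono
    intro z
    dsimp only
    rw [lintegral_lintegral_swap]
    · apply lintegral_mono
      intro w
      dsimp only
      by_cases hf : Fwd z w ∧ z ∈ A ∧ w ∈ A
      · obtain ⟨hf, hz, hw⟩ := hf
        rw [if_pos hf, Pk_eq, Set.indicator_of_mem hz, Set.indicator_of_mem hw, Pi.one_apply,
          Pi.one_apply, one_mul, one_mul]
        apply lintegral_mono
        intro x
        dsimp only
        by_cases hx : update (update x i z) j w ∈ E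
        · have hx' : left (update (update x i z) j w) z w = k := by
            have := hx.2.1
            rwa [update_self, update_of_ne hij, update_self] at this
          rw [Set.indicator_of_mem hx, Set.indicator_of_mem (above_of_left hij hf hx')]
          rfl
        · rw [Set.indicator_of_notMem hx]
          exact zero_le
      · have : ∫⁻ x, E.indicator 1 (update (update x i z) j w) ∂Measure.pi μ = 0 := by
          rw [lintegral_eq_zero_iff]
          · filter_upwards with x
            apply Set.indicator_of_notMem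
            intro hx
            have h1 := hx.1
            have h2 := hx.2.2
            rw [update_self, update_of_ne hij, update_self] at h1 h2
            exact hf ⟨h1, h2⟩
          · exact hind.comp (hup.comp
              (by fun_prop : Measurable fun x : Fin n → ℝ × ℝ => ((x, z), w)))
        rw [this]
        exact zero_le
    · exact (hind.comp (hup.comp (by fun_prop : Measurable
        fun q : (Fin n → ℝ × ℝ) × (ℝ × ℝ) => ((q.1, z), q.2)))).aemeasurable
  · exact (hind.comp hup).lintegral_prod_right'.aemeasurable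

end

section

variable {n : ℕ} {f : Fin n → ℝ × ℝ → ℝ≥0∞} {p : Fin n → ℝ × ℝ} {r : Fin n → ℝ} {κ D : ℝ}
  (h : Noise f p r κ D)

/-- the densities cut to `A` -/
noncomputable def cutf (A : Set (ℝ × ℝ)) (f : Fin n → ℝ × ℝ → ℝ≥0∞) : Fin n → ℝ × ℝ → ℝ≥0∞ :=
  fun i => A.indicator (f i)

lemma measurable_TD' {g : Fin n → ℝ × ℝ → ℝ≥0∞} (hg : ∀ i, Measurable (g i)) :
    Measurable (uncurry (TD g)) := by
  have e : uncurry (TD g) = fun q => ∑ i, uncurry (LD (g i)) q := rfl
  rw [e]
  exact Finset.measurable_sum _ fun i _ => measurable_LD (hg i)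

lemma measurable_TG' {g : Fin n → ℝ × ℝ → ℝ≥0∞} (hg : ∀ i, Measurable (g i)) :
    Measurable (uncurry (TG g)) := by
  have e : uncurry (TG g) = fun q => ∑ i, ∑ j, uncurry (G (g i) (g j)) q := rfl
  rw [e]
  exact Finset.measurable_sum _ fun i _ => Finset.measurable_sum _ fun j _ =>
    measurable_G (hg i) (hg j)

include h

lemma Noise.edgesA_le {A : Set (ℝ × ℝ)} (hA : MeasurableSet A) (k : ℕ) :
    ∫⁻ x, (edgesA A x k : ℝ≥0∞) ∂law f ≤
    ∫⁻ a in Set.Icc (-1:ℝ) 1, ∫⁻ b, TG (cutf A f) a b *
      Pk (fun i => volume.withDensity (f i)) k a b := by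
  classical
  have := h.prob
  set μ : Fin n → Measure (ℝ × ℝ) := fun i => volume.withDensity (f i) with hμ
  have hπ : Measurable (uncurry (Pk μ k)) := measurable_Pk μ k
  have hg : ∀ i, Measurable (cutf A f i) := fun i => (h.meas i).indicator hA
  have e1 : ∀ x : Fin n → ℝ × ℝ, (edgesA A x k : ℝ≥0∞) = ∑ i, ∑ j,
      {x : Fin n → ℝ × ℝ | Fwd (x i) (x j) ∧ left x (x i) (x j) = k ∧
        x i ∈ A ∧ x j ∈ A}.indicator 1 x := by
    intro x
    unfold edgesA
    rw [card_filter]
    push_cast
    rw [← univ_product_univ, sum_product]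
    apply sum_congr rfl; intro i _
    apply sum_congr rfl; intro j _
    rw [Set.indicator_apply]
    rfl
  have e2 : ∫⁻ x, (edgesA A x k : ℝ≥0∞) ∂law f = ∑ i, ∑ j, Measure.pi μ
      {x : Fin n → ℝ × ℝ | Fwd (x i) (x j) ∧ left x (x i) (x j) = k ∧ x i ∈ A ∧ x j ∈ A} := by
    simp_rw [e1]
    rw [lintegral_finsetSum]
    · apply sum_congr rfl; intro i _
      rw [lintegral_finsetSum]
      · apply sum_congr rfl; intro j _
        rw [lintegral_indicator_one (measurableSet_EA hA i j k)]
        rfl
      · intro j _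
        exact measurable_one.indicator (measurableSet_EA hA i j k)
    · intro i _
      exact Finset.measurable_sum _ fun j _ => measurable_one.indicator (measurableSet_EA hA i j k)
  have e3 : ∀ i j, Measure.pi μ
      {x : Fin n → ℝ × ℝ | Fwd (x i) (x j) ∧ left x (x i) (x j) = k ∧ x i ∈ A ∧ x j ∈ A} ≤
      ∫⁻ a in Set.Icc (-1:ℝ) 1, ∫⁻ b, G (cutf A f i) (cutf A f j) a b * Pk μ k a b := by
    intro i j
    by_cases hij : i = j
    · subst hij
      have : {x : Fin n → ℝ × ℝ | Fwd (x i) (x i) ∧ left x (x i) (x i) = k ∧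
          x i ∈ A ∧ x i ∈ A} = ∅ := by
        ext x
        simp only [Set.mem_ofPred_eq, Set.mem_empty_iff_false, iff_false]
        rintro ⟨h1, -⟩
        exact lt_irrefl _ h1.1
      rw [this, measure_empty]
      exact zero_le
    · refine (pair_probA μ hA hij k).trans ?_
      rw [← pair_to_line (hg i) (hg j) hπ]
      have hm : Measurable (fun q : (ℝ × ℝ) × (ℝ × ℝ) =>
          if Fwd q.1 q.2 then Pk μ k (sl q.1 q.2) (ic q.1 q.2) else 0) := by
        have hsl : Measurable (fun q : (ℝ × ℝ) × (ℝ × ℝ) => sl q.1 q.2) := by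
          unfold sl; fun_prop
        have hic : Measurable (fun q : (ℝ × ℝ) × (ℝ × ℝ) => ic q.1 q.2) := by
          unfold ic; exact (by fun_prop : Measurable fun q : (ℝ × ℝ) × (ℝ × ℝ) => q.1.2).sub
            (hsl.mul (by fun_prop))
        exact Measurable.ite measurableSet_Fwd (hπ.comp (hsl.prodMk hic)) measurable_const
      have hiA : Measurable (A.indicator (1 : ℝ × ℝ → ℝ≥0∞)) := measurable_one.indicator hA
      have hm' : Measurable (fun q : (ℝ × ℝ) × (ℝ × ℝ) => A.indicator (1 : ℝ × ℝ → ℝ≥0∞) q.2 *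
          (if Fwd q.1 q.2 then Pk μ k (sl q.1 q.2) (ic q.1 q.2) else 0)) :=
        (hiA.comp measurable_snd).mul hm
      have hc : ∀ i z, A.indicator (1 : ℝ × ℝ → ℝ≥0∞) z * f i z = cutf A f i z := by
        intro i z
        unfold cutf
        by_cases hz : z ∈ A
        · rw [Set.indicator_of_mem hz, Set.indicator_of_mem hz, Pi.one_apply, one_mul]
        · rw [Set.indicator_of_notMem hz, Set.indicator_of_notMem hz, zero_mul]
      have e4 : ∀ z : ℝ × ℝ, ∫⁻ w, A.indicator 1 z * (A.indicator 1 w *
          (if Fwd z w then Pk μ k (sl z w) (ic z w) else 0)) ∂μ j =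
          A.indicator 1 z * ∫⁻ w, cutf A f j w *
            (if Fwd z w then Pk μ k (sl z w) (ic z w) else 0) := by
        intro z
        have hz : Measurable (fun w : ℝ × ℝ => A.indicator (1 : ℝ × ℝ → ℝ≥0∞) w *
            (if Fwd z w then Pk μ k (sl z w) (ic z w) else 0)) := hm'.comp measurable_prodMk_left
        rw [lintegral_const_mul _ hz]
        congr 1
        have e5 : ∫⁻ w, A.indicator (1 : ℝ × ℝ → ℝ≥0∞) w *
            (if Fwd z w then Pk μ k (sl z w) (ic z w) else 0) ∂μ j = _ :=
          lintegral_withDensity_eq_lintegral_mul volume (h.meas j) hz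
        rw [e5]
        apply lintegral_congr
        intro w
        simp only [Pi.mul_apply]
        rw [← hc j w]
        ring
      simp_rw [e4]
      have m2 : Measurable (fun z : ℝ × ℝ => ∫⁻ w, cutf A f j w *
          (if Fwd z w then Pk μ k (sl z w) (ic z w) else 0)) := by
        apply Measurable.lintegral_prod_right'
          (f := fun q : (ℝ × ℝ) × (ℝ × ℝ) => cutf A f j q.2 *
            (if Fwd q.1 q.2 then Pk μ k (sl q.1 q.2) (ic q.1 q.2) else 0))
        exact ((hg j).comp measurable_snd).mul hm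
      have m3 : Measurable (fun z : ℝ × ℝ => A.indicator (1 : ℝ × ℝ → ℝ≥0∞) z *
          ∫⁻ w, cutf A f j w * (if Fwd z w then Pk μ k (sl z w) (ic z w) else 0)) := hiA.mul m2
      have e5 : ∫⁻ z, A.indicator (1 : ℝ × ℝ → ℝ≥0∞) z * (∫⁻ w, cutf A f j w *
          (if Fwd z w then Pk μ k (sl z w) (ic z w) else 0)) ∂μ i = _ :=
        lintegral_withDensity_eq_lintegral_mul volume (h.meas i) m3
      rw [e5]
      apply le_of_eq
      apply lintegral_congr
      intro z
      simp only [Pi.mul_apply]
      rw [← mul_assoc, mul_comm (f i z), hc i z, ← lintegral_const_mul]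
      · apply lintegral_congr
        intro w
        rw [mul_assoc]
      · exact (hg j).mul (hm.comp measurable_prodMk_left)
  rw [e2]
  refine (sum_le_sum fun i _ => sum_le_sum fun j _ => e3 i j).trans ?_
  -- collect the sums
  have hGm : ∀ i j, Measurable (uncurry fun a b => G (cutf A f i) (cutf A f j) a b *
      Pk μ k a b) := by
    intro i j
    exact (measurable_G (hg i) (hg j)).mul hπ
  apply le_of_eq
  have e6 : ∀ a, ∫⁻ b, TG (cutf A f) a b * Pk μ k a b =
      ∑ i, ∑ j, ∫⁻ b, G (cutf A f i) (cutf A f j) a b * Pk μ k a b := by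
    intro a
    unfold TG
    simp_rw [sum_mul]
    rw [lintegral_finsetSum]
    · apply sum_congr rfl; intro i _
      rw [lintegral_finsetSum]
      intro j _
      exact (hGm i j).comp measurable_prodMk_left
    · intro i _
      exact Finset.measurable_sum _ fun j _ => (hGm i j).comp measurable_prodMk_left
  simp_rw [e6]
  rw [lintegral_finsetSum]
  · apply sum_congr rfl; intro i _
    rw [lintegral_finsetSum]
    intro j _
    exact (hGm i j).lintegral_prod_right'
  · intro i _
    exact Finset.measurable_sum _ fun j _ => (hGm i j).lintegral_prod_right'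

end

end Pool.Agent.K7.H26.SM
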