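import Pool.Agent.K7.H26.SM.Slab

namespace Pool.Agent.K7.H26.SM

open MeasureTheory Finset Function
open scoped ENNReal

section

variable {n : ℕ}

lemma G_le_of {g : Fin n → ℝ × ℝ → ℝ≥0∞} (hg : ∀ i, Measurable (g i)) {d : ℝ}
    (hd : ∀ i j z w, g i z ≠ 0 → g j w ≠ 0 → w.1 - z.1 ≤ d) (i j : Fin n) (a b : ℝ) :
    G (g i) (g j) a b ≤ ENNReal.ofReal d * (LD (g i) a b * LD (g j) a b) := by
  unfold G LD
  calc ∫⁻ x₁, ∫⁻ x₂, g i (x₁, a * x₁ + b) * g j (x₂, a * x₂ + b) * ENNReal.ofReal (x₂ - x₁)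
      ≤ ∫⁻ x₁, ∫⁻ x₂, ENNReal.ofReal d * (g i (x₁, a * x₁ + b) * g j (x₂, a * x₂ + b)) := by
        apply lintegral_mono; intro x₁
        apply lintegral_mono; intro x₂
        dsimp only
        by_cases h1 : g i (x₁, a * x₁ + b) = 0
        · simp [h1]
        by_cases h2 : g j (x₂, a * x₂ + b) = 0
        · simp [h2]
        rw [mul_comm]
        apply mul_le_mul_left
        apply ENNReal.ofReal_le_ofReal
        exact hd i j _ _ h1 h2
    _ = ENNReal.ofReal d * ((∫⁻ x, g i (x, a * x + b)) * ∫⁻ x, g j (x, a * x + b)) := by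
        have m1 : Measurable (fun x : ℝ => g i (x, a * x + b)) := (hg i).comp (by fun_prop)
        have m2 : Measurable (fun x : ℝ => g j (x, a * x + b)) := (hg j).comp (by fun_prop)
        have e1 : ∀ x₁ : ℝ, ∫⁻ x₂, ENNReal.ofReal d *
            (g i (x₁, a * x₁ + b) * g j (x₂, a * x₂ + b)) =
            ENNReal.ofReal d * (g i (x₁, a * x₁ + b) * ∫⁻ x, g j (x, a * x + b)) := by
          intro x₁
          rw [lintegral_const_mul _ (m2.const_mul _), lintegral_const_mul _ m2]
        simp_rw [e1]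
        rw [lintegral_const_mul _ (m1.mul_const _), lintegral_mul_const _ m1]

lemma TG_le_of {g : Fin n → ℝ × ℝ → ℝ≥0∞} (hg : ∀ i, Measurable (g i)) {d : ℝ}
    (hd : ∀ i j z w, g i z ≠ 0 → g j w ≠ 0 → w.1 - z.1 ≤ d) (a b : ℝ) :
    TG g a b ≤ ENNReal.ofReal d * (TD g a b * TD g a b) := by
  unfold TG TD
  rw [sum_mul_sum, mul_sum]
  apply sum_le_sum; intro i _
  rw [mul_sum]
  apply sum_le_sum; intro j _
  exact G_le_of hg hd i j a b

variable {f : Fin n → ℝ × ℝ → ℝ≥0∞} {p : Fin n → ℝ × ℝ} {r : Fin n → ℝ} {κ D : ℝ}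
  (h : Noise f p r κ D)

/-- the constant of the window -/
noncomputable def qq (p : Fin n → ℝ × ℝ) (r : Fin n → ℝ) (κ : ℝ) (i j : Fin n) : ℝ :=
  (|(p i).1 - (p j).1| + (r i + r j)) * (2 * κ / r i) * (2 * κ / r j)

lemma cutf_le (A : Set (ℝ × ℝ)) (i : Fin n) (z : ℝ × ℝ) : cutf A f i z ≤ f i z := by
  unfold cutf
  exact Set.indicator_le_self _ _ _

lemma cutf_ne {A : Set (ℝ × ℝ)} {i : Fin n} {z : ℝ × ℝ} (hz : cutf A f i z ≠ 0) :
    z ∈ A ∧ f i z ≠ 0 := by
  unfold cutf at hz
  by_cases h1 : z ∈ A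
  · rw [Set.indicator_of_mem h1] at hz
    exact ⟨h1, hz⟩
  · rw [Set.indicator_of_notMem h1] at hz
    exact absurd rfl hz

include h

/-- (F3) in a slab -/
lemma Noise.G_le_slab {A : Set (ℝ × ℝ)} {u v : ℝ} (huv : u ≤ v)
    (hA : ∀ i z, cutf A f i z ≠ 0 → u ≤ z.1 ∧ z.1 ≤ v) (i j : Fin n) {a : ℝ}
    (ha : a ∈ Set.Icc (-1:ℝ) 1) (b : ℝ) :
    G (cutf A f i) (cutf A f j) a b ≤
      ENNReal.ofReal ((hh (p i).1 (r i) v - hh (p i).1 (r i) u) *
        (hh (p j).1 (r j) v - hh (p j).1 (r j) u)) *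
      (Win p r i j).indicator (fun _ => ENNReal.ofReal (qq p r κ i j)) a := by
  have hri := h.rpos i
  have hrj := h.rpos j
  have hκ := h.kpos
  have habs : |a| ≤ 1 := abs_le.mpr ha
  set I := Set.Icc ((p i).1 - r i) ((p i).1 + r i) ∩ Set.Icc u v with hI
  set J := Set.Icc ((p j).1 - r j) ((p j).1 + r j) ∩ Set.Icc u v with hJ
  set mi := hh (p i).1 (r i) v - hh (p i).1 (r i) u with hmi
  set mj := hh (p j).1 (r j) v - hh (p j).1 (r j) u with hmj
  have hmi0 : 0 ≤ mi := sub_nonneg.mpr (hh_mono hri huv)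
  have hmj0 : 0 ≤ mj := sub_nonneg.mpr (hh_mono hrj huv)
  have hIm : MeasurableSet I := measurableSet_Icc.inter measurableSet_Icc
  have hJm : MeasurableSet J := measurableSet_Icc.inter measurableSet_Icc
  have hIv : volume I ≤ ENNReal.ofReal (2 * r i * mi) := vol_le hri
  have hJv : volume J ≤ ENNReal.ofReal (2 * r j * mj) := vol_le hrj
  set d := |(p i).1 - (p j).1| + (r i + r j) with hd
  have hd0 : 0 ≤ d := by positivity
  unfold G
  -- pointwise bound
  have key : ∀ x₁ x₂ : ℝ, cutf A f i (x₁, a * x₁ + b) * cutf A f j (x₂, a * x₂ + b) *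
      ENNReal.ofReal (x₂ - x₁) ≤ (I.indicator (fun _ => (1:ℝ≥0∞)) x₁ *
        J.indicator (fun _ => (1:ℝ≥0∞)) x₂) *
        (Win p r i j).indicator (fun _ => ENNReal.ofReal (κ / r i ^ 2) *
          ENNReal.ofReal (κ / r j ^ 2) * ENNReal.ofReal d) a := by
    intro x₁ x₂
    by_cases h1' : cutf A f i (x₁, a * x₁ + b) = 0
    · simp [h1']
    by_cases h2' : cutf A f j (x₂, a * x₂ + b) = 0
    · simp [h2']
    have h1 := (cutf_ne h1').2
    have h2 := (cutf_ne h2').2
    have s1 := h.supp i _ h1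
    have s2 := h.supp j _ h2
    simp only at s1 s2
    have a1 := abs_le.mp s1.1
    have a2 := abs_le.mp s2.1
    have m1 : x₁ ∈ I := ⟨⟨by linarith [a1.1], by linarith [a1.2]⟩, hA i _ h1'⟩
    have m2 : x₂ ∈ J := ⟨⟨by linarith [a2.1], by linarith [a2.2]⟩, hA j _ h2'⟩
    have m3 : a ∈ Win p r i j := by
      unfold Win
      rw [Set.mem_ofPred_eq]
      have e : (p i).2 - (p j).2 - a * ((p i).1 - (p j).1) =
          (a * (x₁ - (p i).1) - (a * x₁ + b - (p i).2)) -
          (a * (x₂ - (p j).1) - (a * x₂ + b - (p j).2)) := by ring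
      rw [e]
      have b1 : |a * (x₁ - (p i).1)| ≤ r i := by
        rw [abs_mul]
        calc |a| * |x₁ - (p i).1| ≤ 1 * r i := mul_le_mul habs s1.1 (abs_nonneg _) (by norm_num)
          _ = r i := one_mul _
      have b2 : |a * (x₂ - (p j).1)| ≤ r j := by
        rw [abs_mul]
        calc |a| * |x₂ - (p j).1| ≤ 1 * r j := mul_le_mul habs s2.1 (abs_nonneg _) (by norm_num)
          _ = r j := one_mul _
      refine (abs_sub _ _).trans ?_
      have c1 := (abs_sub (a * (x₁ - (p i).1)) (a * x₁ + b - (p i).2)).trans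
        (add_le_add b1 s1.2)
      have c2 := (abs_sub (a * (x₂ - (p j).1)) (a * x₂ + b - (p j).2)).trans
        (add_le_add b2 s2.2)
      linarith
    rw [Set.indicator_of_mem m1, Set.indicator_of_mem m2, Set.indicator_of_mem m3]
    rw [one_mul, one_mul]
    apply mul_le_mul' (mul_le_mul' ((cutf_le A i _).trans (h.bound i _))
      ((cutf_le A j _).trans (h.bound j _)))
    exact ENNReal.ofReal_le_ofReal (h.dx h1 h2)
  refine (lintegral_mono fun x₁ => lintegral_mono fun x₂ => key x₁ x₂).trans ?_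
  have mI : Measurable (I.indicator (fun _ => (1:ℝ≥0∞))) :=
    measurable_const.indicator hIm
  have mJ : Measurable (J.indicator (fun _ => (1:ℝ≥0∞))) :=
    measurable_const.indicator hJm
  set c := (Win p r i j).indicator (fun _ => ENNReal.ofReal (κ / r i ^ 2) *
          ENNReal.ofReal (κ / r j ^ 2) * ENNReal.ofReal d) a with hc
  have e1 : ∀ x₁ : ℝ, ∫⁻ x₂, (I.indicator (fun _ => (1:ℝ≥0∞)) x₁ *
        J.indicator (fun _ => (1:ℝ≥0∞)) x₂) * c =
        I.indicator (fun _ => (1:ℝ≥0∞)) x₁ * (volume J * c) := by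
    intro x₁
    rw [lintegral_mul_const _ (mJ.const_mul _), lintegral_const_mul _ mJ,
      lintegral_indicator hJm, lintegral_const, Measure.restrict_apply_univ,
      one_mul, mul_assoc]
  rw [lintegral_congr e1, lintegral_mul_const _ mI, lintegral_indicator hIm,
    lintegral_const, Measure.restrict_apply_univ, one_mul]
  refine (mul_le_mul' hIv (mul_le_mul_left hJv c)).trans ?_
  rw [hc]
  by_cases hw : a ∈ Win p r i j
  · rw [Set.indicator_of_mem hw, Set.indicator_of_mem hw]
    rw [← ENNReal.ofReal_mul (by positivity), ← ENNReal.ofReal_mul (by positivity),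
      ← ENNReal.ofReal_mul (by positivity), ← ENNReal.ofReal_mul (by positivity),
      ← ENNReal.ofReal_mul (by positivity)]
    apply ENNReal.ofReal_le_ofReal
    apply le_of_eq
    unfold qq
    rw [← hd]
    field_simp
  · rw [Set.indicator_of_notMem hw, Set.indicator_of_notMem hw]
    simp

/-- the bound for one slope in a slab -/
lemma Noise.slope_slab {lam : ℝ} (hl : 0 < lam) {A : Set (ℝ × ℝ)} (hAm : MeasurableSet A)
    {u v d : ℝ} (huv : u ≤ v) (hd : 0 < d) (hvd : v - u ≤ d)
    (hA : ∀ i z, cutf A f i z ≠ 0 → u ≤ z.1 ∧ z.1 ≤ v) (k : ℕ) {a : ℝ}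
    (ha : a ∈ Set.Icc (-1:ℝ) 1) :
    2 * ∫⁻ b, TG (cutf A f) a b * Pk (fun i => volume.withDensity (f i)) k a b ≤
      ENNReal.ofReal (lam * d) *
        (∫⁻ b, TD (cutf A f) a b * Pk (fun i => volume.withDensity (f i)) k a b) +
      ENNReal.ofReal (1 / lam) * (4 * ∑ i, ∑ j,
        ENNReal.ofReal ((hh (p i).1 (r i) v - hh (p i).1 (r i) u) *
          (hh (p j).1 (r j) v - hh (p j).1 (r j) u)) *
        (Win p r i j).indicator (fun _ => ENNReal.ofReal (qq p r κ i j)) a) := by
  have := h.prob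
  have hg : ∀ i, Measurable (cutf A f i) := fun i => (h.meas i).indicator hAm
  set μ : Fin n → Measure (ℝ × ℝ) := fun i => volume.withDensity (f i) with hμ
  set τ := ∑ i, ∑ j, ENNReal.ofReal ((hh (p i).1 (r i) v - hh (p i).1 (r i) u) *
        (hh (p j).1 (r j) v - hh (p j).1 (r j) u)) *
        (Win p r i j).indicator (fun _ => ENNReal.ofReal (qq p r κ i j)) a with hτ
  have hπ : Measurable (fun b => Pk μ k a b) := (measurable_Pk μ k).comp measurable_prodMk_left
  have hTG : Measurable (TG (cutf A f) a) := (measurable_TG' hg).of_uncurry_left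
  have hTD : Measurable (TD (cutf A f) a) := (measurable_TD' hg).of_uncurry_left
  have hT : ∀ b, TG (cutf A f) a b ≤ τ := by
    intro b
    unfold TG
    exact sum_le_sum fun i _ => sum_le_sum fun j _ => h.G_le_slab huv hA i j ha b
  have hTDle : ∀ b, TD (cutf A f) a b ≤ TD f a b := by
    intro b
    unfold TD LD
    exact sum_le_sum fun i _ => lintegral_mono fun x => cutf_le A i _
  have hrank : ∫⁻ b, TD (cutf A f) a b * Pk μ k a b ≤ 4 :=
    (lintegral_mono fun b => mul_le_mul_left (hTDle b) _).trans (h.rank k a)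
  -- pointwise inequality
  have key : ∀ b, 2 * TG (cutf A f) a b ≤ ENNReal.ofReal (lam * d) * TD (cutf A f) a b +
      ENNReal.ofReal (1 / lam) * (TD (cutf A f) a b * TG (cutf A f) a b) := by
    intro b
    have hφ : TD (cutf A f) a b ≠ ∞ := ((hTDle b).trans_lt (h.TD_lt_top a b)).ne
    have hle : TG (cutf A f) a b ≤
        ENNReal.ofReal d * (TD (cutf A f) a b * TD (cutf A f) a b) := by
      apply TG_le_of hg
      intro i j z w hz hw
      have h1 := hA i z hz
      have h2 := hA j w hw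
      linarith
    have ht : TG (cutf A f) a b ≠ ∞ := by
      refine (hle.trans_lt ?_).ne
      exact ENNReal.mul_lt_top ENNReal.ofReal_lt_top (ENNReal.mul_lt_top hφ.lt_top hφ.lt_top)
    set t := TG (cutf A f) a b with htt
    set φ := TD (cutf A f) a b with hφφ
    have hreal : t.toReal ≤ d * (φ.toReal * φ.toReal) := by
      have h1 := (ENNReal.toReal_le_toReal ht (by finiteness)).mpr hle
      rwa [ENNReal.toReal_mul, ENNReal.toReal_mul, ENNReal.toReal_ofReal hd.le] at h1
    have h2 := real_step ENNReal.toReal_nonneg ENNReal.toReal_nonneg hl hd hreal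
    have h3 := ENNReal.ofReal_le_ofReal h2
    have e1 : ENNReal.ofReal (2 * t.toReal) = 2 * t := by
      rw [ENNReal.ofReal_mul (by norm_num), ENNReal.ofReal_toReal ht]
      norm_num
    have e2 : ENNReal.ofReal (lam * d * φ.toReal + 1 / lam * (φ.toReal * t.toReal)) =
        ENNReal.ofReal (lam * d) * φ + ENNReal.ofReal (1 / lam) * (φ * t) := by
      rw [ENNReal.ofReal_add (by positivity) (by positivity),
        ENNReal.ofReal_mul (p := lam * d) (by positivity),
        ENNReal.ofReal_mul (p := 1 / lam) (by positivity),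
        ENNReal.ofReal_mul (p := φ.toReal) (by positivity),
        ENNReal.ofReal_toReal ht, ENNReal.ofReal_toReal hφ]
    rwa [e1, e2] at h3
  have hm1 : Measurable (fun b => TG (cutf A f) a b * Pk μ k a b) := hTG.mul hπ
  have hm : Measurable (fun b => TD (cutf A f) a b * Pk μ k a b) := hTD.mul hπ
  calc 2 * ∫⁻ b, TG (cutf A f) a b * Pk μ k a b
      = ∫⁻ b, (2 * TG (cutf A f) a b) * Pk μ k a b := by
        rw [← lintegral_const_mul _ hm1]
        apply lintegral_congr; intro b; ring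
    _ ≤ ∫⁻ b, (ENNReal.ofReal (lam * d) * (TD (cutf A f) a b * Pk μ k a b) +
          ENNReal.ofReal (1 / lam) * (τ * (TD (cutf A f) a b * Pk μ k a b))) := by
        apply lintegral_mono; intro b
        dsimp only
        calc (2 * TG (cutf A f) a b) * Pk μ k a b
            ≤ (ENNReal.ofReal (lam * d) * TD (cutf A f) a b +
              ENNReal.ofReal (1 / lam) * (TD (cutf A f) a b * TG (cutf A f) a b)) *
                Pk μ k a b :=
              mul_le_mul_left (key b) _
          _ ≤ (ENNReal.ofReal (lam * d) * TD (cutf A f) a b +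
              ENNReal.ofReal (1 / lam) * (TD (cutf A f) a b * τ)) * Pk μ k a b := by
              gcongr
              exact hT b
          _ = _ := by ring
    _ = ENNReal.ofReal (lam * d) * (∫⁻ b, TD (cutf A f) a b * Pk μ k a b) +
          ENNReal.ofReal (1 / lam) * (τ * ∫⁻ b, TD (cutf A f) a b * Pk μ k a b) := by
        rw [lintegral_add_left (hm.const_mul _), lintegral_const_mul _ hm,
          lintegral_const_mul _ (hm.const_mul _), lintegral_const_mul _ hm]
    _ ≤ ENNReal.ofReal (lam * d) * (∫⁻ b, TD (cutf A f) a b * Pk μ k a b) +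
          ENNReal.ofReal (1 / lam) * (τ * 4) :=
        add_le_add le_rfl (mul_le_mul_right (mul_le_mul_right hrank _) _)
    _ = _ := by rw [mul_comm τ 4]

end

end Pool.Agent.K7.H26.SM
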