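import Pool.Agent.K7.H26.SM.Slab2

namespace Pool.Agent.K7.H26.SM

open MeasureTheory Finset Function
open scoped ENNReal

lemma hh_le_one {ξ r x : ℝ} (hr : 0 < r) : hh ξ r x ≤ 1 := by
  unfold hh
  rw [div_le_one (by positivity)]
  exact min_le_right _ _

section

variable {n : ℕ} {f : Fin n → ℝ × ℝ → ℝ≥0∞} {p : Fin n → ℝ × ℝ} {r : Fin n → ℝ} {κ D : ℝ}
  {K : ℕ}

/-- the slabs -/
def sset (p : Fin n → ℝ × ℝ) (r : Fin n → ℝ) (A D : ℝ) (K s : ℕ) : Set (ℝ × ℝ) :=
  {z | sig p r A D K z.1 = s}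

lemma measurable_sig (A : ℝ) : Measurable (sig p r A D K) := by
  have h1 : Measurable (fun x : ℝ => ⌊(K:ℝ) * Th p r A D x⌋₊) :=
    Nat.measurable_floor.comp ((Th_cont (p := p) (r := r) (D := D) (A := A)).measurable.const_mul _)
  have h2 : Measurable (fun m : ℕ => min m (2 * K - 1)) := measurable_from_nat
  exact h2.comp h1

lemma measurableSet_sset (A : ℝ) (s : ℕ) : MeasurableSet (sset p r A D K s) := by
  have h1 : Measurable (fun z : ℝ × ℝ => sig p r A D K z.1) :=
    (measurable_sig A).comp measurable_fst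
  exact h1 (measurableSet_singleton s)

lemma sum_cutf_le (A : ℝ) (i : Fin n) (z : ℝ × ℝ) :
    ∑ s ∈ range (2 * K), cutf (sset p r A D K s) f i z ≤ f i z := by
  classical
  have e : ∀ s, cutf (sset p r A D K s) f i z = if sig p r A D K z.1 = s then f i z else 0 := by
    intro s
    unfold cutf sset
    rw [Set.indicator_apply]
    rfl
  simp_rw [e]
  rw [Finset.sum_ite_eq]
  split
  · exact le_rfl
  · exact zero_le

lemma sum_TD_le (hf : ∀ i, Measurable (f i)) (A : ℝ) (a b : ℝ) :
    ∑ s ∈ range (2 * K), TD (cutf (sset p r A D K s) f) a b ≤ TD f a b := by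
  unfold TD
  rw [sum_comm]
  apply sum_le_sum
  intro i _
  unfold LD
  rw [← lintegral_finsetSum]
  · exact lintegral_mono fun x => sum_cutf_le A i _
  · intro s _
    have h1 : Measurable (cutf (sset p r A D K s) f i) :=
      (hf i).indicator (measurableSet_sset A s)
    exact h1.comp (by fun_prop)

lemma Cuts.mass (C : Cuts p r D K) (hr : ∀ i, 0 < r i) (hD : 0 < D) (hK : 0 < K) :
    ∑ s ∈ range (2 * K), ∑ i, ∑ j,
      ((hh (p i).1 (r i) (C.c (s + 1)) - hh (p i).1 (r i) (C.c s)) *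
        (hh (p j).1 (r j) (C.c (s + 1)) - hh (p j).1 (r j) (C.c s))) *
      (32 * κ ^ 2 * (1 / r i + 1 / r j)) ≤ 64 * κ ^ 2 * (n / K) * ∑ i, 1 / r i := by
  set m : Fin n → ℕ → ℝ := fun i s =>
    hh (p i).1 (r i) (C.c (s + 1)) - hh (p i).1 (r i) (C.c s) with hm
  have hm0 : ∀ s < 2 * K, ∀ i, 0 ≤ m i s := by
    intro s hs i
    exact sub_nonneg.mpr (hh_mono (hr i) (C.width hr hD hK hs).1)
  have hsum : ∀ s < 2 * K, ∑ j, m j s ≤ n / K := fun s hs => (C.width hr hD hK hs).2.2
  have hms : ∀ i, ∑ s ∈ range (2 * K), m i s ≤ 1 := by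
    intro i
    have : ∑ s ∈ range (2 * K), m i s =
        hh (p i).1 (r i) (C.c (2 * K)) - hh (p i).1 (r i) (C.c 0) :=
      Finset.sum_range_sub (fun s => hh (p i).1 (r i) (C.c s)) _
    rw [this]
    have h1 := hh_le_one (ξ := (p i).1) (x := C.c (2 * K)) (hr i)
    have h2 := hh_nonneg (ξ := (p i).1) (x := C.c 0) (hr i)
    linarith
  have e1 : ∀ s, ∑ i, ∑ j, (m i s * m j s) * (32 * κ ^ 2 * (1 / r i + 1 / r j)) =
      64 * κ ^ 2 * (∑ i, (m i s * (1 / r i)) * ∑ j, m j s) := by
    intro s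
    have e2 : ∑ i, ∑ j, (m i s * m j s) * (32 * κ ^ 2 * (1 / r i + 1 / r j)) =
        32 * κ ^ 2 * (∑ i, ∑ j, (m i s * (1 / r i)) * m j s) +
        32 * κ ^ 2 * (∑ i, ∑ j, m i s * (m j s * (1 / r j))) := by
      simp_rw [mul_sum, ← sum_add_distrib]
      apply sum_congr rfl; intro i _
      apply sum_congr rfl; intro j _
      ring
    have e3 : ∑ i, ∑ j, m i s * (m j s * (1 / r j)) =
        ∑ i, ∑ j, (m i s * (1 / r i)) * m j s := by
      rw [sum_comm]
      apply sum_congr rfl; intro i _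
      apply sum_congr rfl; intro j _
      ring
    rw [e2, e3]
    simp_rw [← mul_sum]
    ring
  calc ∑ s ∈ range (2 * K), ∑ i, ∑ j, (m i s * m j s) * (32 * κ ^ 2 * (1 / r i + 1 / r j))
      = ∑ s ∈ range (2 * K), 64 * κ ^ 2 * (∑ i, (m i s * (1 / r i)) * ∑ j, m j s) :=
        sum_congr rfl fun s _ => e1 s
    _ ≤ ∑ s ∈ range (2 * K), 64 * κ ^ 2 * (∑ i, (m i s * (1 / r i)) * (n / K)) := by
        apply sum_le_sum; intro s hs
        rw [mem_range] at hs
        apply mul_le_mul_of_nonneg_left _ (by positivity)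
        apply sum_le_sum; intro i _
        apply mul_le_mul_of_nonneg_left (hsum s hs)
        have h1 := hm0 s hs i
        have h2 := hr i
        positivity
    _ = 64 * κ ^ 2 * (n / K) * ∑ i, (∑ s ∈ range (2 * K), m i s) * (1 / r i) := by
        simp_rw [sum_mul, mul_sum]
        rw [sum_comm]
        apply sum_congr rfl; intro i _
        apply sum_congr rfl; intro s _
        ring
    _ ≤ 64 * κ ^ 2 * (n / K) * ∑ i, 1 / r i := by
        apply mul_le_mul_of_nonneg_left _ (by positivity)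
        apply sum_le_sum; intro i _
        have h2 := hr i
        have h3 : 0 ≤ 1 / r i := by positivity
        calc (∑ s ∈ range (2 * K), m i s) * (1 / r i) ≤ 1 * (1 / r i) :=
              mul_le_mul_of_nonneg_right (hms i) h3
          _ = 1 / r i := one_mul _

variable (h : Noise f p r κ D)

include h

lemma Noise.cut_range (C : Cuts p r D K) (hD : 0 < D) (hK : 0 < K) {s : ℕ} (i : Fin n)
    (z : ℝ × ℝ) (hz : cutf (sset p r C.A D K s) f i z ≠ 0) :
    C.c s ≤ z.1 ∧ z.1 ≤ C.c (s + 1) := by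
  obtain ⟨h1, h2⟩ := cutf_ne hz
  have h3 := abs_le.mp (h.supp i z h2).1
  have h4 := C.left_end i
  have h5 := C.right_end i
  exact (C.sig_spec h.rpos hD hK (by linarith [h3.1]) (by linarith [h3.2]) h1).2

/-- the slabs together, with a parameter -/
lemma Noise.slab_sum (C : Cuts p r D K) (hD : 0 < D) (hK : 0 < K) {lam : ℝ} (hl : 0 < lam)
    (k : ℕ) :
    2 * ∑ s ∈ range (2 * K), ∫⁻ x, (edgesA (sset p r C.A D K s) x k : ℝ≥0∞) ∂law f ≤
      ENNReal.ofReal ((8 * (lam * D) + 256 * κ ^ 2 * (n * ∑ i, 1 / r i) / lam) / K) := by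
  have hκ := h.kpos
  have hr := h.rpos
  have hKR : (0:ℝ) < K := by exact_mod_cast hK
  have := h.prob
  set μ : Fin n → Measure (ℝ × ℝ) := fun i => volume.withDensity (f i) with hμ
  set A : ℕ → Set (ℝ × ℝ) := fun s => sset p r C.A D K s with hAdef
  have hAm : ∀ s, MeasurableSet (A s) := fun s => measurableSet_sset C.A s
  have hg : ∀ s i, Measurable (cutf (A s) f i) := fun s i => (h.meas i).indicator (hAm s)
  set w : ℕ → Fin n → Fin n → ℝ := fun s i j =>
    (hh (p i).1 (r i) (C.c (s + 1)) - hh (p i).1 (r i) (C.c s)) *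
        (hh (p j).1 (r j) (C.c (s + 1)) - hh (p j).1 (r j) (C.c s)) with hw
  have hw0 : ∀ s < 2 * K, ∀ i j, 0 ≤ w s i j := by
    intro s hs i j
    have h1 := (C.width hr hD hK hs).1
    exact mul_nonneg (sub_nonneg.mpr (hh_mono (hr i) h1)) (sub_nonneg.mpr (hh_mono (hr j) h1))
  have hW : ∀ i j, Measurable ((Win p r i j).indicator
      (fun _ : ℝ => ENNReal.ofReal (qq p r κ i j))) := fun i j =>
    measurable_const.indicator (measurableSet_Win i j)
  have hTDm : ∀ s, Measurable (uncurry (TD (cutf (A s) f))) := fun s => measurable_TD' (hg s)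
  have hTGm : ∀ s, Measurable (uncurry (TG (cutf (A s) f))) := fun s => measurable_TG' (hg s)
  have hPkm : Measurable (uncurry (Pk μ k)) := measurable_Pk μ k
  have hρm : ∀ s, Measurable (fun a : ℝ => ∫⁻ b, TD (cutf (A s) f) a b * Pk μ k a b) := by
    intro s
    have h1 : Measurable (fun q : ℝ × ℝ => uncurry (TD (cutf (A s) f)) q * uncurry (Pk μ k) q) :=
      (hTDm s).mul hPkm
    exact h1.lintegral_prod_right'
  have hGm : ∀ s, Measurable (fun a : ℝ => ∫⁻ b, TG (cutf (A s) f) a b * Pk μ k a b) := by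
    intro s
    have h1 : Measurable (fun q : ℝ × ℝ => uncurry (TG (cutf (A s) f)) q * uncurry (Pk μ k) q) :=
      (hTGm s).mul hPkm
    exact h1.lintegral_prod_right'
  have hWs : ∀ s, Measurable (fun a : ℝ => ∑ i, ∑ j, ENNReal.ofReal (w s i j) *
      (Win p r i j).indicator (fun _ => ENNReal.ofReal (qq p r κ i j)) a) := fun s =>
    Finset.measurable_sum _ fun i _ => Finset.measurable_sum _ fun j _ => (hW i j).const_mul _
  -- one slab
  have one : ∀ s < 2 * K, 2 * ∫⁻ x, (edgesA (A s) x k : ℝ≥0∞) ∂law f ≤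
      ENNReal.ofReal (lam * (D / K)) * (∫⁻ a in Set.Icc (-1:ℝ) 1, ∫⁻ b,
        TD (cutf (A s) f) a b * Pk μ k a b) +
      ENNReal.ofReal (1 / lam) * (4 * ∑ i, ∑ j, ENNReal.ofReal (w s i j) *
        ENNReal.ofReal (32 * κ ^ 2 * (1 / r i + 1 / r j))) := by
    intro s hs
    have hwd := C.width hr hD hK hs
    calc 2 * ∫⁻ x, (edgesA (A s) x k : ℝ≥0∞) ∂law f
        ≤ 2 * ∫⁻ a in Set.Icc (-1:ℝ) 1, ∫⁻ b, TG (cutf (A s) f) a b * Pk μ k a b :=
          mul_le_mul_right (h.edgesA_le (hAm s) k) 2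
      _ = ∫⁻ a in Set.Icc (-1:ℝ) 1, 2 * ∫⁻ b, TG (cutf (A s) f) a b * Pk μ k a b := by
          rw [lintegral_const_mul _ (hGm s)]
      _ ≤ ∫⁻ a in Set.Icc (-1:ℝ) 1, (ENNReal.ofReal (lam * (D / K)) *
            (∫⁻ b, TD (cutf (A s) f) a b * Pk μ k a b) + ENNReal.ofReal (1 / lam) *
            (4 * ∑ i, ∑ j, ENNReal.ofReal (w s i j) *
        (Win p r i j).indicator (fun _ => ENNReal.ofReal (qq p r κ i j)) a)) := by
          apply setLIntegral_mono' measurableSet_Icc
          intro a ha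
          exact h.slope_slab hl (hAm s) hwd.1 (by positivity) hwd.2.1
            (h.cut_range C hD hK) k ha
      _ = ENNReal.ofReal (lam * (D / K)) * (∫⁻ a in Set.Icc (-1:ℝ) 1, ∫⁻ b,
            TD (cutf (A s) f) a b * Pk μ k a b) + ENNReal.ofReal (1 / lam) *
            (4 * ∑ i, ∑ j, ENNReal.ofReal (w s i j) * ∫⁻ a in Set.Icc (-1:ℝ) 1,
        (Win p r i j).indicator (fun _ => ENNReal.ofReal (qq p r κ i j)) a) := by
          rw [lintegral_add_left ((hρm s).const_mul _), lintegral_const_mul _ (hρm s),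
            lintegral_const_mul _ ((hWs s).const_mul _), lintegral_const_mul _ (hWs s)]
          congr 3
          rw [lintegral_finsetSum]
          · apply sum_congr rfl; intro i _
            rw [lintegral_finsetSum]
            · apply sum_congr rfl; intro j _
              rw [lintegral_const_mul _ (hW i j)]
            · intro j _
              exact (hW i j).const_mul _
          · intro i _
            exact Finset.measurable_sum _ fun j _ => (hW i j).const_mul _
      _ ≤ _ := by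
          gcongr with i _ j _
          exact h.win_le i j
  -- the sum of the line densities
  have hTD8 : ∑ s ∈ range (2 * K), (∫⁻ a in Set.Icc (-1:ℝ) 1, ∫⁻ b,
      TD (cutf (A s) f) a b * Pk μ k a b) ≤ 8 := by
    rw [← lintegral_finsetSum _ (fun s _ => hρm s)]
    calc ∫⁻ a in Set.Icc (-1:ℝ) 1, ∑ s ∈ range (2 * K), ∫⁻ b,
            TD (cutf (A s) f) a b * Pk μ k a b
        ≤ ∫⁻ a in Set.Icc (-1:ℝ) 1, 4 := by
          apply lintegral_mono; intro a
          dsimp only
          rw [← lintegral_finsetSum]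
          · refine le_trans (lintegral_mono fun b => ?_) (h.rank k a)
            rw [← sum_mul]
            exact mul_le_mul_left (sum_TD_le h.meas C.A a b) _
          · intro s _
            exact (hTDm s).of_uncurry_left.mul hPkm.of_uncurry_left
      _ = 8 := by
          rw [lintegral_const, Measure.restrict_apply_univ, Real.volume_Icc]
          norm_num
  have hpos : ∀ i j, 0 ≤ 32 * κ ^ 2 * (1 / r i + 1 / r j) := by
    intro i j
    have := hr i
    have := hr j
    positivity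
  calc 2 * ∑ s ∈ range (2 * K), ∫⁻ x, (edgesA (A s) x k : ℝ≥0∞) ∂law f
      = ∑ s ∈ range (2 * K), 2 * ∫⁻ x, (edgesA (A s) x k : ℝ≥0∞) ∂law f := mul_sum _ _ _
    _ ≤ ∑ s ∈ range (2 * K), (ENNReal.ofReal (lam * (D / K)) *
          (∫⁻ a in Set.Icc (-1:ℝ) 1, ∫⁻ b, TD (cutf (A s) f) a b * Pk μ k a b) +
        ENNReal.ofReal (1 / lam) * (4 * ∑ i, ∑ j, ENNReal.ofReal (w s i j) *
          ENNReal.ofReal (32 * κ ^ 2 * (1 / r i + 1 / r j)))) :=
        sum_le_sum fun s hs => one s (mem_range.mp hs)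
    _ = ENNReal.ofReal (lam * (D / K)) * (∑ s ∈ range (2 * K),
          (∫⁻ a in Set.Icc (-1:ℝ) 1, ∫⁻ b, TD (cutf (A s) f) a b * Pk μ k a b)) +
        ENNReal.ofReal (1 / lam) * (4 * ∑ s ∈ range (2 * K), ∑ i, ∑ j,
          ENNReal.ofReal (w s i j) * ENNReal.ofReal (32 * κ ^ 2 * (1 / r i + 1 / r j))) := by
        rw [sum_add_distrib, ← mul_sum, ← mul_sum, ← mul_sum]
    _ ≤ ENNReal.ofReal (lam * (D / K)) * 8 +
        ENNReal.ofReal (1 / lam) * (4 * ENNReal.ofReal (64 * κ ^ 2 * (n / K) * ∑ i, 1 / r i)) := by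
        gcongr
        have e1 : ∑ s ∈ range (2 * K), ∑ i, ∑ j,
            ENNReal.ofReal (w s i j) * ENNReal.ofReal (32 * κ ^ 2 * (1 / r i + 1 / r j)) =
            ENNReal.ofReal (∑ s ∈ range (2 * K), ∑ i, ∑ j,
              w s i j * (32 * κ ^ 2 * (1 / r i + 1 / r j))) := by
          rw [ENNReal.ofReal_sum_of_nonneg fun s hs => sum_nonneg fun i _ => sum_nonneg fun j _ =>
            mul_nonneg (hw0 s (mem_range.mp hs) i j) (hpos i j)]
          apply sum_congr rfl; intro s hs
          rw [ENNReal.ofReal_sum_of_nonneg fun i _ => sum_nonneg fun j _ =>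
            mul_nonneg (hw0 s (mem_range.mp hs) i j) (hpos i j)]
          apply sum_congr rfl; intro i _
          rw [ENNReal.ofReal_sum_of_nonneg fun j _ =>
            mul_nonneg (hw0 s (mem_range.mp hs) i j) (hpos i j)]
          apply sum_congr rfl; intro j _
          rw [ENNReal.ofReal_mul (hw0 s (mem_range.mp hs) i j)]
        rw [e1]
        exact ENNReal.ofReal_le_ofReal (C.mass hr hD hK)
    _ = ENNReal.ofReal ((8 * (lam * D) + 256 * κ ^ 2 * (n * ∑ i, 1 / r i) / lam) / K) := by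
        have hS : 0 ≤ ∑ i, 1 / r i := sum_nonneg fun i _ => by
          have := hr i
          positivity
        rw [show (4:ℝ≥0∞) = ENNReal.ofReal 4 by norm_num,
          show (8:ℝ≥0∞) = ENNReal.ofReal 8 by norm_num, ← ENNReal.ofReal_mul (by positivity),
          ← ENNReal.ofReal_mul (by norm_num), ← ENNReal.ofReal_mul (by positivity),
          ← ENNReal.ofReal_add (by positivity) (by positivity)]
        congr 1
        field_simp
        ring

/-- the slabs together -/
lemma Noise.slab_bound (C : Cuts p r D K) (hn : 0 < n) (hD : 0 < D) (hK : 0 < K) (k : ℕ) :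
    ∑ s ∈ range (2 * K), ∫⁻ x, (edgesA (sset p r C.A D K s) x k : ℝ≥0∞) ∂law f ≤
      ENNReal.ofReal (8 * κ * √(32 * (n * ∑ i, D / r i)) / K) := by
  have hκ := h.kpos
  have hr := h.rpos
  have hKR : (0:ℝ) < K := by exact_mod_cast hK
  have : NeZero n := ⟨hn.ne'⟩
  have hS : 0 < ∑ i, 1 / r i := sum_pos (fun i _ => by have := hr i; positivity) univ_nonempty
  have hnR : (0:ℝ) < n := by exact_mod_cast hn
  set M := (n:ℝ) * ∑ i, 1 / r i with hM
  have hM0 : 0 < M := by positivity
  set lam := κ * √(32 * M / D) with hlam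
  have hsq : 0 < √(32 * M / D) := Real.sqrt_pos.mpr (by positivity)
  have hl : 0 < lam := by positivity
  have h1 := h.slab_sum C hD hK hl k
  have e1 : lam ^ 2 * D = 32 * κ ^ 2 * M := by
    rw [hlam, mul_pow, Real.sq_sqrt (by positivity)]
    field_simp
  have e2 : 256 * κ ^ 2 * M / lam = 8 * (lam * D) := by
    rw [div_eq_iff hl.ne']
    nlinarith
  have e3 : lam * D = κ * √(32 * (n * ∑ i, D / r i)) := by
    have e4 : (n:ℝ) * ∑ i, D / r i = D * M := by
      have : ∀ i, D / r i = D * (1 / r i) := fun i => by ring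
      simp_rw [this]
      rw [← mul_sum, hM]
      ring
    rw [hlam, e4, mul_assoc]
    congr 1
    have e5 : 32 * (D * M) = D ^ 2 * (32 * M / D) := by field_simp
    rw [e5, Real.sqrt_mul (by positivity), Real.sqrt_sq hD.le]
    ring
  rw [e2, e3] at h1
  have h2 : (8 * (κ * √(32 * (n * ∑ i, D / r i))) + 8 * (κ * √(32 * (n * ∑ i, D / r i)))) / K =
      2 * (8 * κ * √(32 * (n * ∑ i, D / r i)) / K) := by ring
  rw [h2, ENNReal.ofReal_mul (by norm_num), show ENNReal.ofReal 2 = 2 by norm_num] at h1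
  exact (ENNReal.mul_le_mul_iff_right (by norm_num) (by norm_num)).mp h1

end

end Pool.Agent.K7.H26.SM
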