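import Pool.Agent.K7.H26.SM.Det

namespace Pool.Agent.K7.H26.SM

open MeasureTheory Finset Function
open scoped ENNReal

/-- the fraction of the interval `[ξ - r, ξ + r]` to the left of `x` -/
noncomputable def hh (ξ r x : ℝ) : ℝ := min (max (x - (ξ - r)) 0) (2 * r) / (2 * r)

lemma hh_mono {ξ r : ℝ} (hr : 0 < r) : Monotone (hh ξ r) := by
  intro x y hxy
  unfold hh
  apply div_le_div_of_nonneg_right _ (by positivity)
  apply min_le_min _ le_rfl
  apply max_le_max _ le_rfl
  linarith

lemma hh_cont {ξ r : ℝ} : Continuous (hh ξ r) := by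
  unfold hh
  fun_prop

lemma hh_left {ξ r x : ℝ} (hr : 0 < r) (h : x ≤ ξ - r) : hh ξ r x = 0 := by
  unfold hh
  rw [max_eq_right (by linarith), min_eq_left (by linarith), zero_div]

lemma hh_right {ξ r x : ℝ} (hr : 0 < r) (h : ξ + r ≤ x) : hh ξ r x = 1 := by
  unfold hh
  rw [max_eq_left (by linarith), min_eq_right (by linarith)]
  field_simp

lemma hh_nonneg {ξ r x : ℝ} (hr : 0 < r) : 0 ≤ hh ξ r x := by
  unfold hh
  apply div_nonneg _ (by positivity)
  apply le_min (le_max_right _ _) (by positivity)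

lemma vol_le {ξ r u v : ℝ} (hr : 0 < r) :
    volume (Set.Icc (ξ - r) (ξ + r) ∩ Set.Icc u v) ≤
      ENNReal.ofReal (2 * r * (hh ξ r v - hh ξ r u)) := by
  rw [Set.Icc_inter_Icc, Real.volume_Icc]
  by_cases h : (ξ - r ≤ v) ∧ (u ≤ ξ + r)
  · obtain ⟨h1, h2⟩ := h
    apply ENNReal.ofReal_le_ofReal
    apply le_of_eq
    have e1 : 2 * r * hh ξ r v = min (ξ + r) v - (ξ - r) := by
      unfold hh
      rw [max_eq_left (by linarith)]
      rcases le_total (ξ + r) v with h3 | h3
      · rw [min_eq_right (by linarith), min_eq_left h3]; field_simp; ring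
      · rw [min_eq_left (by linarith), min_eq_right h3]; field_simp
    have e2 : 2 * r * hh ξ r u = max (ξ - r) u - (ξ - r) := by
      unfold hh
      rcases le_total (ξ - r) u with h3 | h3
      · rw [max_eq_left (by linarith), min_eq_left (by linarith), max_eq_right h3]; field_simp
      · rw [max_eq_right (by linarith), min_eq_left (by linarith), max_eq_left h3]; field_simp; ring
    have e3 : (ξ - r) ⊔ u = max (ξ - r) u := rfl
    have e4 : (ξ + r) ⊓ v = min (ξ + r) v := rfl
    rw [mul_sub, e1, e2, e3, e4]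
    ring
  · have : (ξ + r) ⊓ v - (ξ - r) ⊔ u ≤ 0 := by
      rw [not_and_or] at h
      rcases h with h | h
      · push Not at h
        have h1 : (ξ + r) ⊓ v ≤ v := inf_le_right
        have h2 : ξ - r ≤ (ξ - r) ⊔ u := le_sup_left
        linarith
      · push Not at h
        have h1 : (ξ + r) ⊓ v ≤ ξ + r := inf_le_left
        have h2 : u ≤ (ξ - r) ⊔ u := le_sup_right
        linarith
    rw [ENNReal.ofReal_of_nonpos this]
    exact zero_le

section

variable {n : ℕ} (p : Fin n → ℝ × ℝ) (r : Fin n → ℝ) (A D : ℝ)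

/-- the clock which advances both with the abscissa and with the number of points -/
noncomputable def Th (x : ℝ) : ℝ := (x - A) / D + (∑ i, hh (p i).1 (r i) x) / n

/-- the slab number -/
noncomputable def sig (K : ℕ) (x : ℝ) : ℕ := min ⌊K * Th p r A D x⌋₊ (2 * K - 1)

end

/-- a system of cuts -/
structure Cuts {n : ℕ} (p : Fin n → ℝ × ℝ) (r : Fin n → ℝ) (D : ℝ) (K : ℕ) where
  A : ℝ
  c : ℕ → ℝ
  left_end : ∀ i, A ≤ (p i).1 - r i
  right_end : ∀ i, (p i).1 + r i ≤ A + D
  c_mem : ∀ t ≤ 2 * K, A ≤ c t ∧ c t ≤ A + D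
  Th_c : ∀ t ≤ 2 * K, Th p r A D (c t) = t / K

section

variable {n : ℕ} {f : Fin n → ℝ × ℝ → ℝ≥0∞} {p : Fin n → ℝ × ℝ} {r : Fin n → ℝ} {κ D : ℝ}

lemma Th_sub_ge (hr : ∀ i, 0 < r i) {A x y : ℝ} (hxy : x ≤ y) :
    (y - x) / D ≤ Th p r A D y - Th p r A D x := by
  unfold Th
  have h1 : (∑ i, hh (p i).1 (r i) x) / (n:ℝ) ≤ (∑ i, hh (p i).1 (r i) y) / n := by
    apply div_le_div_of_nonneg_right _ (Nat.cast_nonneg _)
    exact sum_le_sum fun i _ => hh_mono (hr i) hxy
  have e : (y - x) / D = (y - A) / D - (x - A) / D := by ring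
  linarith

lemma Th_sub_ge' (hD : 0 < D) {A x y : ℝ} (hxy : x ≤ y) :
    (∑ i, (hh (p i).1 (r i) y - hh (p i).1 (r i) x)) / n ≤ Th p r A D y - Th p r A D x := by
  unfold Th
  have h1 : (x - A) / D ≤ (y - A) / D := div_le_div_of_nonneg_right (by linarith) hD.le
  rw [sum_sub_distrib]
  have e : ((∑ i, hh (p i).1 (r i) y) - ∑ i, hh (p i).1 (r i) x) / (n:ℝ) =
    (∑ i, hh (p i).1 (r i) y) / n - (∑ i, hh (p i).1 (r i) x) / n := by ring
  linarith

lemma Th_strict (hr : ∀ i, 0 < r i) (hD : 0 < D) {A : ℝ} : StrictMono (Th p r A D) := by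
  intro x y hxy
  have := Th_sub_ge (p := p) (D := D) (A := A) hr hxy.le
  have h2 : 0 < (y - x) / D := div_pos (by linarith) hD
  linarith

lemma Th_cont {A : ℝ} : Continuous (Th p r A D) := by
  unfold Th
  refine Continuous.add (by fun_prop) (Continuous.div_const ?_ _)
  exact continuous_finsetSum _ fun i _ => hh_cont

lemma exists_cuts (h : Noise f p r κ D) (hn : 0 < n) {K : ℕ} (hK : 0 < K) :
    Nonempty (Cuts p r D K) := by
  have : NeZero n := ⟨hn.ne'⟩
  have hr := h.rpos
  have hD : 0 < D := by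
    have h1 := (h.diam 0 0).1
    have h2 := hr 0
    have h3 := abs_nonneg ((p 0).1 - (p 0).1)
    linarith
  obtain ⟨i₀, -, hi₀⟩ := exists_min_image univ (fun i => (p i).1 - r i)
    ⟨(0 : Fin n), mem_univ _⟩
  set A := (p i₀).1 - r i₀ with hA
  have hl : ∀ i, A ≤ (p i).1 - r i := fun i => hi₀ i (mem_univ i)
  have hri : ∀ i, (p i).1 + r i ≤ A + D := by
    intro i
    have h1 := (h.diam i i₀).1
    have h2 := le_abs_self ((p i).1 - (p i₀).1)
    rw [hA]
    linarith
  have hKR : (0:ℝ) < K := by exact_mod_cast hK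
  have hnR : (0:ℝ) < n := by exact_mod_cast hn
  have t0 : Th p r A D A = 0 := by
    unfold Th
    rw [sum_eq_zero fun i _ => hh_left (hr i) (hl i)]
    simp
  have t1 : Th p r A D (A + D) = 2 := by
    unfold Th
    rw [sum_congr rfl fun i _ => hh_right (hr i) (hri i)]
    simp
    field_simp
    norm_num
  have ivt : ∀ t : ℕ, ∃ c, t ≤ 2 * K → (A ≤ c ∧ c ≤ A + D) ∧ Th p r A D c = t / K := by
    intro t
    by_cases ht : t ≤ 2 * K
    · have hmem : (t:ℝ) / K ∈ Set.Icc (Th p r A D A) (Th p r A D (A + D)) := by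
        rw [t0, t1]
        constructor
        · positivity
        · rw [div_le_iff₀ hKR]
          exact_mod_cast ht
      obtain ⟨c, hc, hc2⟩ := intermediate_value_Icc (by linarith : A ≤ A + D)
        (Th_cont (p := p) (r := r) (D := D) (A := A)).continuousOn hmem
      exact ⟨c, fun _ => ⟨hc, hc2⟩⟩
    · exact ⟨0, fun h => absurd h ht⟩
  choose c hc using ivt
  exact ⟨{ A := A, c := c, left_end := hl, right_end := hri
           c_mem := fun t ht => (hc t ht).1
           Th_c := fun t ht => (hc t ht).2 }⟩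

variable {K : ℕ} (C : Cuts p r D K)

include C

lemma Cuts.sig_spec (hr : ∀ i, 0 < r i) (hD : 0 < D) (hK : 0 < K) {x : ℝ} {s : ℕ}
    (h1 : C.A ≤ x) (h2 : x ≤ C.A + D) (hs : sig p r C.A D K x = s) :
    s < 2 * K ∧ C.c s ≤ x ∧ x ≤ C.c (s + 1) := by
  have hKR : (0:ℝ) < K := by exact_mod_cast hK
  have hst := Th_strict (p := p) (r := r) (D := D) (A := C.A) hr hD
  have hs1 : s < 2 * K := by
    rw [← hs]; unfold sig; omega
  have hsl : (s:ℝ) ≤ K * Th p r C.A D x := by
    have h3 : s ≤ ⌊K * Th p r C.A D x⌋₊ := by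
      rw [← hs]; unfold sig; exact min_le_left _ _
    by_cases h0 : s = 0
    · subst h0
      have hx0 : 0 ≤ Th p r C.A D x := by
        have h4 := C.Th_c 0 (by omega)
        have h5 := Th_sub_ge (p := p) (D := D) (A := C.A) hr h1
        have h6 : 0 ≤ Th p r C.A D C.A := by
          unfold Th
          have : 0 ≤ (∑ i, hh (p i).1 (r i) C.A) / (n:ℝ) :=
            div_nonneg (sum_nonneg fun i _ => hh_nonneg (hr i)) (Nat.cast_nonneg _)
          simpa using this
        have h7 : 0 ≤ (x - C.A) / D := div_nonneg (by linarith) hD.le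
        linarith
      simpa using mul_nonneg hKR.le hx0
    · exact (Nat.le_floor_iff' h0).mp h3
  refine ⟨hs1, ?_, ?_⟩
  · by_contra hcon
    push Not at hcon
    have h3 := hst hcon
    rw [C.Th_c s hs1.le, lt_div_iff₀ hKR] at h3
    linarith
  · by_contra hcon
    push Not at hcon
    have h3 := hst hcon
    rw [C.Th_c (s + 1) (by omega), div_lt_iff₀ hKR] at h3
    have h4 : s + 1 ≤ ⌊K * Th p r C.A D x⌋₊ := by
      apply Nat.le_floor
      linarith
    have h5 : s = 2 * K - 1 := by
      rw [← hs]; unfold sig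
      unfold sig at hs
      omega
    have h6 : s + 1 = 2 * K := by omega
    have h7 := C.Th_c (s + 1) (by omega)
    -- x > c (2K) = A + D
    have h8 := (C.c_mem (s + 1) (by omega))
    have h9 : Th p r C.A D (C.A + D) ≤ 2 := by
      unfold Th
      have : (∑ i, hh (p i).1 (r i) (C.A + D)) / (n:ℝ) ≤ 1 := by
        rw [sum_congr rfl fun i _ => hh_right (hr i) (C.right_end i)]
        simp only [sum_const, card_univ, Fintype.card_fin, nsmul_eq_mul, mul_one]
        exact div_self_le_one _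
      have h10 : (C.A + D - C.A) / D = 1 := by
        rw [add_sub_cancel_left, div_self hD.ne']
      linarith
    have h11 := hst.monotone h2
    rw [h6] at h7
    have h12 : Th p r C.A D (C.c (2 * K)) = 2 := by
      rw [h7]; push_cast; field_simp
    have h13 := hst hcon
    rw [h6, h12] at h13
    linarith

lemma Cuts.width (hr : ∀ i, 0 < r i) (hD : 0 < D) (hK : 0 < K) {s : ℕ} (hs : s < 2 * K) :
    C.c s ≤ C.c (s + 1) ∧ C.c (s + 1) - C.c s ≤ D / K ∧
      ∑ i, (hh (p i).1 (r i) (C.c (s + 1)) - hh (p i).1 (r i) (C.c s)) ≤ n / K := by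
  have hKR : (0:ℝ) < K := by exact_mod_cast hK
  have hst := Th_strict (p := p) (r := r) (D := D) (A := C.A) hr hD
  have h1 := C.Th_c s hs.le
  have h2 := C.Th_c (s + 1) (by omega)
  have h3 : C.c s ≤ C.c (s + 1) := by
    by_contra hcon
    push Not at hcon
    have h4 := hst hcon
    rw [h1, h2] at h4
    have h5 : (s:ℝ) / K ≤ ((s + 1 : ℕ) : ℝ) / K := by
      apply div_le_div_of_nonneg_right _ hKR.le
      push_cast; linarith
    linarith
  have h4 : Th p r C.A D (C.c (s + 1)) - Th p r C.A D (C.c s) = 1 / K := by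
    rw [h1, h2]; push_cast; ring
  refine ⟨h3, ?_, ?_⟩
  · have h5 := Th_sub_ge (p := p) (D := D) (A := C.A) hr h3
    rw [h4, div_le_iff₀ hD] at h5
    calc C.c (s + 1) - C.c s ≤ 1 / K * D := h5
      _ = D / K := by ring
  · rcases Nat.eq_zero_or_pos n with hn | hn
    · subst hn; simp
    have hnR : (0:ℝ) < n := by exact_mod_cast hn
    have h5 := Th_sub_ge' (p := p) (r := r) (A := C.A) hD h3
    rw [h4, div_le_iff₀ hnR] at h5
    calc _ ≤ 1 / (K:ℝ) * n := h5
      _ = n / K := by ring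

/-- the cuts separate different slabs -/
lemma Cuts.sep (hr : ∀ i, 0 < r i) (hD : 0 < D) (hK : 0 < K) {x y : ℝ}
    (h : sig p r C.A D K x < sig p r C.A D K y) :
    ∃ t, t < 2 * K ∧ x < C.c t ∧ C.c t ≤ y := by
  have hKR : (0:ℝ) < K := by exact_mod_cast hK
  have hst := Th_strict (p := p) (r := r) (D := D) (A := C.A) hr hD
  set t := sig p r C.A D K y with ht
  have ht1 : t < 2 * K := by rw [ht]; unfold sig; omega
  have ht0 : t ≠ 0 := by omega
  have h1 : (t:ℝ) ≤ K * Th p r C.A D y := by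
    apply (Nat.le_floor_iff' ht0).mp
    rw [ht]; unfold sig; exact min_le_left _ _
  have h2 : K * Th p r C.A D x < t := by
    apply (Nat.floor_lt' ht0).mp
    unfold sig at h
    omega
  refine ⟨t, ht1, ?_, ?_⟩
  · by_contra hcon
    push Not at hcon
    have h3 := hst.monotone hcon
    rw [C.Th_c t ht1.le, div_le_iff₀ hKR] at h3
    linarith
  · by_contra hcon
    push Not at hcon
    have h3 := hst hcon
    rw [C.Th_c t ht1.le, lt_div_iff₀ hKR] at h3
    linarith

end

end Pool.Agent.K7.H26.SM
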